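import Mathlib

set_option autoImplicit false

namespace H13.ALoop

open MulAction

/-- Fixed point for an `r`-group acting on an invariant set of size prime to `r`. -/
theorem fixed_pt_of_not_dvd {W X : Type} [Group W] (f : W →* Equiv.Perm X) {r : ℕ}
    (hr : r.Prime) (hW : IsPGroup r W) (S : Set X) [Finite S] (hS : ∀ g, ∀ x ∈ S, f g x ∈ S)
    (hrS : ¬ r ∣ Nat.card S) : ∃ x ∈ S, ∀ g, f g x = x := by
  have : Fact r.Prime := ⟨hr⟩
  let act : MulAction W S :=
    { smul := fun g x => ⟨f g x, hS g x x.2⟩
      one_smul := by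
        intro x
        apply Subtype.ext
        change f 1 (x : X) = x
        rw [map_one]; rfl
      mul_smul := by
        intro g h x
        apply Subtype.ext
        change f (g * h) (x : X) = f g (f h x)
        rw [map_mul]; rfl }
  obtain ⟨x, hx⟩ := hW.nonempty_fixed_point_of_prime_not_dvd_card S hrS
  exact ⟨x, x.2, fun g => congrArg Subtype.val (hx g)⟩

/-- A second fixed point for a `q`-group acting on an invariant set of size divisible by `q`. -/
theorem fixed_pt_of_dvd {W X : Type} [Group W] (f : W →* Equiv.Perm X) {r : ℕ}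
    (hr : r.Prime) (hW : IsPGroup r W) (S : Set X) [Finite S] (hS : ∀ g, ∀ x ∈ S, f g x ∈ S)
    (hrS : r ∣ Nat.card S) {a : X} (ha : a ∈ S) (hfa : ∀ g, f g a = a) :
    ∃ x ∈ S, x ≠ a ∧ ∀ g, f g x = x := by
  have : Fact r.Prime := ⟨hr⟩
  let act : MulAction W S :=
    { smul := fun g x => ⟨f g x, hS g x x.2⟩
      one_smul := by
        intro x
        apply Subtype.ext
        change f 1 (x : X) = x
        rw [map_one]; rfl
      mul_smul := by
        intro g h x
        apply Subtype.ext
        change f (g * h) (x : X) = f g (f h x)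
        rw [map_mul]; rfl }
  obtain ⟨x, hx, hne⟩ := hW.exists_fixed_point_of_prime_dvd_card_of_fixed_point S hrS
    (a := (⟨a, ha⟩ : S)) (fun g => Subtype.ext (hfa g))
  refine ⟨x, x.2, ?_, fun g => congrArg Subtype.val (hx g)⟩
  intro h
  exact hne (Subtype.ext h.symm)

/-- A finite group without elements of prime order different from `p` is a `p`-group. -/
theorem isPGroup_of_prime_orders {W : Type} [Group W] [Finite W] {p : ℕ} (hp : p.Prime)
    (h : ∀ r : ℕ, r.Prime → r ≠ p → ∀ g : W, orderOf g = r → False) : IsPGroup p W := by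
  have hcard : Nat.card W = p ^ (Nat.card W).primeFactorsList.length := by
    apply Nat.eq_prime_pow_of_unique_prime_dvd Nat.card_pos.ne'
    intro d hd hdvd
    by_contra hne
    have : Fact d.Prime := ⟨hd⟩
    obtain ⟨g, hg⟩ := exists_prime_orderOf_dvd_card' d hdvd
    exact h d hd hne g hg
  exact IsPGroup.of_card hcard

/-- The subgroup generated by an element of prime order `r` is an `r`-group. -/
theorem isPGroup_zpowers {W : Type} [Group W] {r : ℕ} {g : W} (hg : orderOf g = r) :
    IsPGroup r (Subgroup.zpowers g) := by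
  apply IsPGroup.of_card (n := 1)
  rw [Nat.card_zpowers, hg, pow_one]

/-- A finite commutative group of exponent `p` has order a power of `p`. -/
theorem card_eq_pow_of_exponent {V : Type} [CommGroup V] [Finite V] {p : ℕ} (hp : p.Prime)
    (h : ∀ v : V, v ^ p = 1) : ∃ n, Nat.card V = p ^ n := by
  have : Fact p.Prime := ⟨hp⟩
  have hV : IsPGroup p V := by
    apply isPGroup_of_prime_orders hp
    intro r hr hne g hg
    have h1 : orderOf g ∣ p := orderOf_dvd_of_pow_eq_one (h g)
    rw [hg] at h1
    exact hne ((Nat.prime_dvd_prime_iff_eq hr hp).1 h1)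
  exact (IsPGroup.iff_card).1 hV

end H13.ALoop
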