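import Mathlib

set_option autoImplicit false

namespace H13.ALoop

/-- Automorphic loops: a loop all of whose inner maps are automorphisms. -/
class IsALoop (Q : Type) [MulOneClass Q] : Prop where
  left_bij : ∀ a : Q, Function.Bijective (fun x : Q => a * x)
  right_bij : ∀ a : Q, Function.Bijective (fun x : Q => x * a)
  innL : ∀ x y u v a b : Q, (x * y) * a = x * (y * u) → (x * y) * b = x * (y * v) →
    (x * y) * (a * b) = x * (y * (u * v))
  innM : ∀ x y u v a b : Q, a * (y * x) = (u * y) * x → b * (y * x) = (v * y) * x →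
    (a * b) * (y * x) = ((u * v) * y) * x
  innT : ∀ x u v a b : Q, a * x = x * u → b * x = x * v → (a * b) * x = x * (u * v)

section basics

variable {Q : Type} [MulOneClass Q] [IsALoop Q]

theorem lc {a x y : Q} (h : a * x = a * y) : x = y := (IsALoop.left_bij a).1 h
theorem rc {a x y : Q} (h : x * a = y * a) : x = y := (IsALoop.right_bij a).1 h
theorem lcI {a x y : Q} : a * x = a * y ↔ x = y := ⟨lc, fun h => by rw [h]⟩
theorem rcI {a x y : Q} : x * a = y * a ↔ x = y := ⟨rc, fun h => by rw [h]⟩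
theorem ldiv (a b : Q) : ∃ x, a * x = b := (IsALoop.left_bij a).2 b
theorem rdiv (a b : Q) : ∃ x, x * a = b := (IsALoop.right_bij a).2 b

theorem exists_Lm (x y : Q) : ∃ φ : MulAut Q, ∀ z, x * (y * z) = (x * y) * φ z := by
  have h : ∀ z, ∃ w, (x * y) * w = x * (y * z) := fun z => ldiv _ _
  choose f hf using h
  have hmul : ∀ u v, f (u * v) = f u * f v := by
    intro u v
    apply lc (a := x * y)
    rw [hf, IsALoop.innL x y u v (f u) (f v) (hf u) (hf v)]
  have hbij : Function.Bijective f := by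
    constructor
    · intro u v huv
      have h1 := hf u
      rw [huv, hf v] at h1
      exact lc (lc h1.symm)
    · intro w
      obtain ⟨t, ht⟩ := ldiv x ((x * y) * w)
      obtain ⟨z, hz⟩ := ldiv y t
      refine ⟨z, ?_⟩
      apply lc (a := x * y)
      rw [hf, hz, ht]
  refine ⟨MulEquiv.ofBijective (⟨f, hmul⟩ : Q →ₙ* Q) hbij, ?_⟩
  intro z
  exact (hf z).symm

theorem exists_Mm (y x : Q) : ∃ φ : MulAut Q, ∀ z, (z * y) * x = φ z * (y * x) := by
  have h : ∀ z, ∃ w, w * (y * x) = (z * y) * x := fun z => rdiv _ _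
  choose f hf using h
  have hmul : ∀ u v, f (u * v) = f u * f v := by
    intro u v
    apply rc (a := y * x)
    rw [hf, IsALoop.innM x y u v (f u) (f v) (hf u) (hf v)]
  have hbij : Function.Bijective f := by
    constructor
    · intro u v huv
      have h1 := hf u
      rw [huv, hf v] at h1
      exact rc (rc h1.symm)
    · intro w
      obtain ⟨t, ht⟩ := rdiv x (w * (y * x))
      obtain ⟨z, hz⟩ := rdiv y t
      refine ⟨z, ?_⟩
      apply rc (a := y * x)
      rw [hf, hz, ht]
  refine ⟨MulEquiv.ofBijective (⟨f, hmul⟩ : Q →ₙ* Q) hbij, ?_⟩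
  intro z
  exact (hf z).symm

theorem exists_Tm (x : Q) : ∃ φ : MulAut Q, ∀ z, x * z = φ z * x := by
  have h : ∀ z, ∃ w, w * x = x * z := fun z => rdiv _ _
  choose f hf using h
  have hmul : ∀ u v, f (u * v) = f u * f v := by
    intro u v
    apply rc (a := x)
    rw [hf, IsALoop.innT x u v (f u) (f v) (hf u) (hf v)]
  have hbij : Function.Bijective f := by
    constructor
    · intro u v huv
      have h1 := hf u
      rw [huv, hf v] at h1
      exact lc h1.symm
    · intro w
      obtain ⟨z, hz⟩ := ldiv x (w * x)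
      refine ⟨z, ?_⟩
      apply rc (a := x)
      rw [hf, hz]
  refine ⟨MulEquiv.ofBijective (⟨f, hmul⟩ : Q →ₙ* Q) hbij, ?_⟩
  intro z
  exact (hf z).symm

/-- `Lm x y = L_{xy}⁻¹ L_x L_y`. -/
noncomputable def Lm (x y : Q) : MulAut Q := (exists_Lm x y).choose
theorem Lm_spec (x y z : Q) : x * (y * z) = (x * y) * Lm x y z := (exists_Lm x y).choose_spec z

/-- `(z*y)*x = Mm y x z * (y*x)`. -/
noncomputable def Mm (y x : Q) : MulAut Q := (exists_Mm y x).choose
theorem Mm_spec (y x z : Q) : (z * y) * x = Mm y x z * (y * x) := (exists_Mm y x).choose_spec z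

/-- `x * z = Tm x z * x`. -/
noncomputable def Tm (x : Q) : MulAut Q := (exists_Tm x).choose
theorem Tm_spec (x z : Q) : x * z = Tm x z * x := (exists_Tm x).choose_spec z

theorem Tm_inv_spec (x z : Q) : z * x = x * (Tm x)⁻¹ z := by
  rw [Tm_spec x ((Tm x)⁻¹ z), MulAut.apply_inv_self]

theorem map_one' (φ : MulAut Q) : φ 1 = 1 := by
  apply lc (a := φ 1)
  rw [← map_mul, mul_one, mul_one]

theorem Tm_self (x : Q) : Tm x x = x := rc (Tm_spec x x).symm

/-- flexible law -/
theorem flex (x z : Q) : x * (z * x) = (x * z) * x := by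
  rw [Tm_spec x (z * x), map_mul, Tm_self, ← Tm_spec]

theorem Lm_self (x y : Q) : Lm x y x = x := by
  apply lc (a := x * y)
  rw [← Lm_spec, flex]

theorem Mm_self (y x : Q) : Mm y x x = x := by
  apply rc (a := y * x)
  rw [← Mm_spec, flex]

/-- the inverse -/
noncomputable def iv (x : Q) : Q := (ldiv x 1).choose
theorem mul_iv (x : Q) : x * iv x = 1 := (ldiv x 1).choose_spec
theorem iv_mul (x : Q) : iv x * x = 1 := by
  apply lc (a := x)
  rw [flex, mul_iv, one_mul, mul_one]
theorem iv_unique {x y : Q} (h : x * y = 1) : y = iv x := lc (h.trans (mul_iv x).symm)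
theorem iv_unique' {x y : Q} (h : y * x = 1) : y = iv x := rc (h.trans (iv_mul x).symm)
theorem iv_iv (x : Q) : iv (iv x) = x := (iv_unique (iv_mul x)).symm
theorem map_iv (φ : MulAut Q) (x : Q) : φ (iv x) = iv (φ x) := by
  apply iv_unique
  rw [← map_mul, mul_iv, map_one']
theorem iv_one : iv (1 : Q) = 1 := (iv_unique (one_mul 1)).symm
theorem iv_inj {x y : Q} (h : iv x = iv y) : x = y := by
  rw [← iv_iv x, h, iv_iv]

/-- antiautomorphic inverse property -/
theorem aaip (u v : Q) : iv (u * v) = iv v * iv u := by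
  -- x = u*v, y with x * y = u
  obtain ⟨y, hy⟩ := ldiv (u * v) u
  set x := u * v with hx
  -- L = Lm x y ; y * z = iv x
  obtain ⟨z, hz⟩ := ldiv y (iv x)
  have h1 : Lm x y z = iv u := by
    apply lc (a := u)
    have := Lm_spec x y z
    rw [hz, mul_iv, hy] at this
    rw [← this, mul_iv]
  have h2 : Lm x y (iv y) = v := by
    apply lc (a := u)
    have := Lm_spec x y (iv y)
    rw [mul_iv, mul_one, hy] at this
    rw [← this]
  have h3 : Lm x y y = iv v := by
    rw [map_iv] at h2
    rw [← h2, iv_iv]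
  have h4 : Lm x y (iv x) = iv x := by
    rw [map_iv, Lm_self]
  rw [← hz, map_mul, h3, h1, hz] at h4
  exact h4.symm

/-- `Hm x y`: `(x*z)*y = x*(η z * y)`. -/
theorem exists_Hm (x y : Q) : ∃ η : MulAut Q, ∀ z, (x * z) * y = x * (η z * y) := by
  refine ⟨Tm y * (Lm x y)⁻¹ * Lm y ((Tm y)⁻¹ x) * (Tm y)⁻¹, ?_⟩
  intro z
  rw [Tm_inv_spec y (x * z), map_mul, Lm_spec, ← Tm_inv_spec y x]
  simp only [MulAut.mul_apply]
  rw [← Tm_spec y, Lm_spec, MulAut.apply_inv_self]

noncomputable def Hm (x y : Q) : MulAut Q :=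
  Tm y * (Lm x y)⁻¹ * Lm y ((Tm y)⁻¹ x) * (Tm y)⁻¹
theorem Hm_spec (x y z : Q) : (x * z) * y = x * (Hm x y z * y) := by
  rw [Tm_inv_spec y (x * z), map_mul, Lm_spec, ← Tm_inv_spec y x]
  simp only [Hm, MulAut.mul_apply]
  rw [← Tm_spec y, Lm_spec, MulAut.apply_inv_self]

end basics

end H13.ALoop
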