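import Mathlib
import Pool.Agent.Hhelper13.ALoop.Basic

set_option autoImplicit false

namespace H13.ALoop

/-- A finite submonoid of an automorphic loop is an automorphic loop. -/
instance instSub {Q : Type} [MulOneClass Q] [IsALoop Q] [Finite Q] (S : Submonoid Q) :
    IsALoop S where
  left_bij a := by
    apply Finite.injective_iff_bijective.1
    intro x y h
    have h' : (a : Q) * x = a * y := by
      have := congrArg Subtype.val h
      simpa using this
    exact Subtype.ext (lc h')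
  right_bij a := by
    apply Finite.injective_iff_bijective.1
    intro x y h
    have h' : (x : Q) * a = y * a := by
      have := congrArg Subtype.val h
      simpa using this
    exact Subtype.ext (rc h')
  innL x y u v a b h1 h2 := by
    apply Subtype.ext
    have h1' := congrArg Subtype.val h1
    have h2' := congrArg Subtype.val h2
    simp only [Submonoid.coe_mul] at h1' h2' ⊢
    exact IsALoop.innL _ _ _ _ _ _ h1' h2'
  innM x y u v a b h1 h2 := by
    apply Subtype.ext
    have h1' := congrArg Subtype.val h1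
    have h2' := congrArg Subtype.val h2
    simp only [Submonoid.coe_mul] at h1' h2' ⊢
    exact IsALoop.innM _ _ _ _ _ _ h1' h2'
  innT x u v a b h1 h2 := by
    apply Subtype.ext
    have h1' := congrArg Subtype.val h1
    have h2' := congrArg Subtype.val h2
    simp only [Submonoid.coe_mul] at h1' h2' ⊢
    exact IsALoop.innT _ _ _ _ _ h1' h2'

/-- A surjective image of a finite automorphic loop is an automorphic loop. -/
theorem IsALoop.of_surj {Q Γ : Type} [MulOneClass Q] [IsALoop Q] [Finite Q] [MulOneClass Γ]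
    (π : Q →* Γ) (hπ : Function.Surjective π) : IsALoop Γ := by
  have : Finite Γ := Finite.of_surjective π hπ
  have hl : ∀ a : Γ, Function.Bijective (fun x : Γ => a * x) := by
    intro a
    apply Finite.surjective_iff_bijective.1
    intro b
    obtain ⟨a', rfl⟩ := hπ a
    obtain ⟨b', rfl⟩ := hπ b
    obtain ⟨x, hx⟩ := ldiv a' b'
    exact ⟨π x, by simp only [← map_mul, hx]⟩
  have hr : ∀ a : Γ, Function.Bijective (fun x : Γ => x * a) := by
    intro a
    apply Finite.surjective_iff_bijective.1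
    intro b
    obtain ⟨a', rfl⟩ := hπ a
    obtain ⟨b', rfl⟩ := hπ b
    obtain ⟨x, hx⟩ := rdiv a' b'
    exact ⟨π x, by simp only [← map_mul, hx]⟩
  refine ⟨hl, hr, ?_, ?_, ?_⟩
  · intro x y u v a b h1 h2
    obtain ⟨x, rfl⟩ := hπ x
    obtain ⟨y, rfl⟩ := hπ y
    obtain ⟨u, rfl⟩ := hπ u
    obtain ⟨v, rfl⟩ := hπ v
    have ha : a = π (Lm x y u) := by
      apply (hl (π x * π y)).1
      change (π x * π y) * a = (π x * π y) * _
      rw [h1, ← map_mul, ← map_mul, ← map_mul, ← map_mul, Lm_spec]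
    have hb : b = π (Lm x y v) := by
      apply (hl (π x * π y)).1
      change (π x * π y) * b = (π x * π y) * _
      rw [h2, ← map_mul, ← map_mul, ← map_mul, ← map_mul, Lm_spec]
    rw [ha, hb]
    rw [← map_mul, ← map_mul, ← map_mul, ← map_mul, ← map_mul, ← map_mul, ← map_mul, ← Lm_spec]
  · intro x y u v a b h1 h2
    obtain ⟨x, rfl⟩ := hπ x
    obtain ⟨y, rfl⟩ := hπ y
    obtain ⟨u, rfl⟩ := hπ u
    obtain ⟨v, rfl⟩ := hπ v
    have ha : a = π (Mm y x u) := by
      apply (hr (π y * π x)).1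
      change a * (π y * π x) = _ * (π y * π x)
      rw [h1, ← map_mul, ← map_mul, ← map_mul, ← map_mul, Mm_spec]
    have hb : b = π (Mm y x v) := by
      apply (hr (π y * π x)).1
      change b * (π y * π x) = _ * (π y * π x)
      rw [h2, ← map_mul, ← map_mul, ← map_mul, ← map_mul, Mm_spec]
    rw [ha, hb]
    rw [← map_mul, ← map_mul, ← map_mul, ← map_mul, ← map_mul, ← map_mul, ← Mm_spec, map_mul π _ x]
  · intro x u v a b h1 h2
    obtain ⟨x, rfl⟩ := hπ x
    obtain ⟨u, rfl⟩ := hπ u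
    obtain ⟨v, rfl⟩ := hπ v
    have ha : a = π (Tm x u) := by
      apply (hr (π x)).1
      change a * π x = _ * π x
      rw [h1, ← map_mul, ← map_mul, Tm_spec]
    have hb : b = π (Tm x v) := by
      apply (hr (π x)).1
      change b * π x = _ * π x
      rw [h2, ← map_mul, ← map_mul, Tm_spec]
    rw [ha, hb]
    rw [← map_mul, ← map_mul, ← map_mul, ← map_mul, ← Tm_spec, map_mul π x]

section hom

variable {Q Γ : Type} [MulOneClass Q] [IsALoop Q] [MulOneClass Γ] [IsALoop Γ] (π : Q →* Γ)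

theorem map_Lm (x y z : Q) : π (Lm x y z) = Lm (π x) (π y) (π z) := by
  apply lc (a := π x * π y)
  rw [← Lm_spec]
  simp only [← map_mul]
  rw [← Lm_spec]

theorem map_Mm (y x z : Q) : π (Mm y x z) = Mm (π y) (π x) (π z) := by
  apply rc (a := π y * π x)
  rw [← Mm_spec]
  simp only [← map_mul]
  rw [← Mm_spec]

theorem map_Tm (x z : Q) : π (Tm x z) = Tm (π x) (π z) := by
  apply rc (a := π x)
  rw [← Tm_spec]
  simp only [← map_mul]
  rw [← Tm_spec]

theorem map_Hm (x y z : Q) : π (Hm x y z) = Hm (π x) (π y) (π z) := by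
  apply rc (a := π y)
  apply lc (a := π x)
  rw [← Hm_spec]
  simp only [← map_mul]
  rw [← Hm_spec]

theorem map_iv' (x : Q) : π (iv x) = iv (π x) := by
  apply iv_unique
  rw [← map_mul, mul_iv, map_one]

/-- two elements with the same image differ by a kernel element on the left -/
theorem exists_ker_left {x y : Q} (h : π x = π y) : ∃ n, π n = 1 ∧ x = n * y := by
  obtain ⟨n, hn⟩ := rdiv y x
  refine ⟨n, ?_, hn.symm⟩
  apply rc (a := π y)
  rw [← map_mul, hn, one_mul, h]

theorem exists_ker_right {x y : Q} (h : π x = π y) : ∃ n, π n = 1 ∧ x = y * n := by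
  obtain ⟨n, hn⟩ := ldiv y x
  refine ⟨n, ?_, hn.symm⟩
  apply lc (a := π y)
  rw [← map_mul, hn, mul_one, h]

end hom

/-- The stabiliser of a submonoid in the automorphism group. -/
def stab {Q : Type} [MulOneClass Q] (N : Submonoid Q) : Subgroup (MulAut Q) where
  carrier := {φ | ∀ q, φ q ∈ N ↔ q ∈ N}
  mul_mem' := by
    intro φ ψ h1 h2 q
    rw [MulAut.mul_apply, h1, h2]
  one_mem' := by intro q; rfl
  inv_mem' := by
    intro φ h q
    have := h (φ⁻¹ q)
    rw [MulAut.apply_inv_self] at this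
    exact this.symm

theorem mem_stab {Q : Type} [MulOneClass Q] {N : Submonoid Q} {φ : MulAut Q} :
    φ ∈ stab N ↔ ∀ q, φ q ∈ N ↔ q ∈ N := Iff.rfl

theorem mem_stab_of_finite {Q : Type} [MulOneClass Q] [Finite Q] {N : Submonoid Q} {φ : MulAut Q}
    (h : ∀ q ∈ N, φ q ∈ N) : φ ∈ stab N := by
  intro q
  refine ⟨fun hq => ?_, h q⟩
  let f : N → N := fun n => ⟨φ n, h n n.2⟩
  have hf : Function.Injective f := by
    intro a b hab
    have : φ (a : Q) = φ (b : Q) := congrArg Subtype.val hab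
    exact Subtype.ext (φ.injective this)
  have hs := (Finite.injective_iff_surjective.1 hf) ⟨φ q, hq⟩
  obtain ⟨n, hn⟩ := hs
  have : φ (n : Q) = φ q := congrArg Subtype.val hn
  rw [← φ.injective this]
  exact n.2

/-- normal submonoids -/
def Nrm {Q : Type} [MulOneClass Q] [IsALoop Q] (N : Submonoid Q) : Prop :=
  (∀ x y, Lm x y ∈ stab N) ∧ (∀ x y, Mm x y ∈ stab N) ∧ (∀ x, Tm x ∈ stab N)

theorem Nrm.of_finite {Q : Type} [MulOneClass Q] [IsALoop Q] [Finite Q] {N : Submonoid Q}
    (h1 : ∀ x y, ∀ n ∈ N, Lm x y n ∈ N) (h2 : ∀ x y, ∀ n ∈ N, Mm x y n ∈ N)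
    (h3 : ∀ x, ∀ n ∈ N, Tm x n ∈ N) : Nrm N :=
  ⟨fun x y => mem_stab_of_finite (h1 x y), fun x y => mem_stab_of_finite (h2 x y),
    fun x => mem_stab_of_finite (h3 x)⟩

theorem Nrm.Hm {Q : Type} [MulOneClass Q] [IsALoop Q] {N : Submonoid Q} (h : Nrm N) (x y : Q) :
    Hm x y ∈ stab N := by
  refine mul_mem (mul_mem (mul_mem (h.2.2 _) (inv_mem (h.1 _ _))) (h.1 _ _)) (inv_mem (h.2.2 _))

/-- kernel of a homomorphism is normal -/
theorem Nrm.mker {Q Γ : Type} [MulOneClass Q] [IsALoop Q] [MulOneClass Γ] [IsALoop Γ]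
    (π : Q →* Γ) : Nrm (MonoidHom.mker π) := by
  refine ⟨?_, ?_, ?_⟩
  · intro x y q
    rw [MonoidHom.mem_mker, MonoidHom.mem_mker, map_Lm]
    constructor
    · intro h
      exact (Lm (π x) (π y)).injective (h.trans (map_one' _).symm)
    · intro h
      rw [h, map_one']
  · intro x y q
    rw [MonoidHom.mem_mker, MonoidHom.mem_mker, map_Mm]
    constructor
    · intro h
      exact (Mm (π x) (π y)).injective (h.trans (map_one' _).symm)
    · intro h
      rw [h, map_one']
  · intro x q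
    rw [MonoidHom.mem_mker, MonoidHom.mem_mker, map_Tm]
    constructor
    · intro h
      exact (Tm (π x)).injective (h.trans (map_one' _).symm)
    · intro h
      rw [h, map_one']

theorem iv_mem {Q : Type} [MulOneClass Q] [IsALoop Q] [Finite Q] {N : Submonoid Q} {x : Q}
    (h : x ∈ N) : iv x ∈ N := by
  obtain ⟨y, hy⟩ := ldiv (⟨x, h⟩ : N) 1
  have : x * (y : Q) = 1 := by
    have := congrArg Subtype.val hy
    simpa using this
  rw [← iv_unique this]
  exact y.2

/-- division inside finite submonoids -/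
theorem mem_of_mul_mem_left {Q : Type} [MulOneClass Q] [IsALoop Q] [Finite Q] {N : Submonoid Q}
    {x y : Q} (hx : x ∈ N) (h : x * y ∈ N) : y ∈ N := by
  obtain ⟨z, hz⟩ := ldiv (⟨x, hx⟩ : N) ⟨x * y, h⟩
  have : x * (z : Q) = x * y := by
    have := congrArg Subtype.val hz
    simpa using this
  rw [← lc this]
  exact z.2

theorem mem_of_mul_mem_right {Q : Type} [MulOneClass Q] [IsALoop Q] [Finite Q] {N : Submonoid Q}
    {x y : Q} (hx : x ∈ N) (h : y * x ∈ N) : y ∈ N := by
  obtain ⟨z, hz⟩ := rdiv (⟨x, hx⟩ : N) ⟨y * x, h⟩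
  have : (z : Q) * x = y * x := by
    have := congrArg Subtype.val hz
    simpa using this
  rw [← rc this]
  exact z.2

/-- Existence of quotients by normal submonoids. -/
theorem exists_quot {Q : Type} [MulOneClass Q] [IsALoop Q] [Finite Q] {N : Submonoid Q}
    (hN : Nrm N) : ∃ (Γ : Type) (_ : MulOneClass Γ) (_ : IsALoop Γ) (_ : Finite Γ) (π : Q →* Γ),
      Function.Surjective π ∧ ∀ q, π q = 1 ↔ q ∈ N := by
  -- relation x = y * n
  have hright : ∀ x n m : Q, n ∈ N → m ∈ N → ∃ k ∈ N, (x * n) * m = x * k := by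
    intro x n m hn hm
    refine ⟨n * (Lm x n)⁻¹ m, mul_mem hn ((mem_stab.1 (inv_mem (hN.1 x n)) m).2 hm), ?_⟩
    rw [Lm_spec, MulAut.apply_inv_self]
  have hcomm : ∀ x n : Q, n ∈ N → ∃ k ∈ N, n * x = x * k := by
    intro x n hn
    exact ⟨(Tm x)⁻¹ n, (mem_stab.1 (inv_mem (hN.2.2 x)) n).2 hn, Tm_inv_spec x n⟩
  have hmul : ∀ x y n m : Q, n ∈ N → m ∈ N → ∃ k ∈ N, (x * n) * (y * m) = (x * y) * k := by
    intro x y n m hn hm
    -- (x*n)*(y*m) = ((x*n)*y) * L m
    rw [Lm_spec (x * n) y m]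
    have e1 : (x * n) * y = Mm x y (Tm x n) * (x * y) := by
      rw [Tm_spec x n, Mm_spec]
    rw [e1]
    obtain ⟨k, hk, hk'⟩ := hcomm (x * y) (Mm x y (Tm x n))
      ((mem_stab.1 (hN.2.1 x y) _).2 ((mem_stab.1 (hN.2.2 x) _).2 hn))
    rw [hk']
    exact hright _ _ _ hk ((mem_stab.1 (hN.1 _ _) _).2 hm)
  let c : Con Q :=
    { r := fun x y => ∃ n ∈ N, x = y * n
      iseqv := by
        refine ⟨?_, ?_, ?_⟩
        · intro x; exact ⟨1, one_mem _, (mul_one x).symm⟩
        · rintro x y ⟨n, hn, rfl⟩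
          refine ⟨Lm y n (iv n), (mem_stab.1 (hN.1 _ _) _).2 (iv_mem hn), ?_⟩
          rw [← Lm_spec, mul_iv, mul_one]
        · rintro x y z ⟨n, hn, rfl⟩ ⟨m, hm, rfl⟩
          exact hright z m n hm hn
      mul' := by
        rintro x x' y y' ⟨n, hn, rfl⟩ ⟨m, hm, rfl⟩
        exact hmul x' y' n m hn hm }
  let π : Q →* c.Quotient := c.mk'
  have hπ : Function.Surjective π := Con.mk'_surjective
  refine ⟨c.Quotient, inferInstance, IsALoop.of_surj π hπ, Finite.of_surjective π hπ, π, hπ, ?_⟩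
  intro q
  have h1 : π q = 1 ↔ c q 1 := by
    change ((q : c.Quotient) = ((1 : Q) : c.Quotient)) ↔ _
    exact Con.eq c
  rw [h1]
  change (∃ n ∈ N, q = 1 * n) ↔ q ∈ N
  constructor
  · rintro ⟨n, hn, rfl⟩
    rwa [one_mul]
  · intro h
    exact ⟨q, h, (one_mul q).symm⟩

/-- Cardinality of a surjective homomorphism's domain. -/
theorem card_surj {Q Γ : Type} [MulOneClass Q] [IsALoop Q] [Finite Q] [MulOneClass Γ] [IsALoop Γ]
    (π : Q →* Γ) (hπ : Function.Surjective π) :
    Nat.card (MonoidHom.mker π) * Nat.card Γ = Nat.card Q := by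
  rw [← Nat.card_prod]
  symm
  apply Nat.card_congr
  symm
  let f : (MonoidHom.mker π) × Γ → Q := fun p => p.1 * Function.surjInv hπ p.2
  refine Equiv.ofBijective f ⟨?_, ?_⟩
  · rintro ⟨⟨n, hn⟩, g⟩ ⟨⟨m, hm⟩, k⟩ h
    have h' : n * Function.surjInv hπ g = m * Function.surjInv hπ k := h
    rw [MonoidHom.mem_mker] at hn hm
    have h2 := congrArg π h'
    rw [map_mul, map_mul, hn, hm, one_mul, one_mul, Function.surjInv_eq hπ,
      Function.surjInv_eq hπ] at h2
    subst h2
    have h3 := rc h'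
    subst h3
    rfl
  · intro q
    obtain ⟨n, hn, hq⟩ := exists_ker_left π (x := q) (y := Function.surjInv hπ (π q))
      (by rw [Function.surjInv_eq hπ])
    exact ⟨(⟨n, by rwa [MonoidHom.mem_mker]⟩, π q), hq.symm⟩

/-- Cardinality of a submonoid mapping onto a submonoid. -/
theorem card_map {Q Γ : Type} [MulOneClass Q] [IsALoop Q] [Finite Q] [MulOneClass Γ] [IsALoop Γ]
    (π : Q →* Γ) (S : Submonoid Q) (T : Submonoid Γ) (h1 : ∀ s ∈ S, π s ∈ T)
    (h2 : ∀ t ∈ T, ∃ s ∈ S, π s = t) [Finite Γ] :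
    Nat.card (S ⊓ MonoidHom.mker π : Submonoid Q) * Nat.card T = Nat.card S := by
  let f : S →* T :=
    { toFun := fun s => ⟨π s, h1 s s.2⟩
      map_one' := by apply Subtype.ext; simp
      map_mul' := by intro a b; apply Subtype.ext; simp }
  have hf : Function.Surjective f := by
    rintro ⟨t, ht⟩
    obtain ⟨s, hs, hst⟩ := h2 t ht
    exact ⟨⟨s, hs⟩, Subtype.ext hst⟩
  rw [← card_surj f hf]
  congr 1
  apply Nat.card_congr
  refine ⟨fun q => ⟨⟨q, q.2.1⟩, ?_⟩, fun q => ⟨q.1, ?_⟩, ?_, ?_⟩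
  · rw [MonoidHom.mem_mker]
    apply Subtype.ext
    exact (MonoidHom.mem_mker).1 q.2.2
  · refine ⟨q.1.2, ?_⟩
    change (q.1 : Q) ∈ MonoidHom.mker π
    rw [MonoidHom.mem_mker]
    have := q.2
    rw [MonoidHom.mem_mker] at this
    exact congrArg Subtype.val this
  · intro q; rfl
  · intro q; rfl

theorem card_comap {Q Γ : Type} [MulOneClass Q] [IsALoop Q] [Finite Q] [MulOneClass Γ] [IsALoop Γ]
    [Finite Γ] (π : Q →* Γ) (hπ : Function.Surjective π) (T : Submonoid Γ) :
    Nat.card (MonoidHom.mker π) * Nat.card T = Nat.card (T.comap π) := by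
  rw [← card_map π (T.comap π) T (fun s hs => hs) ?_]
  · congr 2
    have : (T.comap π ⊓ MonoidHom.mker π : Submonoid Q) = MonoidHom.mker π := by
      apply inf_eq_right.2
      intro q hq
      rw [MonoidHom.mem_mker] at hq
      rw [Submonoid.mem_comap, hq]
      exact one_mem _
    rw [this]
  · intro t ht
    obtain ⟨s, rfl⟩ := hπ t
    exact ⟨s, ht, rfl⟩

end H13.ALoop
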