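import Mathlib
import Pool.Agent.Hhelper13.ALoop.Sub

set_option autoImplicit false

namespace H13.ALoop

/-- `H` is associative and commutative modulo `K`. -/
def AbN {Q : Type} [MulOneClass Q] (K H : Submonoid Q) : Prop :=
  ∀ x ∈ H, ∀ y ∈ H, ∀ z ∈ H,
    (∃ m ∈ K, (x * y) * z = (x * (y * z)) * m) ∧ (∃ m ∈ K, x * y = (y * x) * m)

/-- Solvability. -/
def Solv (Q : Type) [MulOneClass Q] : Prop :=
  ∀ H : Submonoid Q, H ≠ ⊥ → ∃ K : Submonoid Q, K < H ∧ AbN K H

theorem AbN.map {Q Γ : Type} [MulOneClass Q] [MulOneClass Γ] (π : Q →* Γ) {K H : Submonoid Q}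
    (h : AbN K H) : AbN (K.map π) (H.map π) := by
  rintro _ ⟨x, hx, rfl⟩ _ ⟨y, hy, rfl⟩ _ ⟨z, hz, rfl⟩
  obtain ⟨⟨m, hm, e1⟩, ⟨n, hn, e2⟩⟩ := h x hx y hy z hz
  refine ⟨⟨π m, ⟨m, hm, rfl⟩, ?_⟩, ⟨π n, ⟨n, hn, rfl⟩, ?_⟩⟩
  · simp only [← map_mul]; rw [e1]
  · simp only [← map_mul]; rw [e2]

theorem Solv.image {Q Γ : Type} [MulOneClass Q] [Finite Q] [MulOneClass Γ] (π : Q →* Γ)
    (hπ : Function.Surjective π) (h : Solv Q) : Solv Γ := by
  intro H hH
  -- minimal preimage
  have hne : ({S : Submonoid Q | S.map π = H}).Nonempty :=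
    ⟨H.comap π, Submonoid.map_comap_eq_of_surjective hπ H⟩
  obtain ⟨S, hS, hmin⟩ := (Set.toFinite {S : Submonoid Q | S.map π = H}).exists_minimal hne
  have hS' : S.map π = H := hS
  have hSb : S ≠ ⊥ := by
    rintro rfl
    exact hH (by rw [← hS', Submonoid.map_bot])
  obtain ⟨K, hK, hab⟩ := h S hSb
  refine ⟨K.map π, ?_, ?_⟩
  · refine lt_of_le_of_ne ?_ ?_
    · rw [← hS']; exact Submonoid.monotone_map hK.le
    · intro hEq
      exact absurd (hmin hEq hK.le) (not_le_of_gt hK)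
  · rw [← hS']; exact hab.map π

theorem Solv.sub {Q : Type} [MulOneClass Q] (h : Solv Q) (S : Submonoid Q) : Solv S := by
  intro H hH
  have hb : H.map S.subtype ≠ ⊥ := by
    intro hb
    apply hH
    rw [eq_bot_iff]
    intro x hx
    have : (x : Q) ∈ H.map S.subtype := ⟨x, hx, rfl⟩
    rw [hb, Submonoid.mem_bot] at this
    rw [Submonoid.mem_bot]
    exact Subtype.ext this
  obtain ⟨K, hK, hab⟩ := h _ hb
  refine ⟨K.comap S.subtype, ?_, ?_⟩
  · refine lt_of_le_of_ne ?_ ?_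
    · intro x hx
      obtain ⟨y, hy, hyx⟩ := hK.le hx
      have : y = x := Subtype.ext hyx
      rw [← this]
      exact hy
    · intro hEq
      apply absurd hK.le
      intro _
      apply not_le_of_gt hK
      rintro _ ⟨x, hx, rfl⟩
      have : x ∈ K.comap S.subtype := by rw [hEq]; exact hx
      exact this
  · intro x hx y hy z hz
    obtain ⟨⟨m, hm, e1⟩, ⟨n, hn, e2⟩⟩ := hab x ⟨x, hx, rfl⟩ y ⟨y, hy, rfl⟩ z ⟨z, hz, rfl⟩
    obtain ⟨m', -, hm'⟩ := hK.le hm
    obtain ⟨n', -, hn'⟩ := hK.le hn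
    have hm'' : (m' : Q) = m := hm'
    have hn'' : (n' : Q) = n := hn'
    refine ⟨⟨m', ?_, ?_⟩, ⟨n', ?_, ?_⟩⟩
    · change (m' : Q) ∈ K; rw [hm'']; exact hm
    · apply Subtype.ext
      simp only [Submonoid.coe_mul]
      rw [hm'']
      exact e1
    · change (n' : Q) ∈ K; rw [hn'']; exact hn
    · apply Subtype.ext
      simp only [Submonoid.coe_mul]
      rw [hn'']
      exact e2

/-- minimal normal submonoids -/
def MinNrm {Q : Type} [MulOneClass Q] [IsALoop Q] (V : Submonoid Q) : Prop :=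
  V ≠ ⊥ ∧ Nrm V ∧ ∀ W : Submonoid Q, W ≤ V → Nrm W → W = ⊥ ∨ W = V

theorem exists_minNrm (Q : Type) [MulOneClass Q] [IsALoop Q] [Finite Q] [Nontrivial Q] :
    ∃ V : Submonoid Q, MinNrm V := by
  have hne : ({S : Submonoid Q | S ≠ ⊥ ∧ Nrm S}).Nonempty := by
    refine ⟨⊤, ?_, ?_⟩
    · intro h
      obtain ⟨x, hx⟩ := exists_ne (1 : Q)
      have : x ∈ (⊤ : Submonoid Q) := Submonoid.mem_top x
      rw [h, Submonoid.mem_bot] at this
      exact hx this
    · exact Nrm.of_finite (fun _ _ _ _ => Submonoid.mem_top _)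
        (fun _ _ _ _ => Submonoid.mem_top _) (fun _ _ _ => Submonoid.mem_top _)
  obtain ⟨S, hS, hmin⟩ := (Set.toFinite {S : Submonoid Q | S ≠ ⊥ ∧ Nrm S}).exists_minimal hne
  refine ⟨S, hS.1, hS.2, ?_⟩
  intro W hW hWn
  by_cases hb : W = ⊥
  · exact Or.inl hb
  · right
    exact le_antisymm hW (hmin ⟨hb, hWn⟩ hW)

/-- A submonoid invariant under every automorphism stabilising `V` is normal if `V` is. -/
theorem Nrm.of_stab {Q : Type} [MulOneClass Q] [IsALoop Q] [Finite Q] {V W : Submonoid Q}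
    (hV : Nrm V) (h : ∀ φ ∈ stab V, ∀ w ∈ W, φ w ∈ W) : Nrm W :=
  Nrm.of_finite (fun _ _ n hn => h _ (hV.1 _ _) n hn) (fun _ _ n hn => h _ (hV.2.1 _ _) n hn)
    (fun _ n hn => h _ (hV.2.2 _) n hn)

/-- Minimal normal submonoids of solvable finite automorphic loops are elementary abelian. -/
theorem MinNrm.structure {Q : Type} [MulOneClass Q] [IsALoop Q] [Finite Q] {V : Submonoid Q}
    (hV : MinNrm V) (hs : Solv Q) :
    ∃ (p : ℕ) (_ : p.Prime) (V' : Type) (_ : CommGroup V') (_ : Finite V') (_ : Nontrivial V')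
      (j : V' →* Q), Function.Injective j ∧ (∀ q, q ∈ V ↔ ∃ v, j v = q) ∧ ∀ v : V', v ^ p = 1 := by
  obtain ⟨hb, hn, hmin⟩ := hV
  -- the derived subloop
  let D : Submonoid Q := V ⊓ sInf {K : Submonoid Q | AbN K V}
  have hD : Nrm D := by
    apply Nrm.of_stab hn
    intro φ hφ w hw
    rw [Submonoid.mem_inf, Submonoid.mem_sInf] at hw ⊢
    refine ⟨(hφ w).2 hw.1, ?_⟩
    intro K hK
    have hK' : AbN (K.comap φ.toMonoidHom) V := by
      intro x hx y hy z hz
      obtain ⟨⟨m, hm, e1⟩, ⟨n, hn, e2⟩⟩ :=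
        hK (φ x) ((hφ x).2 hx) (φ y) ((hφ y).2 hy) (φ z) ((hφ z).2 hz)
      refine ⟨⟨φ.symm m, ?_, ?_⟩, ⟨φ.symm n, ?_, ?_⟩⟩
      · change φ (φ.symm m) ∈ K
        rw [MulEquiv.apply_symm_apply]; exact hm
      · apply φ.injective
        simp only [map_mul, MulEquiv.apply_symm_apply]
        exact e1
      · change φ (φ.symm n) ∈ K
        rw [MulEquiv.apply_symm_apply]; exact hn
      · apply φ.injective
        simp only [map_mul, MulEquiv.apply_symm_apply]
        exact e2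
    exact hw.2 _ hK'
  have hDb : D = ⊥ := by
    rcases hmin D inf_le_left hD with h | h
    · exact h
    · exfalso
      obtain ⟨K, hK, hab⟩ := hs V hb
      have : V ≤ K := by
        rw [← h]
        exact inf_le_right.trans (sInf_le hab)
      exact absurd this (not_le_of_gt hK)
  -- an element in all K's and V is trivial
  have htriv : ∀ d ∈ V, (∀ K : Submonoid Q, AbN K V → d ∈ K) → d = 1 := by
    intro d hd hd'
    have : d ∈ D := by
      rw [Submonoid.mem_inf, Submonoid.mem_sInf]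
      exact ⟨hd, hd'⟩
    rw [hDb, Submonoid.mem_bot] at this
    exact this
  have hassoc : ∀ x ∈ V, ∀ y ∈ V, ∀ z ∈ V, (x * y) * z = x * (y * z) := by
    intro x hx y hy z hz
    obtain ⟨m, hm⟩ := ldiv (x * (y * z)) ((x * y) * z)
    have hmV : m ∈ V := mem_of_mul_mem_left (mul_mem hx (mul_mem hy hz))
      (by rw [hm]; exact mul_mem (mul_mem hx hy) hz)
    have hm1 : m = 1 := by
      apply htriv m hmV
      intro K hK
      obtain ⟨⟨m', hm', e1⟩, -⟩ := hK x hx y hy z hz
      rw [← hm] at e1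
      rw [lc e1]
      exact hm'
    rw [← hm, hm1, mul_one]
  have hcomm : ∀ x ∈ V, ∀ y ∈ V, x * y = y * x := by
    intro x hx y hy
    obtain ⟨m, hm⟩ := ldiv (y * x) (x * y)
    have hmV : m ∈ V := mem_of_mul_mem_left (mul_mem hy hx)
      (by rw [hm]; exact mul_mem hx hy)
    have hm1 : m = 1 := by
      apply htriv m hmV
      intro K hK
      obtain ⟨-, ⟨m', hm', e1⟩⟩ := hK x hx y hy 1 (one_mem _)
      rw [← hm] at e1
      rw [lc e1]
      exact hm'
    rw [← hm, hm1, mul_one]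
  -- commutative group structure
  let inst : CommGroup V :=
    { mul := fun a b => a * b
      mul_assoc := fun a b c => Subtype.ext (hassoc a a.2 b b.2 c c.2)
      one := 1
      one_mul := fun a => Subtype.ext (one_mul (a : Q))
      mul_one := fun a => Subtype.ext (mul_one (a : Q))
      inv := fun a => ⟨iv (a : Q), iv_mem a.2⟩
      inv_mul_cancel := fun a => Subtype.ext (iv_mul (a : Q))
      mul_comm := fun a b => Subtype.ext (hcomm a a.2 b b.2) }
  have hexist : ∃ (V' : Type) (_ : CommGroup V') (_ : Finite V') (j : V' →* Q),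
      Function.Injective j ∧ (∀ q, q ∈ V ↔ ∃ v, j v = q) := by
    refine ⟨V, inst, inferInstance,
      { toFun := fun v => (v : Q), map_one' := rfl, map_mul' := fun _ _ => rfl }, ?_, ?_⟩
    · intro a b h
      exact Subtype.ext h
    · intro q
      constructor
      · intro h; exact ⟨⟨q, h⟩, rfl⟩
      · rintro ⟨v, rfl⟩; exact v.2
  obtain ⟨V', iV', fV', j, hj, hjV⟩ := hexist
  have hnt : Nontrivial V' := by
    by_contra hcon
    rw [not_nontrivial_iff_subsingleton] at hcon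
    apply hb
    rw [eq_bot_iff]
    intro q hq
    obtain ⟨v, rfl⟩ := (hjV q).1 hq
    rw [Submonoid.mem_bot, Subsingleton.elim v 1, map_one]
  have hcard : 1 < Nat.card V' := Finite.one_lt_card
  obtain ⟨p, hp, hpd⟩ := Nat.exists_prime_and_dvd (ne_of_gt hcard)
  have : Fact p.Prime := ⟨hp⟩
  obtain ⟨v₀, hv₀⟩ := exists_prime_orderOf_dvd_card' p hpd
  -- elements of order dividing p
  let W : Submonoid Q :=
    { carrier := {q | ∃ v : V', v ^ p = 1 ∧ j v = q}
      one_mem' := ⟨1, one_pow p, map_one j⟩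
      mul_mem' := by
        rintro _ _ ⟨a, ha, rfl⟩ ⟨b, hb, rfl⟩
        exact ⟨a * b, by rw [mul_pow, ha, hb, one_mul], map_mul j a b⟩ }
  have hWV : W ≤ V := by
    rintro _ ⟨a, ha, rfl⟩
    exact (hjV _).2 ⟨a, rfl⟩
  have hWn : Nrm W := by
    apply Nrm.of_stab hn
    rintro φ hφ _ ⟨a, ha, rfl⟩
    have hφj : ∀ v, ∃ v', j v' = φ (j v) := by
      intro v
      exact (hjV _).1 ((hφ _).2 ((hjV _).2 ⟨v, rfl⟩))
    choose f hf using hφj
    let f' : V' →* V' :=
      { toFun := f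
        map_one' := by
          apply hj
          rw [hf, map_one, map_one]
        map_mul' := by
          intro a b
          apply hj
          rw [hf, map_mul, map_mul, map_mul, hf, hf] }
    refine ⟨f' a, ?_, hf a⟩
    rw [← map_pow, ha, map_one]
  have hWeq : W = V := by
    rcases hmin W hWV hWn with h | h
    · exfalso
      have : j v₀ ∈ W := ⟨v₀, by rw [← hv₀]; exact pow_orderOf_eq_one v₀, rfl⟩
      rw [h, Submonoid.mem_bot] at this
      have h1 : v₀ = 1 := hj (by rw [this, map_one])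
      rw [h1, orderOf_one] at hv₀
      exact hp.one_lt.ne hv₀
    · exact h
  refine ⟨p, hp, V', iV', fV', hnt, j, hj, hjV, ?_⟩
  intro v
  have : j v ∈ W := by rw [hWeq]; exact (hjV _).2 ⟨v, rfl⟩
  obtain ⟨v', hv', e⟩ := this
  rw [← hj e]
  exact hv'

end H13.ALoop
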