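import Mathlib
import Pool.Agent.Hhelper13.ALoop.Solv
import Pool.Agent.Hhelper13.ALoop.FixedPt

set_option autoImplicit false
set_option linter.unusedSectionVars false

namespace H13.ALoop

section

variable {Q Δ V' : Type} [MulOneClass Q] [IsALoop Q] [MulOneClass Δ] [IsALoop Δ]
  [CommGroup V'] (ϖ : Q →* Δ) (j : V' →* Q)

/-- left translation as a permutation -/
noncomputable def Lp (x : Q) : Equiv.Perm Q := Equiv.ofBijective (fun z => x * z) (IsALoop.left_bij x)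
/-- right translation as a permutation -/
noncomputable def Rp (x : Q) : Equiv.Perm Q := Equiv.ofBijective (fun z => z * x) (IsALoop.right_bij x)

theorem Lp_apply (x z : Q) : Lp x z = x * z := rfl
theorem Rp_apply (x z : Q) : Rp x z = z * x := rfl

/-- elements `L_a α` of the holomorph preserving every fibre of `ϖ` -/
def Dgrp : Subgroup (Equiv.Perm Q) where
  carrier := {g | (∃ a : Q, ∃ α : MulAut Q, ∀ z, g z = a * α z) ∧ ∀ z, ϖ (g z) = ϖ z}
  one_mem' := ⟨⟨1, 1, fun z => by simp⟩, fun z => rfl⟩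
  mul_mem' := by
    rintro g h ⟨⟨a, α, hg⟩, hg'⟩ ⟨⟨b, β, hh⟩, hh'⟩
    refine ⟨⟨a * α b, Lm a (α b) * α * β, ?_⟩, ?_⟩
    · intro z
      rw [Equiv.Perm.mul_apply, hh, hg, map_mul, Lm_spec]
      rfl
    · intro z
      rw [Equiv.Perm.mul_apply, hg', hh']
  inv_mem' := by
    rintro g ⟨⟨a, α, hg⟩, hg'⟩
    refine ⟨⟨α⁻¹ (iv a), α⁻¹ * (Lm a (iv a))⁻¹, ?_⟩, ?_⟩
    · intro z
      apply g.injective
      rw [← Equiv.Perm.mul_apply, mul_inv_cancel, Equiv.Perm.one_apply, hg, map_mul,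
        MulAut.apply_inv_self, MulAut.mul_apply, MulAut.apply_inv_self, Lm_spec, mul_iv, one_mul,
        MulAut.apply_inv_self]
    · intro z
      rw [← hg' (g⁻¹ z), ← Equiv.Perm.mul_apply, mul_inv_cancel, Equiv.Perm.one_apply]

theorem mem_Dgrp {g : Equiv.Perm Q} : g ∈ Dgrp ϖ ↔
    (∃ a : Q, ∃ α : MulAut Q, ∀ z, g z = a * α z) ∧ ∀ z, ϖ (g z) = ϖ z := Iff.rfl

variable (hj : Function.Injective j) (hker : ∀ q, ϖ q = 1 ↔ ∃ v, j v = q)

include hj hker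

/-- restriction of an element of `Dgrp` to `V`. -/
theorem Dgrp_restrict {g : Equiv.Perm Q} (hg : g ∈ Dgrp ϖ) :
    ∃ (a : V') (α : V' →* V'), ∀ v, g (j v) = j (a * α v) := by
  obtain ⟨⟨a, α, hg1⟩, hg2⟩ := hg
  have h1 : ∃ a', j a' = a := by
    rw [← hker]
    have := hg2 1
    rw [hg1, map_one', mul_one, map_one] at this
    exact this
  obtain ⟨a', rfl⟩ := h1
  have h2 : ∀ v, ∃ v', j v' = α (j v) := by
    intro v
    rw [← hker]
    have := hg2 (j v)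
    rw [hg1, map_mul, (hker (j a')).2 ⟨a', rfl⟩, one_mul, (hker (j v)).2 ⟨v, rfl⟩] at this
    exact this
  choose f hf using h2
  refine ⟨a', { toFun := f, map_one' := ?_, map_mul' := ?_ }, ?_⟩
  · apply hj
    rw [hf, map_one, ALoop.map_one']
  · intro u v
    apply hj
    rw [hf, map_mul, map_mul, map_mul, hf, hf]
  · intro v
    rw [hg1, map_mul]
    change _ = j a' * j (f v)
    rw [hf]

/-- the elements of `Dgrp` acting as translations on `V` -/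
def Tgrp : Subgroup (Dgrp ϖ) where
  carrier := {g | ∃ a : V', ∀ v, (g : Equiv.Perm Q) (j v) = j (a * v)}
  one_mem' := ⟨1, fun v => by simp⟩
  mul_mem' := by
    rintro g h ⟨a, ha⟩ ⟨b, hb⟩
    refine ⟨a * b, ?_⟩
    intro v
    rw [Subgroup.coe_mul, Equiv.Perm.mul_apply, hb, ha, mul_assoc]
  inv_mem' := by
    rintro g ⟨a, ha⟩
    refine ⟨a⁻¹, ?_⟩
    intro v
    apply (g : Equiv.Perm Q).injective
    rw [ha, Subgroup.coe_inv, ← Equiv.Perm.mul_apply, mul_inv_cancel, Equiv.Perm.one_apply,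
      mul_inv_cancel_left]

theorem mem_Tgrp {g : Dgrp ϖ} : g ∈ Tgrp ϖ j ↔
    ∃ a : V', ∀ v, (g : Equiv.Perm Q) (j v) = j (a * v) := Iff.rfl

theorem Tgrp_normal : (Tgrp ϖ j).Normal := by
  constructor
  rintro g ⟨a, ha⟩ h
  obtain ⟨b, β, hβ⟩ := Dgrp_restrict ϖ j hj hker h.2
  obtain ⟨c, γ, hγ⟩ := Dgrp_restrict ϖ j hj hker (h⁻¹).2
  refine ⟨β a, ?_⟩
  intro v
  rw [Subgroup.coe_mul, Subgroup.coe_mul, Equiv.Perm.mul_apply, Equiv.Perm.mul_apply, hγ, ha, hβ]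
  have h1 : j (b * β (c * γ v)) = j v := by
    rw [← hβ, ← hγ, Subgroup.coe_inv, ← Equiv.Perm.mul_apply, mul_inv_cancel,
      Equiv.Perm.one_apply]
  have h2 := hj h1
  rw [map_mul β a, mul_left_comm b (β a), h2]

variable [Finite Q] [Finite V']

theorem card_fiber (z : Q) : Nat.card ({z' : Q | ϖ z' = ϖ z} : Set Q) = Nat.card V' := by
  symm
  apply Nat.card_congr
  refine Equiv.ofBijective (fun v => ⟨z * j v, ?_⟩) ⟨?_, ?_⟩
  · change ϖ (z * j v) = ϖ z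
    rw [map_mul, (hker _).2 ⟨v, rfl⟩, mul_one]
  · intro u v h
    exact hj (lc (congrArg Subtype.val h))
  · rintro ⟨z', hz'⟩
    obtain ⟨n, hn, rfl⟩ := exists_ker_right ϖ (x := z') (y := z) hz'
    obtain ⟨v, rfl⟩ := (hker n).1 hn
    exact ⟨v, rfl⟩

theorem Tgrp_isPGroup {q : ℕ} (hq : q.Prime) (hexp : ∀ v : V', v ^ q = 1) :
    IsPGroup q (Tgrp ϖ j) := by
  obtain ⟨n, hn⟩ := card_eq_pow_of_exponent hq hexp
  apply isPGroup_of_prime_orders hq
  intro r hr hne g hg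
  have hW := isPGroup_zpowers hg
  let f : Subgroup.zpowers g →* Equiv.Perm Q :=
    (Dgrp ϖ).subtype.comp ((Tgrp ϖ j).subtype.comp (Subgroup.subtype _))
  have hf : ∀ (k : Subgroup.zpowers g) (x : Q), ϖ (f k x) = ϖ x := by
    intro k x
    exact ((k : Tgrp ϖ j) : Dgrp ϖ).2.2 x
  have hndvd : ¬ r ∣ Nat.card V' := by
    rw [hn]
    intro h
    exact hne ((Nat.prime_dvd_prime_iff_eq hr hq).1 (hr.dvd_of_dvd_pow h))
  have hfix : ∀ z : Q, ∃ z', ϖ z' = ϖ z ∧ ((g : Dgrp ϖ) : Equiv.Perm Q) z' = z' := by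
    intro z
    obtain ⟨z', hz', hz''⟩ := fixed_pt_of_not_dvd f hr hW {z' : Q | ϖ z' = ϖ z}
      (by intro k x hx; change ϖ (f k x) = ϖ z; rw [hf]; exact hx)
      (by rw [card_fiber ϖ j hj hker]; exact hndvd)
    exact ⟨z', hz', hz'' ⟨g, Subgroup.mem_zpowers g⟩⟩
  obtain ⟨a, ha⟩ := g.2
  have ha1 : a = 1 := by
    obtain ⟨z', hz', hz''⟩ := hfix 1
    rw [map_one] at hz'
    obtain ⟨v, rfl⟩ := (hker z').1 hz'
    rw [ha] at hz''
    have := hj hz''
    exact mul_eq_right.1 this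
  subst ha1
  obtain ⟨⟨b, α, hα⟩, -⟩ := (g : Dgrp ϖ).2
  have hb : b = 1 := by
    have h1 := ha 1
    rw [hα, map_one, ALoop.map_one', mul_one, mul_one, map_one] at h1
    exact h1
  subst hb
  have hid : ∀ z, ((g : Dgrp ϖ) : Equiv.Perm Q) z = z := by
    intro z
    obtain ⟨z', hz', hz''⟩ := hfix z
    obtain ⟨n, hn, rfl⟩ := exists_ker_right ϖ (x := z) (y := z') hz'.symm
    obtain ⟨v, rfl⟩ := (hker n).1 hn
    have h1 := ha v
    rw [hα, one_mul] at hz'' h1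
    rw [hα, one_mul, map_mul, hz'', h1, one_mul]
  have hg1 : g = 1 := by
    apply Subtype.ext
    apply Subtype.ext
    apply Equiv.ext
    intro z
    exact hid z
  rw [hg1, orderOf_one] at hg
  exact hr.one_lt.ne hg

/-- conjugation by `L_x` on `Dgrp`. -/
theorem conj_mem (x : Q) {g : Equiv.Perm Q} (hg : g ∈ Dgrp ϖ) :
    Lp x * g * (Lp x)⁻¹ ∈ Dgrp ϖ := by
  obtain ⟨⟨a, α, hα⟩, hg2⟩ := hg
  have hLinv : ∀ z : Q, x * (Lp x)⁻¹ z = z := by
    intro z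
    rw [← Lp_apply, ← Equiv.Perm.mul_apply, mul_inv_cancel, Equiv.Perm.one_apply]
  have hLinv' : ∀ z : Q, (Lp x)⁻¹ z = iv x * (Lm x (iv x))⁻¹ z := by
    intro z
    apply lc (a := x)
    rw [hLinv, Lm_spec, mul_iv, one_mul, MulAut.apply_inv_self]
  refine ⟨⟨x * (a * α (iv x)), Lm x (a * α (iv x)) * Lm a (α (iv x)) * α * (Lm x (iv x))⁻¹, ?_⟩, ?_⟩
  · intro z
    rw [Equiv.Perm.mul_apply, Equiv.Perm.mul_apply, Lp_apply, hα, hLinv', map_mul, Lm_spec a, Lm_spec x]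
    rfl
  · intro z
    rw [Equiv.Perm.mul_apply, Equiv.Perm.mul_apply, Lp_apply, map_mul, hg2, ← map_mul, hLinv]

/-- conjugation homomorphism -/
noncomputable def conjHom (x : Q) : Dgrp ϖ →* Dgrp ϖ where
  toFun g := ⟨Lp x * g * (Lp x)⁻¹, conj_mem ϖ j hj hker x g.2⟩
  map_one' := by
    apply Subtype.ext
    simp
  map_mul' g h := by
    apply Subtype.ext
    simp only [Subgroup.coe_mul]
    group

theorem conjHom_inj (x : Q) : Function.Injective (conjHom ϖ j hj hker x) := by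
  intro g h hgh
  apply Subtype.ext
  have h1 : Lp x * (g : Equiv.Perm Q) * (Lp x)⁻¹ = Lp x * h * (Lp x)⁻¹ := congrArg Subtype.val hgh
  exact mul_left_cancel (mul_right_cancel h1)

theorem exists_conj (x : Q) {g : Equiv.Perm Q} (hg : g ∈ Dgrp ϖ) :
    ∃ h : Dgrp ϖ, conjHom ϖ j hj hker x h = ⟨g, hg⟩ :=
  (Finite.injective_iff_surjective.1 (conjHom_inj ϖ j hj hker x)) ⟨g, hg⟩

theorem Lp_mem (v : V') : Lp (j v) ∈ Dgrp ϖ := by
  refine ⟨⟨j v, 1, fun z => rfl⟩, ?_⟩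
  intro z
  rw [Lp_apply, map_mul, (hker _).2 ⟨v, rfl⟩, one_mul]

theorem Rp_mem (v : V') : Rp (j v) ∈ Dgrp ϖ := by
  refine ⟨⟨j v, (Tm (j v))⁻¹, ?_⟩, ?_⟩
  · intro z
    rw [Rp_apply, Tm_inv_spec]
  · intro z
    rw [Rp_apply, map_mul, (hker _).2 ⟨v, rfl⟩, mul_one]

/-- The key fixed point. -/
theorem exists_fixed {q : ℕ} (hq : q.Prime) (hexp : ∀ v : V', v ^ q = 1) [Nontrivial V'] :
    ∃ w : V', w ≠ 1 ∧ ∀ (x : Q) (v : V'), (x * j w) * j v = x * (j w * j v) := by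
  have : Fact q.Prime := ⟨hq⟩
  obtain ⟨P⟩ : Nonempty (Sylow q (Dgrp ϖ)) := inferInstance
  have hTn := Tgrp_normal ϖ j hj hker
  have hTp := Tgrp_isPGroup ϖ j hj hker hq hexp
  have hTP : Tgrp ϖ j ≤ P := hTp.le_sylow_of_normal P
  have hTxP : ∀ x : Q, (Tgrp ϖ j).comap (conjHom ϖ j hj hker x) ≤ P := by
    intro x
    have h1 : ((Tgrp ϖ j).comap (conjHom ϖ j hj hker x)).Normal := inferInstance
    have h2 : IsPGroup q ((Tgrp ϖ j).comap (conjHom ϖ j hj hker x)) :=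
      hTp.comap_of_injective _ (conjHom_inj ϖ j hj hker x)
    exact h2.le_sylow_of_normal P
  -- the stabiliser of 1 in P
  let W : Subgroup (Dgrp ϖ) :=
    { carrier := {g | g ∈ (P : Subgroup (Dgrp ϖ)) ∧ (g : Equiv.Perm Q) 1 = 1}
      one_mem' := ⟨one_mem _, rfl⟩
      mul_mem' := by
        rintro a b ⟨ha, ha'⟩ ⟨hb, hb'⟩
        refine ⟨mul_mem ha hb, ?_⟩
        rw [Subgroup.coe_mul, Equiv.Perm.mul_apply, hb', ha']
      inv_mem' := by
        rintro a ⟨ha, ha'⟩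
        refine ⟨inv_mem ha, ?_⟩
        apply (a : Equiv.Perm Q).injective
        rw [ha', Subgroup.coe_inv, ← Equiv.Perm.mul_apply, mul_inv_cancel, Equiv.Perm.one_apply] }
  have hWP : W ≤ P := fun g hg => hg.1
  have hW : IsPGroup q W := P.isPGroup'.to_le hWP
  let f : W →* Equiv.Perm Q := (Dgrp ϖ).subtype.comp W.subtype
  have hdvd : q ∣ Nat.card V' := by
    obtain ⟨n, hn⟩ := card_eq_pow_of_exponent hq hexp
    rw [hn]
    refine dvd_pow_self q ?_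
    rintro rfl
    have : 1 < Nat.card V' := Finite.one_lt_card
    rw [hn, pow_zero] at this
    exact lt_irrefl _ this
  obtain ⟨w', hw', hne, hfix⟩ := fixed_pt_of_dvd f hq hW {z' : Q | ϖ z' = ϖ 1}
    (by
      intro k x hx
      change ϖ (f k x) = ϖ 1
      have : ϖ (f k x) = ϖ x := (k : Dgrp ϖ).2.2 x
      rw [this]; exact hx)
    (by rw [card_fiber ϖ j hj hker]; exact hdvd) (a := 1) rfl (fun g => g.2.2)
  have hw'' : ϖ w' = 1 := by
    have : ϖ w' = ϖ 1 := hw'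
    rw [this, map_one]
  obtain ⟨w, rfl⟩ := (hker w').1 hw''
  refine ⟨w, ?_, ?_⟩
  · rintro rfl
    exact hne (map_one j)
  · intro x v
    obtain ⟨h, hh⟩ := exists_conj ϖ j hj hker x (Rp_mem ϖ j hj hker v)
    have hhP : h ∈ (P : Subgroup (Dgrp ϖ)) := by
      apply hTxP x
      rw [Subgroup.mem_comap, hh]
      refine ⟨v, ?_⟩
      intro u
      change j u * j v = _
      rw [← map_mul, mul_comm]
    have hLP : (⟨Lp (j v), Lp_mem ϖ j hj hker v⟩ : Dgrp ϖ) ∈ (P : Subgroup (Dgrp ϖ)) := by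
      apply hTP
      refine ⟨v, ?_⟩
      intro u
      change j v * j u = _
      rw [← map_mul]
    have hh' : ∀ z, x * (h : Equiv.Perm Q) z = (x * z) * j v := by
      intro z
      have h1 : Lp x * (h : Equiv.Perm Q) * (Lp x)⁻¹ = Rp (j v) := congrArg Subtype.val hh
      have h2 : Lp x * (h : Equiv.Perm Q) = Rp (j v) * Lp x := by
        rw [← h1]; group
      exact congrArg (fun g : Equiv.Perm Q => g z) h2
    let k : Dgrp ϖ := (⟨Lp (j v), Lp_mem ϖ j hj hker v⟩ : Dgrp ϖ)⁻¹ * h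
    have hk : ∀ z, j v * (k : Equiv.Perm Q) z = (h : Equiv.Perm Q) z := by
      intro z
      change (Lp (j v)) ((Lp (j v))⁻¹ ((h : Equiv.Perm Q) z)) = _
      rw [← Equiv.Perm.mul_apply, mul_inv_cancel, Equiv.Perm.one_apply]
    have hk1 : (k : Equiv.Perm Q) 1 = 1 := by
      apply lc (a := j v)
      apply lc (a := x)
      rw [hk, hh', mul_one, mul_one]
    have hkW : k ∈ W := ⟨mul_mem (inv_mem hLP) hhP, hk1⟩
    have hkw : (k : Equiv.Perm Q) (j w) = j w := hfix ⟨k, hkW⟩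
    rw [← hh', ← hk, hkw, ← map_mul, ← map_mul, mul_comm]

end

/-- **Associativity lemma**: a minimal normal elementary abelian subloop `V` of a finite
automorphic loop satisfies `(x v) w = x (v w)`. -/
theorem assoc_lemma {Q V' : Type} [MulOneClass Q] [IsALoop Q] [Finite Q] [CommGroup V']
    [Finite V'] [Nontrivial V'] {V : Submonoid Q} (hV : MinNrm V) (j : V' →* Q)
    (hj : Function.Injective j) (hjV : ∀ q, q ∈ V ↔ ∃ v, j v = q) {q : ℕ} (hq : q.Prime)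
    (hexp : ∀ v : V', v ^ q = 1) (x : Q) (v w : V') : (x * j v) * j w = x * j (v * w) := by
  obtain ⟨Δ, iΔ, hΔ, fΔ, ϖ, hϖ, hker⟩ := exists_quot hV.2.1
  have hker' : ∀ q, ϖ q = 1 ↔ ∃ v, j v = q := fun q => (hker q).trans (hjV q)
  obtain ⟨w₀, hw₀, hfix⟩ := exists_fixed ϖ j hj hker' hq hexp
  let V₀ : Submonoid Q :=
    { carrier := {z | z ∈ V ∧ ∀ (x : Q) (v : V'), Hm x (j v) z = z}
      one_mem' := ⟨one_mem _, fun x v => map_one' _⟩
      mul_mem' := by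
        rintro a b ⟨ha, ha'⟩ ⟨hb, hb'⟩
        exact ⟨mul_mem ha hb, fun x v => by rw [map_mul, ha', hb']⟩ }
  have hchar : ∀ z, z ∈ V₀ ↔ z ∈ V ∧ ∀ (x : Q) (v : V'), (x * z) * j v = x * (z * j v) := by
    intro z
    change (z ∈ V ∧ ∀ (x : Q) (v : V'), Hm x (j v) z = z) ↔ _
    refine and_congr_right fun _ => forall_congr' fun x => forall_congr' fun v => ?_
    rw [Hm_spec, lcI, rcI]
  have hV₀ : Nrm V₀ := by
    apply Nrm.of_stab hV.2.1
    intro φ hφ z hz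
    rw [hchar] at hz ⊢
    refine ⟨(hφ z).2 hz.1, ?_⟩
    intro x v
    obtain ⟨v', hv'⟩ : ∃ v', j v' = φ⁻¹ (j v) := by
      rw [← hjV]
      exact (inv_mem hφ (j v)).2 ((hjV _).2 ⟨v, rfl⟩)
    have h1 := congrArg φ (hz.2 (φ⁻¹ x) v')
    rw [hv'] at h1
    simp only [map_mul, MulAut.apply_inv_self] at h1
    exact h1
  have hle : V₀ ≤ V := fun z hz => hz.1
  rcases hV.2.2 V₀ hle hV₀ with h | h
  · exfalso
    have h1 : j w₀ ∈ V₀ := by
      rw [hchar]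
      exact ⟨(hjV _).2 ⟨w₀, rfl⟩, hfix⟩
    rw [h, Submonoid.mem_bot] at h1
    exact hw₀ (hj (by rw [h1, map_one]))
  · have h1 : j v ∈ V₀ := by rw [h]; exact (hjV _).2 ⟨v, rfl⟩
    rw [hchar] at h1
    rw [h1.2, map_mul]

end H13.ALoop
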