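import Mathlib
import Pool.Agent.Hhelper13.ALoop.Solv

set_option autoImplicit false
set_option linter.unusedSectionVars false

namespace H13.ALoop

section units
variable {Q : Type} [MulOneClass Q] [IsALoop Q]

theorem Lm_one_left (y z : Q) : Lm 1 y z = z := by
  apply lc (a := 1 * y); rw [← Lm_spec, one_mul, one_mul]
theorem Lm_one_right (x z : Q) : Lm x 1 z = z := by
  apply lc (a := x * 1); rw [← Lm_spec, one_mul, mul_one]
theorem Mm_one_left (x z : Q) : Mm 1 x z = z := by
  apply rc (a := 1 * x); rw [← Mm_spec, one_mul, mul_one]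
theorem Mm_one_right (y z : Q) : Mm y 1 z = z := by
  apply rc (a := y * 1); rw [← Mm_spec, mul_one, mul_one]
theorem Tm_one (z : Q) : Tm 1 z = z := by
  apply rc (a := 1); rw [← Tm_spec, one_mul, mul_one]
theorem Hm_one_right (x z : Q) : Hm x 1 z = z := by
  apply rc (a := 1); apply lc (a := x); rw [← Hm_spec, mul_one, mul_one]
end units

/-- Extension data. -/
structure Ext (A Q Γ : Type) [AddCommGroup A] [MulOneClass Q] [MulOneClass Γ] where
  ι : A → Q
  π : Q →* Γ
  ι_zero : ι 0 = 1
  ι_inj : Function.Injective ι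
  π_surj : Function.Surjective π
  ker : ∀ q, π q = 1 ↔ ∃ a, ι a = q
  triv : ∀ φ : MulAut Q, (∀ q, π (φ q) = π q) → ∀ a, φ (ι a) = ι a
  F : Γ → Γ → AddMonoid.End A
  G : Γ → Γ → AddMonoid.End A
  τ : Γ → AddMonoid.End A
  assocR : ∀ x a b, (x * ι a) * ι b = x * ι (a + b)
  assocL : ∀ x a b, ι a * (x * ι b) = (ι a * x) * ι b
  mulF : ∀ x y a, (x * ι a) * y = (x * y) * ι (F (π x) (π y) a)
  mulG : ∀ x y a, x * (y * ι a) = (x * y) * ι (G (π x) (π y) a)
  commτ : ∀ x a, ι a * x = x * ι (τ (π x) a)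

theorem exists_ext {A Q Γ : Type} [AddCommGroup A] [MulOneClass Q] [MulOneClass Γ] [IsALoop Q]
    [IsALoop Γ] (ι : A → Q) (π : Q →* Γ) (ι_zero : ι 0 = 1)
    (ι_add : ∀ a b, ι (a + b) = ι a * ι b) (ι_inj : Function.Injective ι)
    (π_surj : Function.Surjective π) (ker : ∀ q, π q = 1 ↔ ∃ a, ι a = q)
    (triv : ∀ φ : MulAut Q, (∀ q, π (φ q) = π q) → ∀ a, φ (ι a) = ι a) :
    ∃ E : Ext A Q Γ, E.ι = ι ∧ E.π = π := by
  have hπι : ∀ a, π (ι a) = 1 := fun a => (ker _).2 ⟨a, rfl⟩
  have assocR : ∀ x a b, (x * ι a) * ι b = x * ι (a + b) := by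
    intro x a b
    rw [ι_add, Lm_spec, triv (Lm x (ι a)) (fun q => by rw [map_Lm, hπι, Lm_one_right])]
  have assocL : ∀ x a b, ι a * (x * ι b) = (ι a * x) * ι b := by
    intro x a b
    rw [Lm_spec, triv (Lm (ι a) x) (fun q => by rw [map_Lm, hπι, Lm_one_left])]
  -- operators
  have hop : ∀ φ : MulAut Q, (∀ q, π q = 1 → π (φ q) = 1) → ∃ g : AddMonoid.End A,
      ∀ a, ι (g a) = φ (ι a) := by
    intro φ hφ
    have h : ∀ a, ∃ b, ι b = φ (ι a) := fun a => (ker _).1 (hφ _ (hπι a))
    choose g hg using h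
    exact ⟨AddMonoidHom.mk' g (fun a b => ι_inj (by rw [hg, ι_add, ι_add, map_mul, hg, hg])), hg⟩
  have hg' : ∀ x y : Q, ∃ g : AddMonoid.End A, ∀ a, ι (g a) = Lm x y (ι a) := by
    intro x y
    apply hop
    intro q hq
    rw [map_Lm, hq, map_one']
  have hm' : ∀ x y : Q, ∃ g : AddMonoid.End A, ∀ a, ι (g a) = Mm x y (ι a) := by
    intro x y
    apply hop
    intro q hq
    rw [map_Mm, hq, map_one']
  have htt' : ∀ x : Q, ∃ g : AddMonoid.End A, ∀ a, ι (g a) = Tm x (ι a) := by
    intro x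
    apply hop
    intro q hq
    rw [map_Tm, hq, map_one']
  have ht' : ∀ x : Q, ∃ g : AddMonoid.End A, ∀ a, ι (g a) = (Tm x)⁻¹ (ι a) := by
    intro x
    apply hop
    intro q hq
    apply (Tm (π x)).injective
    rw [← map_Tm, MulAut.apply_inv_self, hq, map_one']
  choose g hg using hg'
  choose m hm using hm'
  choose tt htt using htt'
  choose t ht using ht'
  have gspec : ∀ x y a, x * (y * ι a) = (x * y) * ι (g x y a) := by
    intro x y a
    rw [hg, Lm_spec]
  have tspec : ∀ x a, ι a * x = x * ι (t x a) := by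
    intro x a
    rw [ht, Tm_inv_spec]
  let f : Q → Q → AddMonoid.End A := fun x y => t (x * y) * (m x y * tt x)
  have fspec : ∀ x y a, (x * ι a) * y = (x * y) * ι (f x y a) := by
    intro x y a
    change _ = _ * ι (t (x * y) (m x y (tt x a)))
    rw [Tm_spec x (ι a), ← htt, Mm_spec, ← hm, tspec]
  -- coset independence
  have g_left : ∀ x y c, g (ι c * x) y = g x y := by
    intro x y c
    -- (ι c * x) * z = ι c * (x * c' z)
    have hc : ∀ z, (ι c * x) * z = ι c * (x * (Lm (ι c) x)⁻¹ z) := by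
      intro z
      rw [Lm_spec, MulAut.apply_inv_self]
    have hfix : ∀ b, (Lm (ι c) x)⁻¹ (ι b) = ι b := by
      intro b
      apply triv
      intro q
      apply (Lm (π (ι c)) (π x)).injective
      rw [← map_Lm, MulAut.apply_inv_self, hπι, Lm_one_left]
    obtain ⟨d, hd⟩ : ∃ d, (Lm (ι c) x)⁻¹ y = y * ι d := by
      have : π ((Lm (ι c) x)⁻¹ y) = π y := by
        apply (Lm (π (ι c)) (π x)).injective
        rw [← map_Lm, MulAut.apply_inv_self, hπι, Lm_one_left]
      obtain ⟨n, hn, hn'⟩ := exists_ker_right π this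
      obtain ⟨d, rfl⟩ := (ker n).1 hn
      exact ⟨d, hn'⟩
    have key : ∀ b, (ι c * x) * (y * ι b) = (ι c * (x * y)) * ι (g x y (d + b)) := by
      intro b
      rw [hc, map_mul, hd, hfix, assocR, gspec, assocL]
    ext b
    apply ι_inj
    apply lc (a := (ι c * x) * y)
    rw [← gspec, key b]
    have key0 := key 0
    rw [ι_zero, mul_one, add_zero] at key0
    rw [key0, assocR, map_add]
  have g_right : ∀ x y c, g x (y * ι c) = g x y := by
    intro x y c
    ext b
    apply ι_inj
    apply lc (a := x * (y * ι c))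
    rw [← gspec, assocR, gspec, map_add, gspec, assocR]
  have lift : ∀ {x x' : Q}, π x = π x' → ∃ c, x = x' * ι c := by
    intro x x' h
    obtain ⟨n, hn, hn'⟩ := exists_ker_right π h
    obtain ⟨d, rfl⟩ := (ker n).1 hn
    exact ⟨d, hn'⟩
  have g_left' : ∀ x y c, g (x * ι c) y = g x y := by
    intro x y c
    obtain ⟨n, hn, hn'⟩ := exists_ker_left π (x := x * ι c) (y := x)
      (by rw [map_mul, hπι, mul_one])
    obtain ⟨d, rfl⟩ := (ker n).1 hn
    rw [hn', g_left]
  have t_right : ∀ x c, t (x * ι c) = t x := by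
    intro x c
    ext b
    apply ι_inj
    apply lc (a := x * ι c)
    rw [← tspec, assocR, add_comm, ← assocR, ← tspec, assocL]
  have f_left : ∀ x y c, f (x * ι c) y = f x y := by
    intro x y c
    ext b
    apply ι_inj
    apply lc (a := (x * ι c) * y)
    rw [← fspec, assocR, fspec, map_add, fspec, assocR]
  have f_right : ∀ x y c, f x (y * ι c) = f x y := by
    intro x y c
    ext b
    apply ι_inj
    apply lc (a := x * (y * ι c))
    rw [← fspec, gspec, g_left', fspec, assocR, add_comm, ← assocR, ← gspec]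
  have hsec : ∀ x : Q, ∃ c, Function.surjInv π_surj (π x) = x * ι c := by
    intro x
    apply lift
    rw [Function.surjInv_eq π_surj]
  refine ⟨{ ι := ι, π := π, ι_zero := ι_zero, ι_inj := ι_inj, π_surj := π_surj, ker := ker,
            triv := triv, assocR := assocR, assocL := assocL,
            F := fun X Y => f (Function.surjInv π_surj X) (Function.surjInv π_surj Y)
            G := fun X Y => g (Function.surjInv π_surj X) (Function.surjInv π_surj Y)
            τ := fun X => t (Function.surjInv π_surj X)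
            mulF := ?_, mulG := ?_, commτ := ?_ }, rfl, rfl⟩
  · intro x y a
    obtain ⟨c, hc⟩ := hsec x
    obtain ⟨d, hd⟩ := hsec y
    change _ = _ * ι (f _ _ a)
    rw [hc, hd, f_left, f_right, fspec]
  · intro x y a
    obtain ⟨c, hc⟩ := hsec x
    obtain ⟨d, hd⟩ := hsec y
    change _ = _ * ι (g _ _ a)
    rw [hc, hd, g_left', g_right, gspec]
  · intro x a
    obtain ⟨c, hc⟩ := hsec x
    change _ = _ * ι (t _ a)
    rw [hc, t_right, tspec]

end H13.ALoop
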