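import Mathlib
import Pool.Agent.Hhelper13.ALoop.Ext

set_option autoImplicit false
set_option linter.unusedSectionVars false

namespace H13.ALoop

namespace Ext

variable {A Q Γ : Type} [AddCommGroup A] [MulOneClass Q] [MulOneClass Γ] [IsALoop Q] [IsALoop Γ]
  (E : Ext A Q Γ)

theorem πι (a : A) : E.π (E.ι a) = 1 := (E.ker _).2 ⟨a, rfl⟩

theorem canc {x : Q} {a b : A} (h : x * E.ι a = x * E.ι b) : a = b := E.ι_inj (lc h)

theorem ι_add (a b : A) : E.ι (a + b) = E.ι a * E.ι b := by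
  rw [← one_mul (E.ι a), E.assocR, one_mul]

theorem iv_ι (a : A) : iv (E.ι a) = E.ι (-a) := by
  symm
  apply iv_unique
  rw [← E.ι_add, add_neg_cancel, E.ι_zero]

theorem mulFG (x y : Q) (a b : A) : (x * E.ι a) * (y * E.ι b) =
    (x * y) * E.ι (E.F (E.π x) (E.π y) a + E.G (E.π x) (E.π y) b) := by
  rw [E.mulG, E.mulF, map_mul, E.πι, mul_one, E.assocR]

theorem lift {x x' : Q} (h : E.π x = E.π x') : ∃ c, x = x' * E.ι c := by
  obtain ⟨n, hn, hn'⟩ := exists_ker_right E.π h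
  obtain ⟨d, rfl⟩ := (E.ker n).1 hn
  exact ⟨d, hn'⟩

/-- endomorphism-valued derivations -/
def DerE (D : Γ → AddMonoid.End A) : Prop :=
  ∀ X Y, D (X * Y) = E.F X Y * D X + E.G X Y * D Y

/-- element-valued derivation attached to `φ`. -/
theorem deriv (φ : MulAut Q) (hφ : ∀ q, E.π (φ q) = E.π q) : ∃ δ : Γ → A,
    (∀ x, φ x = x * E.ι (δ (E.π x))) ∧ ∀ X Y, δ (X * Y) = E.F X Y (δ X) + E.G X Y (δ Y) := by
  have h : ∀ x, ∃ c, φ x = x * E.ι c := fun x => E.lift (hφ x)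
  choose d hd using h
  have hd' : ∀ x c, d (x * E.ι c) = d x := by
    intro x c
    apply E.canc (x := x * E.ι c)
    rw [← hd, map_mul, E.triv φ hφ, hd, E.assocR, E.assocR, add_comm]
  have hsec : ∀ x : Q, ∃ c, Function.surjInv E.π_surj (E.π x) = x * E.ι c := by
    intro x
    apply E.lift
    rw [Function.surjInv_eq E.π_surj]
  have h1 : ∀ x, φ x = x * E.ι (d (Function.surjInv E.π_surj (E.π x))) := by
    intro x
    obtain ⟨c, hc⟩ := hsec x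
    rw [hc, hd', hd]
  refine ⟨fun X => d (Function.surjInv E.π_surj X), h1, ?_⟩
  intro X Y
  obtain ⟨x, rfl⟩ := E.π_surj X
  obtain ⟨y, rfl⟩ := E.π_surj Y
  apply E.canc (x := x * y)
  rw [← map_mul, ← h1, map_mul, h1, h1, E.mulFG]

/-- (d1) -/
theorem derτ : E.DerE (fun Z => E.τ Z - 1) := by
  intro X Y
  ext u
  obtain ⟨δ, h1, h2⟩ := E.deriv (Tm (E.ι u)) (fun q => by rw [map_Tm, E.πι, Tm_one])
  have hδ : ∀ Z, δ Z = E.τ Z u - u := by
    intro Z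
    obtain ⟨z, rfl⟩ := E.π_surj Z
    have h3 := Tm_spec (E.ι u) z
    rw [h1, E.commτ, E.assocR] at h3
    rw [E.canc h3, add_sub_cancel_right]
  have := h2 X Y
  rw [hδ, hδ, hδ] at this
  exact this

/-- (d2) -/
theorem der2 (X : Γ) (u : A) : ∃ δ : Γ → A, (∀ Z, E.G X Z (δ Z + u) = u) ∧
    ∀ X Y, δ (X * Y) = E.F X Y (δ X) + E.G X Y (δ Y) := by
  obtain ⟨x, rfl⟩ := E.π_surj X
  obtain ⟨δ, h1, h2⟩ := E.deriv (Hm x (E.ι u)) (fun q => by rw [map_Hm, E.πι, Hm_one_right])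
  refine ⟨δ, ?_, h2⟩
  intro Z
  obtain ⟨z, rfl⟩ := E.π_surj Z
  have h3 := Hm_spec x (E.ι u) z
  rw [h1, E.assocR, E.mulG] at h3
  exact (E.canc h3).symm

/-- (d3) -/
theorem der3 (X : Γ) (u : A) : ∃ δ : Γ → A, (∀ Z, E.G X Z (E.τ Z u) = E.F X Z u + E.G X Z (δ Z)) ∧
    ∀ X Y, δ (X * Y) = E.F X Y (δ X) + E.G X Y (δ Y) := by
  obtain ⟨x, rfl⟩ := E.π_surj X
  obtain ⟨δ, h1, h2⟩ := E.deriv (Lm x (E.ι u)) (fun q => by rw [map_Lm, E.πι, Lm_one_right])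
  refine ⟨δ, ?_, h2⟩
  intro Z
  obtain ⟨z, rfl⟩ := E.π_surj Z
  have h3 := Lm_spec x (E.ι u) z
  rw [h1, E.commτ, E.mulG, E.mulFG] at h3
  exact E.canc h3

/-- an automorphism `φ` of `Q` inducing `φ'` on `Γ` and `g` on `A`. -/
def Rep (φ : MulAut Q) (φ' : MulAut Γ) (g : AddMonoid.End A) : Prop :=
  (∀ q, E.π (φ q) = φ' (E.π q)) ∧ ∀ a, φ (E.ι a) = E.ι (g a)

theorem exists_rep (φ : MulAut Q) (φ' : MulAut Γ) (h : ∀ q, E.π (φ q) = φ' (E.π q)) :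
    ∃ g, E.Rep φ φ' g := by
  have h1 : ∀ a, ∃ b, E.ι b = φ (E.ι a) := by
    intro a
    rw [← E.ker, h, E.πι, map_one']
  choose g hg using h1
  refine ⟨AddMonoidHom.mk' g (fun a b => E.ι_inj ?_), h, fun a => (hg a).symm⟩
  rw [hg, E.ι_add, E.ι_add, map_mul, hg, hg]

theorem rep_Lm (x y : Q) : E.Rep (Lm x y) (Lm (E.π x) (E.π y)) (E.G (E.π x) (E.π y)) := by
  refine ⟨map_Lm E.π x y, ?_⟩
  intro a
  apply lc (a := x * y)
  rw [← Lm_spec, E.mulG]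

theorem rep_Tm_inv (x : Q) : E.Rep (Tm x)⁻¹ (Tm (E.π x))⁻¹ (E.τ (E.π x)) := by
  refine ⟨?_, ?_⟩
  · intro q
    apply (Tm (E.π x)).injective
    rw [← map_Tm, MulAut.apply_inv_self, MulAut.apply_inv_self]
  · intro a
    apply lc (a := x)
    rw [← Tm_inv_spec, E.commτ]

theorem Tm_τ (x : Q) (a : A) : Tm x (E.ι (E.τ (E.π x) a)) = E.ι a := by
  rw [← (E.rep_Tm_inv x).2, MulAut.apply_inv_self]

theorem rep_Mm (x y : Q) : ∃ m, E.Rep (Mm x y) (Mm (E.π x) (E.π y)) m ∧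
    E.τ (E.π x * E.π y) * m = E.F (E.π x) (E.π y) * E.τ (E.π x) := by
  obtain ⟨m, hm⟩ := E.exists_rep (Mm x y) (Mm (E.π x) (E.π y)) (map_Mm E.π x y)
  refine ⟨m, hm, ?_⟩
  ext a
  have h := Mm_spec x y (E.ι a)
  rw [hm.2, E.commτ, E.commτ, E.mulF, map_mul] at h
  exact (E.canc h).symm

theorem rep_Hm (x y : Q) : ∃ h, E.Rep (Hm x y) (Hm (E.π x) (E.π y)) h ∧
    E.F (E.π x) (E.π y) = E.G (E.π x) (E.π y) * E.τ (E.π y) * h := by
  obtain ⟨m, hm⟩ := E.exists_rep (Hm x y) (Hm (E.π x) (E.π y)) (map_Hm E.π x y)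
  refine ⟨m, hm, ?_⟩
  ext a
  have h := Hm_spec x y (E.ι a)
  rw [hm.2, E.commτ, E.mulF, E.mulG] at h
  exact E.canc h

/-- equivariance -/
theorem Rep.G {φ : MulAut Q} {φ' : MulAut Γ} {g : AddMonoid.End A} (h : E.Rep φ φ' g) (X Y : Γ) :
    g * E.G X Y = E.G (φ' X) (φ' Y) * g := by
  obtain ⟨x, rfl⟩ := E.π_surj X
  obtain ⟨y, rfl⟩ := E.π_surj Y
  ext a
  have h1 := congrArg φ (E.mulG x y a)
  rw [map_mul, map_mul, map_mul, map_mul, h.2, h.2, E.mulG, h.1, h.1] at h1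
  exact (E.canc h1).symm

theorem Rep.F {φ : MulAut Q} {φ' : MulAut Γ} {g : AddMonoid.End A} (h : E.Rep φ φ' g) (X Y : Γ) :
    g * E.F X Y = E.F (φ' X) (φ' Y) * g := by
  obtain ⟨x, rfl⟩ := E.π_surj X
  obtain ⟨y, rfl⟩ := E.π_surj Y
  ext a
  have h1 := congrArg φ (E.mulF x y a)
  rw [map_mul, map_mul, map_mul, map_mul, h.2, h.2, E.mulF, h.1, h.1] at h1
  exact (E.canc h1).symm

theorem Rep.τ {φ : MulAut Q} {φ' : MulAut Γ} {g : AddMonoid.End A} (h : E.Rep φ φ' g) (X : Γ) :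
    g * E.τ X = E.τ (φ' X) * g := by
  obtain ⟨x, rfl⟩ := E.π_surj X
  ext a
  have h1 := congrArg φ (E.commτ x a)
  rw [map_mul, map_mul, h.2, h.2, E.commτ, h.1] at h1
  exact (E.canc h1).symm

/-- (c6) -/
theorem c6 (X Y : Γ) : E.τ (iv Y * iv X) * E.G X Y = E.F (iv Y) (iv X) * E.τ (iv Y) := by
  obtain ⟨x, rfl⟩ := E.π_surj X
  obtain ⟨y, rfl⟩ := E.π_surj Y
  ext a
  have h := congrArg iv (E.mulG x y (-a))
  rw [aaip, aaip, aaip, aaip, E.iv_ι, neg_neg, E.commτ, E.mulF, E.iv_ι, map_neg, neg_neg,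
    E.commτ, map_mul, map_iv', map_iv'] at h
  exact (E.canc h).symm

theorem τ_iv (X : Γ) : E.τ (iv X) * E.τ X = 1 := by
  obtain ⟨x, rfl⟩ := E.π_surj X
  ext a
  have h := congrArg iv (E.commτ x (-a))
  rw [aaip, aaip, E.iv_ι, neg_neg, E.iv_ι, map_neg, neg_neg, E.commτ, map_iv'] at h
  exact (E.canc h).symm

theorem τ_iv' (X : Γ) : E.τ X * E.τ (iv X) = 1 := by
  have := E.τ_iv (iv X)
  rwa [iv_iv] at this

/-- (K1) -/
theorem cocG (X W Z : Γ) :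
    E.G X (W * Z) * E.G W Z = E.G (X * W) (Lm X W Z) * E.G X W := by
  obtain ⟨x, rfl⟩ := E.π_surj X
  obtain ⟨w, rfl⟩ := E.π_surj W
  obtain ⟨z, rfl⟩ := E.π_surj Z
  ext a
  have h1 : x * (w * (z * E.ι a)) = (x * (w * z)) *
      E.ι ((E.G (E.π x) (E.π w * E.π z) * E.G (E.π w) (E.π z)) a) := by
    rw [E.mulG w z, E.mulG, map_mul]; rfl
  have h2 : x * (w * (z * E.ι a)) = (x * (w * z)) *
      E.ι ((E.G (E.π x * E.π w) (Lm (E.π x) (E.π w) (E.π z)) * E.G (E.π x) (E.π w)) a) := by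
    rw [Lm_spec x w (z * E.ι a), map_mul, (E.rep_Lm x w).2, E.mulG, map_Lm, map_mul, ← Lm_spec]
    rfl
  exact E.canc (h1.symm.trans h2)

theorem cocF (x w z : Q) {φ' : MulAut Γ} {m : AddMonoid.End A} (hm : E.Rep (Mm w z) φ' m) :
    E.F (E.π x * E.π w) (E.π z) * E.F (E.π x) (E.π w) =
      E.F (φ' (E.π x)) (E.π w * E.π z) * m := by
  ext a
  have h1 : ((x * E.ι a) * w) * z = ((x * w) * z) *
      E.ι ((E.F (E.π x * E.π w) (E.π z) * E.F (E.π x) (E.π w)) a) := by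
    rw [E.mulF x w, E.mulF, map_mul]; rfl
  have h2 : ((x * E.ι a) * w) * z = ((x * w) * z) *
      E.ι ((E.F (φ' (E.π x)) (E.π w * E.π z) * m) a) := by
    rw [Mm_spec w z (x * E.ι a), map_mul, hm.2, E.mulF, hm.1, map_mul, ← Mm_spec]
    rfl
  exact E.canc (h1.symm.trans h2)

/-- (c5) -/
theorem c5 (V X : Γ) : E.G V X * E.τ V = E.F (Tm V X) V := by
  obtain ⟨x, rfl⟩ := E.π_surj X
  obtain ⟨v, rfl⟩ := E.π_surj V
  ext a
  have h1 : v * (x * E.ι (E.τ (E.π v) a)) = (v * x) * E.ι ((E.G (E.π v) (E.π x) * E.τ (E.π v)) a) := by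
    rw [E.mulG]; rfl
  have h2 : v * (x * E.ι (E.τ (E.π v) a)) = (v * x) * E.ι (E.F (Tm (E.π v) (E.π x)) (E.π v) a) := by
    rw [Tm_spec v (x * _), map_mul, E.Tm_τ, E.mulF, map_Tm, ← Tm_spec]
  exact E.canc (h1.symm.trans h2)

section finite
variable [Finite A]

theorem exists_inv_of_inj (g : AddMonoid.End A) (hg : ∀ a, g a = 0 → a = 0) :
    ∃ g' : AddMonoid.End A, g * g' = 1 ∧ g' * g = 1 := by
  have hinj : Function.Injective g := (injective_iff_map_eq_zero g).2 hg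
  have hbij : Function.Bijective g := Finite.injective_iff_bijective.1 hinj
  let e : A ≃+ A := AddEquiv.ofBijective g hbij
  refine ⟨e.symm.toAddMonoidHom, ?_, ?_⟩
  · ext a
    exact e.apply_symm_apply a
  · ext a
    exact e.symm_apply_apply a

theorem exists_Gi (X Y : Γ) : ∃ g' : AddMonoid.End A, E.G X Y * g' = 1 ∧ g' * E.G X Y = 1 := by
  apply exists_inv_of_inj
  intro a ha
  obtain ⟨x, rfl⟩ := E.π_surj X
  obtain ⟨y, rfl⟩ := E.π_surj Y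
  have h := E.mulG x y a
  have h0 := E.mulG x y 0
  rw [map_zero] at h0
  rw [ha, ← h0] at h
  exact E.canc (lc h)

/-- chosen inverse of `G` -/
noncomputable def Gi (X Y : Γ) : AddMonoid.End A := (E.exists_Gi X Y).choose
theorem G_Gi (X Y : Γ) : E.G X Y * E.Gi X Y = 1 := (E.exists_Gi X Y).choose_spec.1
theorem Gi_G (X Y : Γ) : E.Gi X Y * E.G X Y = 1 := (E.exists_Gi X Y).choose_spec.2

theorem derG (X : Γ) : E.DerE (fun Z => E.Gi X Z - 1) := by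
  intro Y Z
  ext u
  obtain ⟨δ, h1, h2⟩ := E.der2 X u
  have hδ : ∀ Z, δ Z = E.Gi X Z u - u := by
    intro Z
    have h3 := congrArg (E.Gi X Z) (h1 Z)
    have h4 : ∀ a, E.Gi X Z (E.G X Z a) = a := fun a =>
      congrArg (fun g : AddMonoid.End A => g a) (E.Gi_G X Z)
    rw [h4] at h3
    rw [← h3, add_sub_cancel_right]
  have := h2 Y Z
  rw [hδ, hδ, hδ] at this
  exact this

theorem derF (X : Γ) : E.DerE (fun Z => E.τ Z - E.Gi X Z * E.F X Z) := by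
  intro Y Z
  ext u
  obtain ⟨δ, h1, h2⟩ := E.der3 X u
  have hδ : ∀ Z, δ Z = E.τ Z u - E.Gi X Z (E.F X Z u) := by
    intro Z
    have h3 := congrArg (E.Gi X Z) (h1 Z)
    have h4 : ∀ a, E.Gi X Z (E.G X Z a) = a := fun a =>
      congrArg (fun g : AddMonoid.End A => g a) (E.Gi_G X Z)
    rw [map_add, h4, h4] at h3
    rw [h3, add_sub_cancel_left]
  have := h2 Y Z
  rw [hδ, hδ, hδ] at this
  exact this

/-- (d4) : difference of (d1) and (d3) -/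
theorem derR (X : Γ) : E.DerE (fun Z => E.Gi X Z * E.F X Z - 1) := by
  intro Y Z
  have h1 := E.derτ Y Z
  have h2 := E.derF X Y Z
  simp only at h1 h2 ⊢
  have h3 : E.Gi X (Y * Z) * E.F X (Y * Z) - 1 = (E.τ (Y * Z) - 1) -
      (E.τ (Y * Z) - E.Gi X (Y * Z) * E.F X (Y * Z)) := by abel
  rw [h3, h1, h2]
  noncomm_ring

end finite

end Ext

end H13.ALoop
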