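import Mathlib

set_option autoImplicit false
set_option linter.unusedSectionVars false

namespace H13.ALoop

section
variable {R V : Type} [CommRing R] [CommGroup V] [Fintype V] (t : V →* R) (n' : R)
  (hn' : n' * (Fintype.card V : R) = 1) (hsum : ∑ v, t v = 0)

include hn' hsum

theorem sumD : ∑ v, (t v - 1) = -(Fintype.card V : R) := by
  rw [Finset.sum_sub_distrib, hsum]
  simp

theorem zero_of_D {a : R} (h : ∀ v, (t v - 1) * a = 0) : a = 0 := by
  have h1 : (∑ v, (t v - 1)) * a = 0 := by
    rw [Finset.sum_mul]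
    exact Finset.sum_eq_zero (fun v _ => h v)
  rw [sumD t n' hn' hsum] at h1
  linear_combination (-n') * h1 - a * hn'

theorem der_inner {d : V → R} (hd : ∀ v w, d (v * w) = t w * d v + d w) :
    ∀ v, d v = (t v - 1) * (-n' * ∑ w, d w) := by
  have h1 : ∀ v w, (t w - 1) * d v = (t v - 1) * d w := by
    intro v w
    have h2 := hd v w
    have h3 := hd w v
    rw [mul_comm w v] at h3
    linear_combination h3 - h2
  intro v
  have h2 : (∑ w, (t w - 1)) * d v = (t v - 1) * ∑ w, d w := by
    rw [Finset.sum_mul, Finset.mul_sum]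
    exact Finset.sum_congr rfl (fun w _ => h1 v w)
  rw [sumD t n' hn' hsum] at h2
  linear_combination (-n') * h2 - d v * hn'

theorem AL1 (G Gi F : V → R) (hG : ∀ v, G v * Gi v = 1)
    (hder1 : ∀ v w, Gi (v * w) - 1 = t w * (Gi v - 1) + (Gi w - 1))
    (hder2 : ∀ v w, Gi (v * w) * F (v * w) - 1 = t w * (Gi v * F v - 1) + (Gi w * F w - 1))
    (hX : ∀ w v, F (w * v) * G w ^ 2 * (t w - 1) + G (w * v) * F w * (t v - 1) =
      G (w * v) * (t (w * v) - 1) * F w * G w)
    (hcase : (∑ v, t v ^ 2 = 0) ∨ ((∃ c : R, c * 2 = 1) ∧ (∀ v, t v ^ 2 = 1) ∧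
      (∀ v, G v ^ 2 = 1) ∧ (∀ v, F v ^ 2 = 1))) :
    ∃ s : R, s * s = s ∧ (∀ v, G v = (1 - s) + s * t v⁻¹) ∧
      (∀ v, F v = (1 - s) * t v + s * t v⁻¹) := by
  have htt : ∀ v, t v * t v⁻¹ = 1 := by
    intro v
    rw [← map_mul, mul_inv_cancel, map_one]
  set s : R := -n' * ∑ w, (Gi w - 1) with hs
  set ρ : R := -n' * ∑ w, (Gi w * F w - 1) with hρ
  have hg : ∀ v, Gi v = 1 + (t v - 1) * s := by
    intro v
    have := der_inner t n' hn' hsum (d := fun v => Gi v - 1) hder1 v
    linear_combination this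
  have hr : ∀ v, Gi v * F v = 1 + (t v - 1) * ρ := by
    intro v
    have := der_inner t n' hn' hsum (d := fun v => Gi v * F v - 1) hder2 v
    linear_combination this
  -- (R1)
  have hR0 : ∀ w v, (t v - 1) * ((t w - 1) * (s + ρ - 1 + (t w - 1) * (s * ρ))) = 0 := by
    intro w v
    have h1 := hX w v
    have h2 := hr (w * v)
    have h3 := hr w
    have h4 := hg w
    have h5 := hG w
    have h6 := hG (w * v)
    have h7 : t (w * v) = t w * t v := map_mul t w v
    -- multiply h1 by Gi (w*v) * Gi w ^2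
    have h8 : (Gi (w * v) * F (w * v)) * (t w - 1) + Gi w * (Gi w * F w) * (t v - 1) =
        (t (w * v) - 1) * (Gi w * F w) := by
      have e1 : (Gi (w * v) * F (w * v)) * (t w - 1) =
          Gi (w * v) * Gi w ^ 2 * (F (w * v) * G w ^ 2 * (t w - 1)) := by
        have : Gi w ^ 2 * G w ^ 2 = 1 := by rw [← mul_pow, mul_comm, h5, one_pow]
        linear_combination (-(Gi (w * v) * F (w * v)) * (t w - 1)) * this
      have e2 : Gi w * (Gi w * F w) * (t v - 1) =
          Gi (w * v) * Gi w ^ 2 * (G (w * v) * F w * (t v - 1)) := by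
        linear_combination (-(Gi w ^ 2 * F w) * (t v - 1)) * h6
      have e3 : (t (w * v) - 1) * (Gi w * F w) =
          Gi (w * v) * Gi w ^ 2 * (G (w * v) * (t (w * v) - 1) * F w * G w) := by
        linear_combination (-(Gi w ^ 2 * F w * G w) * (t (w * v) - 1)) * h6 -
          (Gi w * F w * (t (w * v) - 1)) * h5
      rw [e1, e2, e3, ← h1]
      ring
    rw [h2, h3, h4, h7] at h8
    linear_combination h8
  have hR1 : ∀ w, (t w - 1) * (s + ρ - 1 + (t w - 1) * (s * ρ)) = 0 := fun w =>
    zero_of_D t n' hn' hsum (fun v => hR0 w v)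
  -- s * ρ = 0 and s + ρ = 1
  have hmain : s * ρ = 0 ∧ s + ρ = 1 := by
    rcases hcase with h2 | ⟨⟨c, hc⟩, ht2, hG2, hF2⟩
    · have hL : s * ρ = 0 := by
        apply zero_of_D t n' hn' hsum
        intro w
        have h3 : ∀ v, (t v - 1) * ((t w - 1) ^ 2 * (s * ρ)) = (t v - 1) ^ 2 * ((t w - 1) * (s * ρ)) := by
          intro v
          linear_combination (t v - 1) * hR1 w - (t w - 1) * hR1 v
        have h4 : (∑ v, (t v - 1)) * ((t w - 1) ^ 2 * (s * ρ)) =
            (∑ v, (t v - 1) ^ 2) * ((t w - 1) * (s * ρ)) := by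
          rw [Finset.sum_mul, Finset.sum_mul]
          exact Finset.sum_congr rfl (fun v _ => h3 v)
        have h5 : ∑ v, (t v - 1) ^ 2 = (Fintype.card V : R) := by
          have : ∀ v ∈ Finset.univ, (t v - 1) ^ 2 = t v ^ 2 - 2 * t v + 1 := fun v _ => by ring
          rw [Finset.sum_congr rfl this, Finset.sum_add_distrib, Finset.sum_sub_distrib, h2,
            ← Finset.mul_sum, hsum]
          simp
        rw [h5, sumD t n' hn' hsum] at h4
        have h6 : t w * ((t w - 1) * (s * ρ)) = 0 := by
          linear_combination (-n') * h4 - ((t w - 1) * (s * ρ)) * t w * hn'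
        linear_combination t w⁻¹ * h6 - ((t w - 1) * (s * ρ)) * htt w
      refine ⟨hL, ?_⟩
      have h7 : s + ρ - 1 = 0 := by
        apply zero_of_D t n' hn' hsum
        intro w
        have := hR1 w
        rw [hL] at this
        linear_combination this
      linear_combination h7
    · have hgi2 : ∀ v, Gi v ^ 2 = 1 := by
        intro v
        have h3 : (G v * Gi v) ^ 2 = 1 := by rw [hG, one_pow]
        rw [mul_pow, hG2, one_mul] at h3
        exact h3
      have hs2 : s * s = s := by
        have h3 : s - s * s = 0 := by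
          apply zero_of_D t n' hn' hsum
          intro v
          have h4 := hgi2 v
          rw [hg] at h4
          have h5 := ht2 v
          linear_combination c * h4 - c * s ^ 2 * h5 - (s - s ^ 2) * (t v - 1) * hc
        linear_combination -h3
      have hρ2 : ρ * ρ = ρ := by
        have h3 : ρ - ρ * ρ = 0 := by
          apply zero_of_D t n' hn' hsum
          intro v
          have h4 : (Gi v * F v) ^ 2 = 1 := by rw [mul_pow, hgi2, hF2, one_mul]
          rw [hr] at h4
          have h5 := ht2 v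
          linear_combination c * h4 - c * ρ ^ 2 * h5 - (ρ - ρ ^ 2) * (t v - 1) * hc
        linear_combination -h3
      have h6 : s + ρ - 1 - 2 * (s * ρ) = 0 := by
        apply zero_of_D t n' hn' hsum
        intro w
        linear_combination hR1 w - s * ρ * ht2 w
      have h7 : s * ρ = 0 := by
        linear_combination (-s) * h6 - 2 * ρ * hs2 + hs2
      refine ⟨h7, ?_⟩
      linear_combination h6 + 2 * h7
  obtain ⟨hL, hK⟩ := hmain
  have hρ' : ρ = 1 - s := by linear_combination hK
  have hs2 : s * s = s := by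
    rw [hρ'] at hL
    linear_combination -hL
  refine ⟨s, hs2, ?_, ?_⟩
  · intro v
    have h1 : Gi v * ((1 - s) + s * t v⁻¹) = 1 := by
      rw [hg]
      linear_combination (t v * t v⁻¹ - t v⁻¹ - t v + 1) * hs2 + s * htt v
    linear_combination (-G v) * h1 + ((1 - s) + s * t v⁻¹) * hG v
  · intro v
    have h1 : Gi v * ((1 - s) + s * t v⁻¹) = 1 := by
      rw [hg]
      linear_combination (t v * t v⁻¹ - t v⁻¹ - t v + 1) * hs2 + s * htt v
    have h2 : G v = (1 - s) + s * t v⁻¹ := by
      linear_combination (-G v) * h1 + ((1 - s) + s * t v⁻¹) * hG v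
    have h3 : F v = G v * (Gi v * F v) := by
      linear_combination (-F v) * hG v
    rw [h3, hr, h2, hρ']
    linear_combination (t v - 2 - t v * t v⁻¹ + t v⁻¹ + 1) * hs2 
end

end H13.ALoop
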