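import Mathlib
import Pool.Agent.Hhelper13.ALoop.ExtFacts
import Pool.Agent.Hhelper13.ALoop.VAlg

set_option autoImplicit false
set_option linter.unusedSectionVars false

namespace H13.ALoop

/-- data of an abelian normal subloop `V` of `Γ` with the associativity property -/
structure VD (V Γ Δ : Type) [CommGroup V] [MulOneClass Γ] [MulOneClass Δ] where
  j : V →* Γ
  j_inj : Function.Injective j
  ϖ : Γ →* Δ
  ker : ∀ X, ϖ X = 1 ↔ ∃ v, j v = X
  assoc : ∀ X v w, (X * j v) * j w = X * j (v * w)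

namespace VD

section pure
variable {V Γ Δ : Type} [CommGroup V] [MulOneClass Γ] [IsALoop Γ] [MulOneClass Δ] [IsALoop Δ]
  (D : VD V Γ Δ)

theorem iv_j (v : V) : iv (D.j v) = D.j v⁻¹ := by
  symm
  apply iv_unique
  rw [← map_mul, mul_inv_cancel, map_one]

theorem assoc' (v w : V) (X : Γ) : D.j v * (D.j w * X) = D.j (v * w) * X := by
  apply iv_inj
  rw [aaip, aaip, aaip, D.iv_j, D.iv_j, D.iv_j, D.assoc, mul_inv_rev]

theorem Lm_V (X : Γ) (v w : V) : Lm X (D.j v) (D.j w) = D.j w := by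
  apply lc (a := X * D.j v)
  rw [← Lm_spec, D.assoc, map_mul]

theorem Hm_V (X : Γ) (v w : V) : Hm X (D.j v) (D.j w) = D.j w := by
  apply rc (a := D.j v)
  apply lc (a := X)
  rw [← Hm_spec, D.assoc, map_mul]

theorem Tm_V (v w : V) : Tm (D.j v) (D.j w) = D.j w := by
  apply rc (a := D.j v)
  rw [← Tm_spec, ← map_mul, ← map_mul, mul_comm]

theorem Lm_VV (v w : V) (X : Γ) : Lm (D.j v) (D.j w) X = X := by
  apply lc (a := D.j v * D.j w)
  rw [← Lm_spec, D.assoc', map_mul]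

theorem Mm_VV (v w : V) (X : Γ) : Mm (D.j v) (D.j w) X = X := by
  apply rc (a := D.j v * D.j w)
  rw [← Mm_spec, D.assoc, map_mul]

theorem ϖj (v : V) : D.ϖ (D.j v) = 1 := (D.ker _).2 ⟨v, rfl⟩

theorem liftV {X Y : Γ} (h : D.ϖ X = D.ϖ Y) : ∃ v, X = Y * D.j v := by
  obtain ⟨n, hn, hn'⟩ := exists_ker_right D.ϖ h
  obtain ⟨d, rfl⟩ := (D.ker n).1 hn
  exact ⟨d, hn'⟩

end pure

section ext
variable {V Γ Δ A Q : Type} [CommGroup V] [MulOneClass Γ] [IsALoop Γ] [MulOneClass Δ] [IsALoop Δ]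
  [AddCommGroup A] [MulOneClass Q] [IsALoop Q] (E : Ext A Q Γ) (D : VD V Γ Δ)

theorem τ_one : E.τ 1 = 1 := by
  ext a
  have h := E.commτ 1 a
  rw [mul_one, one_mul, map_one] at h
  exact (E.ι_inj h).symm

theorem G_VV (v w : V) : E.G (D.j v) (D.j w) = 1 := by
  obtain ⟨x, hx⟩ := E.π_surj (D.j v)
  obtain ⟨y, hy⟩ := E.π_surj (D.j w)
  ext a
  have h := (E.rep_Lm x y).2 a
  rw [hx, hy, E.triv (Lm x y) (fun q => by rw [map_Lm, hx, hy, D.Lm_VV])] at h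
  exact (E.ι_inj h).symm

theorem F_VV (v w : V) : E.F (D.j v) (D.j w) = E.τ (D.j w) := by
  obtain ⟨x, hx⟩ := E.π_surj (D.j v)
  obtain ⟨y, hy⟩ := E.π_surj (D.j w)
  obtain ⟨m, hm, hm'⟩ := E.rep_Mm x y
  have hm1 : m = 1 := by
    ext a
    have h := hm.2 a
    rw [E.triv (Mm x y) (fun q => by rw [map_Mm, hx, hy, D.Mm_VV])] at h
    exact (E.ι_inj h).symm
  rw [hm1, mul_one, hx, hy] at hm'
  have h := E.derτ (D.j v) (D.j w)
  simp only [D.G_VV E, one_mul] at h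
  rw [mul_sub, ← hm', mul_one] at h
  have h2 := sub_eq_zero.2 h
  apply sub_eq_zero.1
  rw [← h2]
  abel

theorem τ_mul' (v w : V) : E.τ (D.j (v * w)) = E.τ (D.j w) * E.τ (D.j v) := by
  have h := E.derτ (D.j v) (D.j w)
  simp only [D.G_VV E, D.F_VV E, one_mul] at h
  rw [map_mul]
  have h2 := sub_eq_zero.2 h
  apply sub_eq_zero.1
  rw [← h2]
  noncomm_ring

theorem τ_mul (v w : V) : E.τ (D.j (v * w)) = E.τ (D.j v) * E.τ (D.j w) := by
  rw [mul_comm, D.τ_mul' E]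

/-- operators on `A` induced by automorphisms acting trivially on `V` and `Γ/V`. -/
def Good (g : AddMonoid.End A) : Prop :=
  ∃ φ φ', E.Rep φ φ' g ∧ (∀ v, φ' (D.j v) = D.j v) ∧ ∀ X, ∃ v, φ' X = X * D.j v

theorem good_mul {g h : AddMonoid.End A} (hg : D.Good E g) (hh : D.Good E h) :
    D.Good E (g * h) := by
  obtain ⟨φ, φ', hr, h1, h2⟩ := hg
  obtain ⟨ψ, ψ', hr', h1', h2'⟩ := hh
  refine ⟨φ * ψ, φ' * ψ', ⟨?_, ?_⟩, ?_, ?_⟩
  · intro q
    rw [MulAut.mul_apply, MulAut.mul_apply, hr.1, hr'.1]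
  · intro a
    rw [MulAut.mul_apply, hr'.2, hr.2]; rfl
  · intro v
    rw [MulAut.mul_apply, h1', h1]
  · intro X
    obtain ⟨v, hv⟩ := h2' X
    obtain ⟨w, hw⟩ := h2 X
    exact ⟨w * v, by rw [MulAut.mul_apply, hv, map_mul, hw, h1, D.assoc]⟩

theorem good_comm {g h : AddMonoid.End A} (hg : D.Good E g) (hh : D.Good E h) :
    g * h = h * g := by
  obtain ⟨φ, φ', hr, h1, h2⟩ := hg
  obtain ⟨ψ, ψ', hr', h1', h2'⟩ := hh
  have hcomm : ∀ X, φ' (ψ' X) = ψ' (φ' X) := by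
    intro X
    obtain ⟨v, hv⟩ := h2' X
    obtain ⟨w, hw⟩ := h2 X
    rw [hv, hw, map_mul, map_mul, h1, h1', hv, hw, D.assoc, D.assoc, mul_comm]
  ext a
  apply E.ι_inj
  have h3 : E.ι ((g * h) a) = φ (ψ (E.ι a)) := by rw [hr'.2, hr.2]; rfl
  have h4 : E.ι ((h * g) a) = ψ (φ (E.ι a)) := by rw [hr.2, hr'.2]; rfl
  rw [h3, h4]
  have h5 : ∀ q, E.π (((ψ * φ)⁻¹ * (φ * ψ)) q) = E.π q := by
    intro q
    apply φ'.injective
    apply ψ'.injective
    rw [← hr.1, ← hr'.1, ← MulAut.mul_apply, ← MulAut.mul_apply, mul_inv_cancel_left,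
      MulAut.mul_apply, hr.1, hr'.1, hcomm]
  have h6 := E.triv _ h5 a
  rw [MulAut.mul_apply] at h6
  have h7 := congrArg (ψ * φ) h6
  rw [MulAut.apply_inv_self] at h7
  exact h7

theorem good_pow {g : AddMonoid.End A} (hg : D.Good E g) {q : ℕ} (hq : ∀ v : V, v ^ q = 1) :
    g ^ q = 1 := by
  obtain ⟨φ, φ', hr, h1, h2⟩ := hg
  have h3 : ∀ (n : ℕ) (x : Q), E.π ((φ ^ n) x) = (φ' ^ n) (E.π x) := by
    intro n
    induction n with
    | zero => intro x; rfl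
    | succ n ih =>
      intro x
      rw [pow_succ, pow_succ, MulAut.mul_apply, MulAut.mul_apply, ih, hr.1]
  have h4 : ∀ (n : ℕ) (a : A), (φ ^ n) (E.ι a) = E.ι ((g ^ n) a) := by
    intro n
    induction n with
    | zero => intro x; rfl
    | succ n ih =>
      intro a
      rw [pow_succ, pow_succ, MulAut.mul_apply, hr.2, ih]; rfl
  have h5 : ∀ X, ∃ v, ∀ n : ℕ, (φ' ^ n) X = X * D.j (v ^ n) := by
    intro X
    obtain ⟨v, hv⟩ := h2 X
    refine ⟨v, ?_⟩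
    intro n
    induction n with
    | zero => simp
    | succ n ih =>
      rw [pow_succ', MulAut.mul_apply, ih, map_mul, h1, hv, D.assoc, pow_succ']
  ext a
  apply E.ι_inj
  rw [← h4, E.triv]
  · rfl
  · intro x
    rw [h3]
    obtain ⟨v, hv⟩ := h5 (E.π x)
    rw [hv, hq, map_one, mul_one]

theorem good_G (X : Γ) (v : V) : D.Good E (E.G X (D.j v)) := by
  obtain ⟨x, rfl⟩ := E.π_surj X
  obtain ⟨y, hy⟩ := E.π_surj (D.j v)
  refine ⟨Lm x y, Lm (E.π x) (D.j v), ?_, ?_, ?_⟩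
  · rw [← hy]; exact E.rep_Lm x y
  · intro w; exact D.Lm_V _ _ _
  · intro Z
    apply D.liftV
    rw [map_Lm, D.ϖj, Lm_one_right]

theorem good_τ (v : V) : D.Good E (E.τ (D.j v)) := by
  obtain ⟨y, hy⟩ := E.π_surj (D.j v)
  refine ⟨(Tm y)⁻¹, (Tm (D.j v))⁻¹, ?_, ?_, ?_⟩
  · rw [← hy]; exact E.rep_Tm_inv y
  · intro w
    apply (Tm (D.j v)).injective
    rw [MulAut.apply_inv_self, D.Tm_V]
  · intro Z
    apply D.liftV
    have h := map_Tm D.ϖ (D.j v) ((Tm (D.j v))⁻¹ Z)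
    rw [MulAut.apply_inv_self, D.ϖj, Tm_one] at h
    exact h.symm

theorem good_F (X : Γ) (v : V) : D.Good E (E.F X (D.j v)) := by
  obtain ⟨x, rfl⟩ := E.π_surj X
  obtain ⟨y, hy⟩ := E.π_surj (D.j v)
  obtain ⟨h, hh, hh'⟩ := E.rep_Hm x y
  rw [hy] at hh'
  rw [hh']
  apply D.good_mul E (D.good_mul E (D.good_G E _ _) (D.good_τ E _))
  refine ⟨Hm x y, Hm (E.π x) (D.j v), ?_, ?_, ?_⟩
  · rw [← hy]; exact hh
  · intro w; exact D.Hm_V _ _ _
  · intro Z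
    apply D.liftV
    rw [map_Hm, D.ϖj, Hm_one_right]

theorem coc_G (X : Γ) (w v : V) :
    E.G X (D.j (w * v)) = E.G (X * D.j w) (D.j v) * E.G X (D.j w) := by
  have h := E.cocG X (D.j w) (D.j v)
  rw [D.Lm_V, D.G_VV E, mul_one, ← map_mul] at h
  exact h

theorem coc_F (X : Γ) (w v : V) :
    E.F X (D.j (w * v)) = E.F (X * D.j w) (D.j v) * E.F X (D.j w) := by
  obtain ⟨x, rfl⟩ := E.π_surj X
  obtain ⟨y, hy⟩ := E.π_surj (D.j w)
  obtain ⟨z, hz⟩ := E.π_surj (D.j v)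
  obtain ⟨m, hm, hm'⟩ := E.rep_Mm y z
  have hm1 : m = 1 := by
    ext a
    have h := hm.2 a
    rw [E.triv (Mm y z) (fun q => by rw [map_Mm, hy, hz, D.Mm_VV])] at h
    exact (E.ι_inj h).symm
  have h := E.cocF x y z hm
  rw [hm1, mul_one, hy, hz, D.Mm_VV, ← map_mul] at h
  exact h.symm

end ext

end VD

end H13.ALoop
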