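import Mathlib
import Pool.Agent.Hhelper13.ALoop.VLevel

set_option autoImplicit false
set_option linter.unusedSectionVars false

namespace H13.ALoop

namespace VD

variable {V Γ Δ A Q : Type} [CommGroup V] [MulOneClass Γ] [IsALoop Γ] [MulOneClass Δ] [IsALoop Δ]
  [AddCommGroup A] [MulOneClass Q] [IsALoop Q] (E : Ext A Q Γ) (D : VD V Γ Δ)

theorem central [Fintype V] [Nontrivial V] [Finite Q] (hτ : ∀ v, E.τ (D.j v) = 1) (m' : ℕ)
    (hm : ∀ a : A, m' • (Fintype.card V • a) = a) :
    ∃ M₀ : Submonoid Q, M₀ ≠ ⊥ ∧ Nrm M₀ ∧ Nat.card M₀ = Nat.card V := by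
  have hFV : ∀ v w, E.F (D.j v) (D.j w) = 1 := fun v w => by rw [D.F_VV E, hτ]
  have hGV : ∀ v w, E.G (D.j v) (D.j w) = 1 := fun v w => D.G_VV E v w
  have hmi' : ∀ {a b : A}, Fintype.card V • a = b → a = m' • b := by
    intro a b h
    rw [← h, hm]
  have sum_mul_V : ∀ (f : V → A) (y : V), ∑ z, f (z * y) = ∑ z, f z := fun f y =>
    Fintype.sum_equiv (Equiv.mulRight y) _ _ (fun _ => rfl)
  have hmul : ∀ (x y : Q) (v w : V) (a b : A), E.π x = D.j v → E.π y = D.j w →
      (x * E.ι a) * (y * E.ι b) = (x * y) * E.ι (a + b) := by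
    intro x y v w a b hx hy
    rw [E.mulFG, hx, hy, hFV, hGV]; rfl
  have hs₀ : ∃ s₀ : V → Q, ∀ v, E.π (s₀ v) = D.j v := by
    choose f hf using fun v => E.π_surj (D.j v)
    exact ⟨f, hf⟩
  obtain ⟨s₀, hs₀⟩ := hs₀
  have hc₀ : ∀ v w, ∃ c, s₀ v * s₀ w = s₀ (v * w) * E.ι c := by
    intro v w
    apply E.lift
    rw [map_mul, hs₀, hs₀, hs₀, map_mul]
  choose c₀ hc₀ using hc₀
  obtain ⟨s, c, hs, hc, hh⟩ : ∃ (s : V → Q) (c : V → V → A), (∀ v, E.π (s v) = D.j v) ∧
      (∀ v w, s v * s w = s (v * w) * E.ι (c v w)) ∧ (∀ w, ∑ v, c v w = 0) := by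
    let k : V → A := fun w => -(m' • ∑ v, c₀ v w)
    refine ⟨fun v => s₀ v * E.ι (k v), fun v w => c₀ v w + (k v + k w) - k (v * w), ?_, ?_, ?_⟩
    · intro v
      rw [map_mul, hs₀, E.πι, mul_one]
    · intro v w
      simp only
      rw [hmul _ _ v w _ _ (hs₀ v) (hs₀ w), hc₀, E.assocR, E.assocR]
      congr 2
      abel
    · intro w
      simp only [Finset.sum_sub_distrib, Finset.sum_add_distrib]
      rw [sum_mul_V k w]
      have h1 : ∑ _v : V, k w = -∑ v, c₀ v w := by
        rw [Finset.sum_const, Finset.card_univ]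
        change Fintype.card V • (-(m' • ∑ v, c₀ v w)) = _
        rw [smul_neg, smul_comm, hm]
      rw [h1]
      abel
  -- automorphisms preserve the section
  have hℓ : ∀ (φ : MulAut Q) (φ' : MulAut Γ) (g : AddMonoid.End A), E.Rep φ φ' g →
      (∀ v, ∃ w, D.j w = φ' (D.j v)) → ∀ v w, D.j w = φ' (D.j v) → φ (s v) = s w := by
    intro φ φ' g hr hV
    choose f hf using hV
    have hfmul : ∀ v w, f (v * w) = f v * f w := by
      intro v w
      apply D.j_inj
      rw [hf, map_mul, map_mul, map_mul, hf, hf]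
    have hfinj : Function.Injective f := by
      intro v w h
      have := hf v
      rw [h, hf w] at this
      exact D.j_inj (φ'.injective this.symm)
    have h1 : ∀ w, ∃ l, φ (s w) = s (f w) * E.ι l := by
      intro w
      apply E.lift
      rw [hr.1, hs, hs, hf]
    choose l hl using h1
    have hE1 : ∀ z w, c (f z) (f w) + (l z + l w) = l (z * w) + g (c z w) := by
      intro z w
      have h2 := congrArg φ (hc z w)
      rw [map_mul, map_mul, hl, hl, hl, hr.2, hmul _ _ (f z) (f w) _ _ (hs _) (hs _), hc,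
        E.assocR, E.assocR, hfmul] at h2
      exact E.canc h2
    have hl0 : ∀ w, l w = 0 := by
      intro w
      have h4 : ∑ z, (c (f z) (f w) + (l z + l w)) = ∑ z, (l (z * w) + g (c z w)) :=
        Finset.sum_congr rfl (fun z _ => hE1 z w)
      have h5 : ∑ z, c (f z) (f w) = ∑ z, c z (f w) :=
        Fintype.sum_equiv (Equiv.ofBijective f (Finite.injective_iff_bijective.1 hfinj)) _ _
          (fun _ => rfl)
      rw [Finset.sum_add_distrib, Finset.sum_add_distrib, Finset.sum_add_distrib, h5, hh,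
        Finset.sum_const, Finset.card_univ, sum_mul_V l w, ← map_sum, hh, map_zero, add_zero,
        zero_add, add_eq_left] at h4
      rw [hmi' h4, smul_zero]
    intro v w hvw
    have : f v = w := D.j_inj (by rw [hf, hvw])
    rw [hl, hl0, E.ι_zero, mul_one, this]
  -- the cocycle vanishes
  have hc0 : ∀ y x, c y x = 0 := by
    intro y x
    obtain ⟨m, hm1, -⟩ := E.rep_Mm (s y) (s x)
    rw [hs, hs] at hm1
    have hfix : ∀ z, Mm (s y) (s x) (s z) = s z := by
      intro z
      exact hℓ _ _ _ hm1 (fun v => ⟨v, by rw [D.Mm_VV]⟩) z z (by rw [D.Mm_VV])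
    have hN : ∀ z, c (z * y) x + c z y = c z (y * x) + c y x := by
      intro z
      have h1 : (s z * s y) * s x = s ((z * y) * x) * E.ι (c (z * y) x + c z y) := by
        rw [hc z y, E.mulF, hc (z * y) x, E.assocR, hs, hs, hFV]; rfl
      have h2 : (s z * s y) * s x = s ((z * y) * x) * E.ι (c z (y * x) + c y x) := by
        rw [Mm_spec (s y) (s x) (s z), hfix, hc y x, E.mulG, hc z, E.assocR, hs, hs, hGV,
          mul_assoc]; rfl
      exact E.canc (h1.symm.trans h2)
    have h1 : ∑ z, (c (z * y) x + c z y) = ∑ z, (c z (y * x) + c y x) :=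
      Finset.sum_congr rfl (fun z _ => hN z)
    rw [Finset.sum_add_distrib, Finset.sum_add_distrib, sum_mul_V (fun z => c z x), hh, hh, hh,
      Finset.sum_const, Finset.card_univ, zero_add, zero_add] at h1
    rw [hmi' h1.symm, smul_zero]
  have hsmul : ∀ v w, s v * s w = s (v * w) := by
    intro v w
    rw [hc, hc0, E.ι_zero, mul_one]
  have hs1 : s 1 = 1 := by
    apply lc (a := s 1)
    rw [hsmul, mul_one, mul_one]
  have hsinj : Function.Injective s := by
    intro v w h
    apply D.j_inj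
    rw [← hs, h, hs]
  let M₀ : Submonoid Q :=
    { carrier := Set.range s
      one_mem' := ⟨1, hs1⟩
      mul_mem' := by
        rintro _ _ ⟨v, rfl⟩ ⟨w, rfl⟩
        exact ⟨v * w, (hsmul v w).symm⟩ }
  refine ⟨M₀, ?_, ?_, ?_⟩
  · intro h
    obtain ⟨v, hv⟩ := exists_ne (1 : V)
    have h1 : s v ∈ M₀ := ⟨v, rfl⟩
    rw [h, Submonoid.mem_bot] at h1
    exact hv (hsinj (by rw [h1, hs1]))
  · apply Nrm.of_finite
    · rintro x y _ ⟨v, rfl⟩
      have hr := E.rep_Lm x y
      have hV : ∀ v, ∃ w, D.j w = Lm (E.π x) (E.π y) (D.j v) := by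
        intro v
        rw [← D.ker, map_Lm, D.ϖj, map_one']
      obtain ⟨w, hw⟩ := hV v
      exact ⟨w, (hℓ _ _ _ hr hV v w hw).symm⟩
    · rintro x y _ ⟨v, rfl⟩
      obtain ⟨g, hr, -⟩ := E.rep_Mm x y
      have hV : ∀ v, ∃ w, D.j w = Mm (E.π x) (E.π y) (D.j v) := by
        intro v
        rw [← D.ker, map_Mm, D.ϖj, map_one']
      obtain ⟨w, hw⟩ := hV v
      exact ⟨w, (hℓ _ _ _ hr hV v w hw).symm⟩
    · rintro x _ ⟨v, rfl⟩
      obtain ⟨g, hr⟩ := E.exists_rep (Tm x) (Tm (E.π x)) (map_Tm E.π x)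
      have hV : ∀ v, ∃ w, D.j w = Tm (E.π x) (D.j v) := by
        intro v
        rw [← D.ker, map_Tm, D.ϖj, map_one']
      obtain ⟨w, hw⟩ := hV v
      exact ⟨w, (hℓ _ _ _ hr hV v w hw).symm⟩
  · have : Nat.card (Set.range s) = Nat.card V := Nat.card_congr (Equiv.ofInjective s hsinj).symm
    exact this

end VD

end H13.ALoop
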