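import Mathlib
import Pool.Agent.Hhelper13.ALoop.VLevel

set_option autoImplicit false
set_option linter.unusedSectionVars false

namespace H13.ALoop

namespace VD

variable {V Γ Δ A Q : Type} [CommGroup V] [MulOneClass Γ] [IsALoop Γ] [MulOneClass Δ] [IsALoop Δ]
  [AddCommGroup A] [MulOneClass Q] [IsALoop Q] (E : Ext A Q Γ) (D : VD V Γ Δ)

/-- the commutative ring generated by the good operators -/
abbrev RR : Subring (AddMonoid.End A) := Subring.closure {g | D.Good E g}

instance instMC : IsMulCommutative (D.RR E) :=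
  Subring.isMulCommutative_closure (fun _ hx _ hy => D.good_comm E hx hy)

open scoped IsMulCommutative

noncomputable instance instCR : CommRing (D.RR E) := inferInstance

/-- good operators as ring elements -/
def mkR (g : AddMonoid.End A) (hg : D.Good E g) : D.RR E := ⟨g, Subring.subset_closure hg⟩

/-- `τ` on `V`. -/
def tR : V →* D.RR E where
  toFun v := D.mkR E (E.τ (D.j v)) (D.good_τ E v)
  map_one' := by
    apply Subtype.ext
    change E.τ (D.j 1) = 1
    rw [map_one, τ_one]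
  map_mul' v w := by
    apply Subtype.ext
    exact D.τ_mul E v w

/-- `G X` on `V`. -/
def GR (X : Γ) (v : V) : D.RR E := D.mkR E (E.G X (D.j v)) (D.good_G E X v)
/-- `F X` on `V`. -/
def FR (X : Γ) (v : V) : D.RR E := D.mkR E (E.F X (D.j v)) (D.good_F E X v)

theorem tR_coe (v : V) : (D.tR E v : AddMonoid.End A) = E.τ (D.j v) := rfl
theorem GR_coe (X : Γ) (v : V) : (D.GR E X v : AddMonoid.End A) = E.G X (D.j v) := rfl
theorem FR_coe (X : Γ) (v : V) : (D.FR E X v : AddMonoid.End A) = E.F X (D.j v) := rfl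

theorem cast_inv {p : ℕ} (hp : p.Prime) (hpA : ∀ a : A, p • a = 0) {m : ℕ} (hm : Nat.Coprime m p) :
    ∃ c : D.RR E, c * (m : D.RR E) = 1 := by
  obtain ⟨c, -, hc⟩ := Nat.exists_mul_mod_eq_one_of_coprime hm hp.one_lt
  have hp0 : (p : D.RR E) = 0 := by
    apply Subtype.ext
    ext a
    have : ((p : D.RR E) : AddMonoid.End A) a = p • a := by
      rw [Subring.coe_natCast]; rfl
    rw [this, hpA]; rfl
  refine ⟨c, ?_⟩
  have h1 : ((m * c : ℕ) : D.RR E) = 1 := by
    rw [← Nat.mod_add_div (m * c) p, hc]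
    push_cast
    rw [hp0]; ring
  push_cast at h1
  rw [mul_comm]; exact h1

theorem sum_tR [Fintype V] (hA : ∀ a : A, (∀ v, E.τ (D.j v) a = a) → a = 0) :
    ∑ v, D.tR E v = 0 := by
  apply Subtype.ext
  ext a
  apply hA
  intro w
  have h1 : ((∑ v, D.tR E v : D.RR E) : AddMonoid.End A) = ∑ v, E.τ (D.j v) := by
    rw [AddSubmonoidClass.coe_finsetSum]
    rfl
  rw [h1]
  have h2 : E.τ (D.j w) * ∑ v, E.τ (D.j v) = ∑ v, E.τ (D.j v) := by
    rw [Finset.mul_sum]
    exact Fintype.sum_equiv (Equiv.mulLeft w) _ _ (fun v => (D.τ_mul E w v).symm)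
  exact congrArg (fun g : AddMonoid.End A => g a) h2

theorem GR_pow {q : ℕ} (hq : ∀ v : V, v ^ q = 1) (X : Γ) (v : V) : D.GR E X v ^ q = 1 := by
  apply Subtype.ext
  exact D.good_pow E (D.good_G E X v) hq
theorem FR_pow {q : ℕ} (hq : ∀ v : V, v ^ q = 1) (X : Γ) (v : V) : D.FR E X v ^ q = 1 := by
  apply Subtype.ext
  exact D.good_pow E (D.good_F E X v) hq

/-- cross identity -/
theorem cross (X : Γ) (w v : V) :
    D.FR E X (w * v) * D.GR E X w ^ 2 * (D.tR E w - 1) + D.GR E X (w * v) * D.FR E X w *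
      (D.tR E v - 1) = D.GR E X (w * v) * (D.tR E (w * v) - 1) * D.FR E X w * D.GR E X w := by
  -- (X0)
  have h0 : D.FR E (X * D.j w) v * D.GR E X w * (D.tR E w - 1) + D.GR E (X * D.j w) v *
      (D.tR E v - 1) = D.GR E X (w * v) * (D.tR E (w * v) - 1) := by
    apply Subtype.ext
    have e1 := E.derτ X (D.j w)
    have e2 := E.derτ (X * D.j w) (D.j v)
    have e3 := E.derτ X (D.j (w * v))
    simp only at e1 e2 e3
    rw [D.assoc, e1, e3, D.coc_F E] at e2
    change E.F (X * D.j w) (D.j v) * E.G X (D.j w) * (E.τ (D.j w) - 1) + E.G (X * D.j w) (D.j v) *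
      (E.τ (D.j v) - 1) = E.G X (D.j (w * v)) * (E.τ (D.j (w * v)) - 1)
    have e4 := sub_eq_zero.2 e2
    apply sub_eq_zero.1
    rw [← neg_eq_zero, ← e4]
    noncomm_ring
  have hG : D.GR E X (w * v) = D.GR E (X * D.j w) v * D.GR E X w :=
    Subtype.ext (D.coc_G E X w v)
  have hF : D.FR E X (w * v) = D.FR E (X * D.j w) v * D.FR E X w :=
    Subtype.ext (D.coc_F E X w v)
  rw [hF]
  linear_combination (D.FR E X w * D.GR E X w) * h0 + (D.FR E X w * (D.tR E v - 1)) * hG

end VD

end H13.ALoop
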