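import Mathlib
import Pool.Agent.Hhelper13.ALoop.VLevel2
import Pool.Agent.Hhelper13.ALoop.FixedPt

set_option autoImplicit false
set_option linter.unusedSectionVars false

namespace H13.ALoop

namespace VD

variable {V Γ Δ A Q : Type} [CommGroup V] [MulOneClass Γ] [IsALoop Γ] [MulOneClass Δ] [IsALoop Δ]
  [AddCommGroup A] [MulOneClass Q] [IsALoop Q] (E : Ext A Q Γ) (D : VD V Γ Δ)

open scoped IsMulCommutative

theorem card_inv [Finite V] {p q : ℕ} (hp : p.Prime) (hq : q.Prime) (hpq : p ≠ q)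
    (hexp : ∀ v : V, v ^ q = 1) : Nat.Coprime (Nat.card V) p := by
  obtain ⟨n, hn⟩ := card_eq_pow_of_exponent hq hexp
  rw [hn]
  exact Nat.Coprime.pow_left n ((Nat.coprime_primes hq hp).2 hpq.symm)

theorem coprime_card [Finite V] {q r : ℕ} (hq : q.Prime) (hr : r.Prime) (hqr : q ≠ r)
    (hexp : ∀ v : V, v ^ q = 1) : (Nat.card V).Coprime r := card_inv hr hq hqr.symm hexp

theorem sum_tR_pow [Fintype V] (hA : ∀ a : A, (∀ v, E.τ (D.j v) a = a) → a = 0) {r : ℕ}
    (hr : (Nat.card V).Coprime r) : ∑ v, D.tR E v ^ r = 0 := by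
  rw [← D.sum_tR E hA]
  apply Fintype.sum_equiv (powCoprime hr)
  intro v
  rw [← map_pow]
  rfl

/-- consequence of the algebraic lemma -/
theorem exists_s [Fintype V] [Finite A] {p q : ℕ} (hp : p.Prime) (hpA : ∀ a : A, p • a = 0)
    (hq : q.Prime) (hpq : p ≠ q) (hexp : ∀ v : V, v ^ q = 1)
    (hA : ∀ a : A, (∀ v, E.τ (D.j v) a = a) → a = 0) (X : Γ) :
    ∃ s : D.RR E, s * s = s ∧ (∀ v, D.GR E X v = (1 - s) + s * D.tR E v⁻¹) ∧
      (∀ v, D.FR E X v = (1 - s) * D.tR E v + s * D.tR E v⁻¹) := by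
  obtain ⟨n', hn'⟩ := D.cast_inv E hp hpA (card_inv (V := V) hp hq hpq hexp)
  rw [Nat.card_eq_fintype_card] at hn'
  have hG : ∀ v, D.GR E X v * (D.GR E X v) ^ (q - 1) = 1 := by
    intro v
    rw [← pow_succ', Nat.sub_add_cancel hq.one_lt.le, D.GR_pow E hexp]
  have hGi : ∀ v, (((D.GR E X v) ^ (q - 1) : D.RR E) : AddMonoid.End A) = E.Gi X (D.j v) := by
    intro v
    have h1 := congrArg Subtype.val (hG v)
    have h2 : E.G X (D.j v) * (((D.GR E X v) ^ (q - 1) : D.RR E) : AddMonoid.End A) = 1 := h1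
    calc (((D.GR E X v) ^ (q - 1) : D.RR E) : AddMonoid.End A)
        = (E.Gi X (D.j v) * E.G X (D.j v)) * (((D.GR E X v) ^ (q - 1) : D.RR E) :
          AddMonoid.End A) := by rw [E.Gi_G, one_mul]
      _ = E.Gi X (D.j v) := by rw [mul_assoc, h2, mul_one]
  refine AL1 (D.tR E) n' hn' (D.sum_tR E hA) (D.GR E X) (fun v => (D.GR E X v) ^ (q - 1))
    (D.FR E X) hG ?_ ?_ (D.cross E X) ?_
  · intro v w
    apply Subtype.ext
    have h := E.derG X (D.j v) (D.j w)
    simp only [D.F_VV E, D.G_VV E, one_mul, ← map_mul] at h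
    change (((D.GR E X (v * w)) ^ (q - 1) : D.RR E) : AddMonoid.End A) - 1 = E.τ (D.j w) *
      ((((D.GR E X v) ^ (q - 1) : D.RR E) : AddMonoid.End A) - 1) +
      ((((D.GR E X w) ^ (q - 1) : D.RR E) : AddMonoid.End A) - 1)
    rw [hGi, hGi, hGi]
    exact h
  · intro v w
    apply Subtype.ext
    have h := E.derR X (D.j v) (D.j w)
    simp only [D.F_VV E, D.G_VV E, one_mul, ← map_mul] at h
    change (((D.GR E X (v * w)) ^ (q - 1) : D.RR E) : AddMonoid.End A) * E.F X (D.j (v * w)) - 1 =
      E.τ (D.j w) *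
      ((((D.GR E X v) ^ (q - 1) : D.RR E) : AddMonoid.End A) * E.F X (D.j v) - 1) +
      ((((D.GR E X w) ^ (q - 1) : D.RR E) : AddMonoid.End A) * E.F X (D.j w) - 1)
    rw [hGi, hGi, hGi]
    exact h
  · by_cases hq2 : q = 2
    · right
      subst hq2
      refine ⟨?_, ?_, ?_, ?_⟩
      · obtain ⟨c, hc⟩ := D.cast_inv E hp hpA ((Nat.coprime_primes hq hp).2 hpq.symm)
        exact ⟨c, by simpa using hc⟩
      · intro v
        rw [← map_pow, hexp, map_one]
      · exact D.GR_pow E hexp X
      · exact D.FR_pow E hexp X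
    · left
      exact D.sum_tR_pow E hA (coprime_card hq Nat.prime_two hq2 hexp)

theorem ring_step {M : Type} [Ring M] {F' T Z g K F'' : M} (h6 : (F' * T + Z) * g = F' * T)
    (hK : g * K = 1) (hF : F'' * F' = 1) : T * (K - 1) = F'' * Z := by
  have h1 : F' * T + Z = F' * T * K := by
    calc F' * T + Z = (F' * T + Z) * (g * K) := by rw [hK, mul_one]
      _ = F' * T * K := by rw [← mul_assoc, h6]
  have h2 : F'' * (F' * T + Z) = F'' * (F' * T * K) := by rw [h1]
  have h3 : F'' * (F' * T + Z) = T + F'' * Z := by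
    rw [mul_add, ← mul_assoc, hF, one_mul]
  have h4 : F'' * (F' * T * K) = T * K := by
    rw [← mul_assoc, ← mul_assoc, hF, one_mul]
  rw [h3, h4] at h2
  rw [mul_sub, mul_one, ← h2, add_sub_cancel_left]

/-- chosen idempotent -/
theorem main_V [Fintype V] [Finite A] {p q : ℕ} (hp : p.Prime) (hpA : ∀ a : A, p • a = 0)
    (hq : q.Prime) (hpq : p ≠ q) (hexp : ∀ v : V, v ^ q = 1)
    (hA : ∀ a : A, (∀ v, E.τ (D.j v) a = a) → a = 0) (X : Γ) :
    (∀ v, E.G X (D.j v) = 1) ∧ (∀ v, E.F X (D.j v) = E.τ (D.j v)) := by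
  have hs := D.exists_s E hp hpA hq hpq hexp hA
  choose s hss hG hF using hs
  obtain ⟨n', hn'⟩ := D.cast_inv E hp hpA (card_inv (V := V) hp hq hpq hexp)
  rw [Nat.card_eq_fintype_card] at hn'
  have htt : ∀ v, D.tR E v * D.tR E v⁻¹ = 1 := by
    intro v
    rw [← map_mul, mul_inv_cancel, map_one]
  have hzero : ∀ {a : D.RR E}, (∀ v, (D.tR E v - 1) * a = 0) → a = 0 := fun {a} h =>
    zero_of_D (D.tR E) n' hn' (D.sum_tR E hA) h
  -- G, F depend on X only modulo V
  have hFinv : ∀ X w v, D.FR E (X * D.j w) v = D.FR E X v := by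
    intro X w v
    have h1 : D.FR E X (w * v) = D.FR E (X * D.j w) v * D.FR E X w :=
      Subtype.ext (D.coc_F E X w v)
    have h2 : D.FR E X (w * v) = D.FR E X v * D.FR E X w := by
      rw [hF, hF, hF, mul_inv, map_mul, map_mul]
      linear_combination (D.tR E w * D.tR E v⁻¹ + D.tR E v * D.tR E w⁻¹ - D.tR E w * D.tR E v -
        D.tR E v⁻¹ * D.tR E w⁻¹) * hss X
    have h3 : D.FR E X w * D.FR E X w ^ (q - 1) = 1 := by
      rw [← pow_succ', Nat.sub_add_cancel hq.one_lt.le, D.FR_pow E hexp]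
    have h4 : D.FR E (X * D.j w) v * D.FR E X w = D.FR E X v * D.FR E X w := by rw [← h1, h2]
    linear_combination (D.FR E X w ^ (q - 1)) * h4 - (D.FR E (X * D.j w) v - D.FR E X v) * h3
  -- (c5)
  have hc5 : ∀ X v, E.G (D.j v) X = ((D.FR E X v * D.tR E v⁻¹ : D.RR E) : AddMonoid.End A) := by
    intro X v
    have h1 := E.c5 (D.j v) X
    obtain ⟨w, hw⟩ : ∃ w, Tm (D.j v) X = X * D.j w := by
      apply D.liftV
      rw [map_Tm, D.ϖj, Tm_one]
    rw [hw] at h1
    have h2 : E.F (X * D.j w) (D.j v) = E.F X (D.j v) := congrArg Subtype.val (hFinv X w v)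
    rw [h2] at h1
    have h3 : E.τ (D.j v) * E.τ (D.j v⁻¹) = 1 := congrArg Subtype.val (htt v)
    change _ = E.F X (D.j v) * E.τ (D.j v⁻¹)
    rw [← h1, mul_assoc, h3, mul_one]
  -- (M2)
  have hM2 : ∀ X v, E.τ (iv X) * ((s X * (D.tR E v ^ 2 - 1) : D.RR E) : AddMonoid.End A) =
      ((2 * s (iv X) * (D.tR E v⁻¹ - 1) : D.RR E) : AddMonoid.End A) := by
    intro X v
    have h6 := E.c6 (D.j v) X
    rw [D.iv_j] at h6
    have h4 := E.derτ (iv X) (D.j v⁻¹)
    simp only at h4
    have h4' : E.τ (iv X * D.j v⁻¹) = E.F (iv X) (D.j v⁻¹) * E.τ (iv X) +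
        ((1 - D.FR E (iv X) v⁻¹ + D.GR E (iv X) v⁻¹ * (D.tR E v⁻¹ - 1) : D.RR E) :
          AddMonoid.End A) := by
      change _ = E.F (iv X) (D.j v⁻¹) * E.τ (iv X) + (1 - E.F (iv X) (D.j v⁻¹) +
        E.G (iv X) (D.j v⁻¹) * (E.τ (D.j v⁻¹) - 1))
      have e := sub_eq_zero.2 h4
      apply sub_eq_zero.1
      rw [← e]
      noncomm_ring
    have hZ : (1 - D.FR E (iv X) v⁻¹ + D.GR E (iv X) v⁻¹ * (D.tR E v⁻¹ - 1) : D.RR E) =
        2 * s (iv X) * (1 - D.tR E v) := by
      rw [hF, hG, inv_inv]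
      linear_combination (s (iv X)) * htt v
    rw [h4', hZ, hc5] at h6
    -- K
    have hK : (D.FR E X v * D.tR E v⁻¹) * ((1 - s X) + s X * D.tR E v ^ 2) = (1 : D.RR E) := by
      rw [hF]
      linear_combination (D.tR E v * D.tR E v⁻¹ + D.tR E v⁻¹ ^ 2 * D.tR E v ^ 2 -
        D.tR E v⁻¹ ^ 2 - D.tR E v ^ 3 * D.tR E v⁻¹) * hss X + (1 - s X +
        s X * (D.tR E v * D.tR E v⁻¹ + 1)) * htt v
    have hF'' : ((1 - s (iv X)) * D.tR E v + s (iv X) * D.tR E v⁻¹) * D.FR E (iv X) v⁻¹ =
        (1 : D.RR E) := by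
      rw [hF, inv_inv]
      linear_combination (2 * D.tR E v * D.tR E v⁻¹ - D.tR E v ^ 2 - D.tR E v⁻¹ ^ 2) *
        hss (iv X) + htt v
    have hK' : ((D.FR E X v * D.tR E v⁻¹ : D.RR E) : AddMonoid.End A) *
        (((1 - s X) + s X * D.tR E v ^ 2 : D.RR E) : AddMonoid.End A) = 1 :=
      congrArg Subtype.val hK
    have hF' : ((((1 - s (iv X)) * D.tR E v + s (iv X) * D.tR E v⁻¹ : D.RR E)) :
        AddMonoid.End A) * E.F (iv X) (D.j v⁻¹) = 1 := congrArg Subtype.val hF''
    have h9 := ring_step h6 hK' hF'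
    have h10 : (((1 - s X) + s X * D.tR E v ^ 2 : D.RR E) : AddMonoid.End A) - 1 =
        ((s X * (D.tR E v ^ 2 - 1) : D.RR E) : AddMonoid.End A) := by
      have : ((1 - s X) + s X * D.tR E v ^ 2 : D.RR E) - 1 = s X * (D.tR E v ^ 2 - 1) := by ring
      rw [← this]; rfl
    have h11 : ((((1 - s (iv X)) * D.tR E v + s (iv X) * D.tR E v⁻¹ : D.RR E)) :
        AddMonoid.End A) * ((2 * s (iv X) * (1 - D.tR E v) : D.RR E) : AddMonoid.End A) =
        ((2 * s (iv X) * (D.tR E v⁻¹ - 1) : D.RR E) : AddMonoid.End A) := by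
      have : ((1 - s (iv X)) * D.tR E v + s (iv X) * D.tR E v⁻¹ : D.RR E) *
          (2 * s (iv X) * (1 - D.tR E v)) = 2 * s (iv X) * (D.tR E v⁻¹ - 1) := by
        linear_combination (2 * (1 - D.tR E v) * (D.tR E v⁻¹ - D.tR E v)) * hss (iv X) -
          2 * s (iv X) * htt v
      rw [← this]; rfl
    rw [h10, h11] at h9
    exact h9
  have hTunit : ∀ X, E.τ (iv X) * E.τ X = 1 ∧ E.τ X * E.τ (iv X) = 1 := fun X =>
    ⟨E.τ_iv X, E.τ_iv' X⟩
  have hs0 : ∀ X, s X = 0 := by
    by_cases hq2 : q = 2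
    · subst hq2
      obtain ⟨c, hc⟩ := D.cast_inv E hp hpA ((Nat.coprime_primes hq hp).2 hpq.symm)
      have ht2 : ∀ v, D.tR E v ^ 2 = 1 := by
        intro v
        rw [← map_pow, hexp, map_one]
      intro X
      have h1 : ∀ v, (D.tR E v - 1) * (2 * s X) = 0 := by
        intro v
        have h2 := hM2 (iv X) v⁻¹
        rw [iv_iv, inv_inv, ht2, sub_self, mul_zero] at h2
        have h3 : ((2 * s X * (D.tR E v - 1) : D.RR E) : AddMonoid.End A) = 0 := by
          rw [← h2]; exact mul_zero _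
        have h4 : (2 * s X * (D.tR E v - 1) : D.RR E) = 0 := Subtype.ext h3
        rw [mul_comm]; exact h4
      have h2 := hzero h1
      push_cast at hc
      linear_combination c * h2 - s X * hc
    · by_cases hq3 : q = 3
      · subst hq3
        obtain ⟨c, hc⟩ := D.cast_inv E hp hpA ((Nat.coprime_primes hq hp).2 hpq.symm)
        have ht3 : ∀ v, D.tR E v ^ 2 = D.tR E v⁻¹ := by
          intro v
          rw [← map_pow]
          congr 1
          rw [eq_inv_iff_mul_eq_one, ← pow_succ]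
          exact hexp v
        -- T * s X = 2 * s (iv X)
        have h1 : ∀ X, E.τ (iv X) * (s X : AddMonoid.End A) =
            ((2 * s (iv X) : D.RR E) : AddMonoid.End A) := by
          intro X
          have h2 : ∀ v, E.τ (iv X) * ((s X * (D.tR E v - 1) : D.RR E) : AddMonoid.End A) =
              ((2 * s (iv X) * (D.tR E v - 1) : D.RR E) : AddMonoid.End A) := by
            intro v
            have h3 := hM2 X v⁻¹
            rw [ht3, inv_inv] at h3
            exact h3
          have h3 : E.τ (iv X) * ((s X * ∑ v, (D.tR E v - 1) : D.RR E) : AddMonoid.End A) =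
              ((2 * s (iv X) * ∑ v, (D.tR E v - 1) : D.RR E) : AddMonoid.End A) := by
            rw [Finset.mul_sum, Finset.mul_sum, AddSubmonoidClass.coe_finsetSum,
              AddSubmonoidClass.coe_finsetSum, Finset.mul_sum]
            exact Finset.sum_congr rfl (fun v _ => h2 v)
          rw [sumD (D.tR E) n' hn' (D.sum_tR E hA)] at h3
          have h4 : E.τ (iv X) * ((s X * -(Fintype.card V : D.RR E) : D.RR E) : AddMonoid.End A) *
              ((-n' : D.RR E) : AddMonoid.End A) =
              ((2 * s (iv X) * -(Fintype.card V : D.RR E) : D.RR E) : AddMonoid.End A) *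
              ((-n' : D.RR E) : AddMonoid.End A) := by rw [h3]
          have h5 : ∀ a : D.RR E, ((a * -(Fintype.card V : D.RR E) : D.RR E) : AddMonoid.End A) *
              ((-n' : D.RR E) : AddMonoid.End A) = a := by
            intro a
            have : (a * -(Fintype.card V : D.RR E)) * (-n') = a := by
              linear_combination a * hn'
            exact congrArg Subtype.val this
          rw [mul_assoc, h5, h5] at h4
          exact h4
        intro X
        have h2 := h1 X
        have h3 := h1 (iv X)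
        rw [iv_iv] at h3
        have h4 : E.τ (iv X) * (E.τ X * (s (iv X) : AddMonoid.End A)) = (s (iv X) : AddMonoid.End A) := by
          rw [← mul_assoc, (hTunit X).1, one_mul]
        have h5 : E.τ X * (E.τ (iv X) * (s X : AddMonoid.End A)) = (s X : AddMonoid.End A) := by
          rw [← mul_assoc, (hTunit X).2, one_mul]
        rw [h2] at h5
        have h6 : E.τ X * ((2 * s (iv X) : D.RR E) : AddMonoid.End A) =
            ((4 * s X : D.RR E) : AddMonoid.End A) := by
          have e1 : ((2 * s (iv X) : D.RR E) : AddMonoid.End A) =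
              (s (iv X) : AddMonoid.End A) + (s (iv X) : AddMonoid.End A) := by
            rw [two_mul]; rfl
          have e2 : (4 * s X : D.RR E) = 2 * s X + 2 * s X := by ring
          rw [e1, mul_add, h3, e2]; rfl
        rw [h6] at h5
        have h7 : (4 * s X : D.RR E) = s X := Subtype.ext h5
        push_cast at hc
        linear_combination c * h7 - s X * hc
      · have hc2 := coprime_card hq Nat.prime_two hq2 hexp
        have hc3 := coprime_card hq Nat.prime_three hq3 hexp
        intro X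
        have h1 : ∀ v w, s X * (D.tR E v ^ 2 - 1) * (D.tR E w ^ 3 - 1) = 0 := by
          intro v w
          -- multiplicativity
          have a1 := hM2 X v
          have a2 := hM2 X w
          have a3 := hM2 X (v * w)
          have b1 : s X * (D.tR E (v * w) ^ 2 - 1) = s X * (D.tR E v ^ 2 - 1) * D.tR E w ^ 2 +
              s X * (D.tR E w ^ 2 - 1) := by rw [map_mul]; ring
          have b2 : 2 * s (iv X) * (D.tR E (v * w)⁻¹ - 1) =
              2 * s (iv X) * (D.tR E v⁻¹ - 1) * D.tR E w⁻¹ + 2 * s (iv X) * (D.tR E w⁻¹ - 1) := by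
            rw [mul_inv, map_mul]; ring
          rw [b1, b2] at a3
          have a4 : E.τ (iv X) * ((s X * (D.tR E v ^ 2 - 1) : D.RR E) : AddMonoid.End A) *
              ((D.tR E w ^ 2 : D.RR E) : AddMonoid.End A) +
              E.τ (iv X) * ((s X * (D.tR E w ^ 2 - 1) : D.RR E) : AddMonoid.End A) =
              ((2 * s (iv X) * (D.tR E v⁻¹ - 1) : D.RR E) : AddMonoid.End A) *
              ((D.tR E w⁻¹ : D.RR E) : AddMonoid.End A) +
              ((2 * s (iv X) * (D.tR E w⁻¹ - 1) : D.RR E) : AddMonoid.End A) := by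
            rw [mul_assoc, ← mul_add]; exact a3
          rw [← a1, a2, add_left_inj, mul_assoc, mul_assoc] at a4
          have a5 : ((s X * (D.tR E v ^ 2 - 1) : D.RR E) : AddMonoid.End A) *
              ((D.tR E w ^ 2 : D.RR E) : AddMonoid.End A) =
              ((s X * (D.tR E v ^ 2 - 1) : D.RR E) : AddMonoid.End A) *
              ((D.tR E w⁻¹ : D.RR E) : AddMonoid.End A) := by
            have := congrArg (fun g => E.τ X * g) a4
            simp only [← mul_assoc] at this
            rw [(hTunit X).2, one_mul] at this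
            exact this
          have a6 : s X * (D.tR E v ^ 2 - 1) * D.tR E w ^ 2 =
              s X * (D.tR E v ^ 2 - 1) * D.tR E w⁻¹ := Subtype.ext a5
          linear_combination D.tR E w * a6 + (s X * (D.tR E v ^ 2 - 1)) * htt w
        have h2 : (∑ v, (D.tR E v ^ 2 - 1)) * (∑ w, (D.tR E w ^ 3 - 1)) * s X = 0 := by
          rw [Finset.sum_mul_sum, Finset.sum_mul]
          apply Finset.sum_eq_zero
          intro v _
          rw [Finset.sum_mul]
          apply Finset.sum_eq_zero
          intro w _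
          linear_combination h1 v w
        rw [Finset.sum_sub_distrib, Finset.sum_sub_distrib, D.sum_tR_pow E hA hc2,
          D.sum_tR_pow E hA hc3] at h2
        simp only [Finset.sum_const, Finset.card_univ, nsmul_eq_mul, mul_one, zero_sub] at h2
        linear_combination n' ^ 2 * h2 - s X * (n' * (Fintype.card V : D.RR E) + 1) * hn'
  constructor
  · intro v
    have := hG X v
    rw [hs0, sub_zero, zero_mul, add_zero] at this
    exact congrArg Subtype.val this
  · intro v
    have := hF X v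
    rw [hs0, sub_zero, zero_mul, add_zero, one_mul] at this
    exact congrArg Subtype.val this

end VD

end H13.ALoop
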