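import Mathlib
import Pool.Agent.Hhelper13.ALoop.VLevel3

set_option autoImplicit false
set_option linter.unusedSectionVars false

namespace H13.ALoop

namespace VD

variable {V Γ Δ A Q : Type} [CommGroup V] [MulOneClass Γ] [IsALoop Γ] [MulOneClass Δ] [IsALoop Δ]
  [AddCommGroup A] [MulOneClass Q] [IsALoop Q] (E : Ext A Q Γ) (D : VD V Γ Δ)

theorem der_zero (hA : ∀ a : A, (∀ v, E.τ (D.j v) a = a) → a = 0)
    (hF : ∀ X v, E.F X (D.j v) = E.τ (D.j v))
    (δ : Γ → A) (hδ : ∀ X Y, δ (X * Y) = E.F X Y (δ X) + E.G X Y (δ Y))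
    (hV : ∀ v, δ (D.j v) = 0) (X : Γ) : δ X = 0 := by
  apply hA
  intro w
  -- v := Tm X (j w)
  obtain ⟨v, hv⟩ : ∃ v, D.j v = Tm X (D.j w) := by
    rw [← D.ker, map_Tm, D.ϖj, map_one']
  have h1 : D.j v * X = X * D.j w := by rw [hv, ← Tm_spec]
  have h2 : δ (X * D.j w) = E.τ (D.j w) (δ X) := by
    rw [hδ, hV, map_zero, add_zero, hF]
  have hG1 : E.G (D.j v) X = 1 := by
    have h3 := E.c5 (D.j v) X
    rw [hF] at h3
    have h4 : E.G (D.j v) X * E.τ (D.j v) * E.τ (iv (D.j v)) =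
      E.τ (D.j v) * E.τ (iv (D.j v)) := by rw [h3]
    rw [mul_assoc, E.τ_iv', mul_one] at h4
    exact h4
  have h3 : δ (D.j v * X) = δ X := by
    rw [hδ, hV, map_zero, zero_add, hG1]; rfl
  rw [← h2, ← h1, h3]

theorem global [Finite A] (hA : ∀ a : A, (∀ v, E.τ (D.j v) a = a) → a = 0)
    (hG : ∀ X v, E.G X (D.j v) = 1) (hF : ∀ X v, E.F X (D.j v) = E.τ (D.j v)) (X Y : Γ) :
    E.G X Y = 1 ∧ E.F X Y = E.τ Y := by
  have hGi : ∀ X v, E.Gi X (D.j v) = 1 := by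
    intro X v
    have := E.G_Gi X (D.j v)
    rw [hG, one_mul] at this
    exact this
  have h1 : ∀ Z, E.Gi X Z = 1 := by
    intro Z
    ext a
    have h2 := D.der_zero E hA hF (fun Z => (E.Gi X Z - 1) a) (fun Y Z =>
      congrArg (fun g : AddMonoid.End A => g a) (E.derG X Y Z)) (fun v => by simp only [hGi, sub_self]; rfl) Z
    exact sub_eq_zero.1 h2
  have h2 : ∀ Z, E.G X Z = 1 := by
    intro Z
    have := E.G_Gi X Z
    rw [h1, mul_one] at this
    exact this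
  refine ⟨h2 Y, ?_⟩
  ext a
  have h3 := D.der_zero E hA hF (fun Z => (E.τ Z - E.Gi X Z * E.F X Z) a) (fun Y Z =>
      congrArg (fun g : AddMonoid.End A => g a) (E.derF X Y Z)) (fun v => by simp only [hGi, hF, one_mul, sub_self]; rfl) Y
  rw [h1, one_mul] at h3
  exact (sub_eq_zero.1 h3).symm

end VD

end H13.ALoop
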