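import Mathlib
import Pool.Agent.Hhelper13.ALoop.ExtFacts

set_option autoImplicit false
set_option linter.unusedSectionVars false

namespace H13.ALoop

section sums
variable {Γ A : Type} [MulOneClass Γ] [IsALoop Γ] [Fintype Γ] [AddCommGroup A]

theorem sum_mul_r (f : Γ → A) (y : Γ) : ∑ z, f (z * y) = ∑ z, f z :=
  Fintype.sum_equiv (Equiv.ofBijective _ (IsALoop.right_bij y)) _ _ (fun _ => rfl)

theorem sum_aut (f : Γ → A) (φ : MulAut Γ) : ∑ z, f (φ z) = ∑ z, f z :=
  Fintype.sum_equiv φ.toEquiv _ _ (fun _ => rfl)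

theorem sum_iv (f : Γ → A) : ∑ z, f (iv z) = ∑ z, f z := by
  have hinv : Function.Involutive (iv : Γ → Γ) := iv_iv
  exact Fintype.sum_equiv (hinv.toPerm _) _ _ (fun _ => rfl)

end sums

namespace Ext

variable {A Q Γ : Type} [AddCommGroup A] [MulOneClass Q] [MulOneClass Γ] [IsALoop Q] [IsALoop Γ]
  (E : Ext A Q Γ)

theorem nuclear [Fintype Γ] (hG : ∀ X Y, E.G X Y = 1) (hF : ∀ X Y, E.F X Y = E.τ Y)
    (hA : ∀ a : A, (∀ X, E.τ X a = a) → a = 0) (m' : ℕ)
    (hm : ∀ a : A, m' • (Fintype.card Γ • a) = a) :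
    ∃ s : Γ → Q, (∀ X, E.π (s X) = X) ∧ ∀ X Y, s X * s Y = s (X * Y) := by
  -- τ is an antihomomorphism
  have hτ : ∀ X Y a, E.τ (X * Y) a = E.τ Y (E.τ X a) := by
    intro X Y a
    have h := congrArg (fun g : AddMonoid.End A => g a) (E.derτ X Y)
    rw [hG, hF] at h
    have h' : E.τ (X * Y) a - a = E.τ Y (E.τ X a - a) + (E.τ Y a - a) := h
    rw [map_sub] at h'
    have h2 := sub_eq_zero.2 h'
    apply sub_eq_zero.1
    rw [← h2]
    abel
  have hmi : ∀ {a b : A}, Fintype.card Γ • a = Fintype.card Γ • b → a = b := by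
    intro a b h
    rw [← hm a, h, hm]
  have hmi' : ∀ {a b : A}, Fintype.card Γ • a = b → a = m' • b := by
    intro a b h
    rw [← h, hm]
  have hτinj : ∀ X {a b : A}, E.τ X a = E.τ X b → a = b := by
    intro X a b h
    have h2 : ∀ a, E.τ (iv X) (E.τ X a) = a := fun a =>
      congrArg (fun g : AddMonoid.End A => g a) (E.τ_iv X)
    rw [← h2 a, h, h2]
  have hsumτ : ∀ a, ∑ X, E.τ X a = 0 := by
    intro a
    apply hA
    intro Y
    rw [map_sum]
    simp only [← hτ]
    exact sum_mul_r (fun Z => E.τ Z a) Y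
  have hmul : ∀ (x y : Q) (a b : A), (x * E.ι a) * (y * E.ι b) =
      (x * y) * E.ι (E.τ (E.π y) a + b) := by
    intro x y a b
    rw [E.mulFG, hF, hG]; rfl
  -- initial section
  have hs₀ : ∃ s₀ : Γ → Q, ∀ X, E.π (s₀ X) = X :=
    ⟨Function.surjInv E.π_surj, Function.surjInv_eq E.π_surj⟩
  obtain ⟨s₀, hs₀⟩ := hs₀
  have hc₀ : ∀ X Y, ∃ c, s₀ X * s₀ Y = s₀ (X * Y) * E.ι c := by
    intro X Y
    apply E.lift
    rw [map_mul, hs₀, hs₀, hs₀]
  choose c₀ hc₀ using hc₀
  -- normalised section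
  obtain ⟨s, c, κ, hs, hc, hh⟩ : ∃ (s : Γ → Q) (c : Γ → Γ → A) (κ : A), (∀ X, E.π (s X) = X) ∧
      (∀ X Y, s X * s Y = s (X * Y) * E.ι (c X Y)) ∧ (∀ Y, ∑ Z, c Z Y = E.τ Y κ - κ) := by
    let k : Γ → A := fun Y => -(m' • ∑ Z, c₀ Z Y)
    refine ⟨fun X => s₀ X * E.ι (k X), fun X Y => c₀ X Y + (E.τ Y (k X) + k Y) - k (X * Y),
      ∑ Z, k Z, ?_, ?_, ?_⟩
    · intro X
      rw [map_mul, hs₀, E.πι, mul_one]
    · intro X Y
      simp only
      rw [hmul, hc₀, hs₀, E.assocR, E.assocR]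
      congr 2
      abel
    · intro Y
      simp only [Finset.sum_sub_distrib, Finset.sum_add_distrib]
      rw [sum_mul_r k Y, ← map_sum]
      have h1 : ∑ _Z : Γ, k Y = -∑ Z, c₀ Z Y := by
        rw [Finset.sum_const, Finset.card_univ]
        change Fintype.card Γ • (-(m' • ∑ Z, c₀ Z Y)) = _
        rw [smul_neg, smul_comm, hm]
      rw [h1]
      abel
  -- automorphisms
  have hℓ : ∀ (φ : MulAut Q) (φ' : MulAut Γ) (g : AddMonoid.End A), E.Rep φ φ' g →
      ∃ t : A, (∀ w, φ (s w) = s (φ' w) * E.ι (t - E.τ (φ' w) t)) ∧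
        ∀ z w, c (φ' z) (φ' w) = g (c z w) := by
    intro φ φ' g hr
    have h1 : ∀ w, ∃ l, φ (s w) = s (φ' w) * E.ι l := by
      intro w
      apply E.lift
      rw [hr.1, hs, hs]
    choose l hl using h1
    have hE1 : ∀ z w, c (φ' z) (φ' w) + (E.τ (φ' w) (l z) + l w) = l (z * w) + g (c z w) := by
      intro z w
      have h2 := congrArg φ (hc z w)
      rw [map_mul, map_mul, hl, hl, hl, hr.2, hmul, hs, hc, E.assocR, E.assocR, map_mul] at h2
      exact E.canc h2
    have h3 : ∀ w, Fintype.card Γ • l w = (∑ z, l z + κ - g κ) - E.τ (φ' w) (∑ z, l z + κ - g κ) := by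
      intro w
      have h4 : ∑ z, (c (φ' z) (φ' w) + (E.τ (φ' w) (l z) + l w)) =
          ∑ z, (l (z * w) + g (c z w)) := Finset.sum_congr rfl (fun z _ => hE1 z w)
      rw [Finset.sum_add_distrib, Finset.sum_add_distrib, Finset.sum_add_distrib,
        sum_aut (fun z => c z (φ' w)) φ', hh, ← map_sum, Finset.sum_const, Finset.card_univ,
        sum_mul_r l w, ← map_sum, hh, map_sub] at h4
      have h5 : g (E.τ w κ) = E.τ (φ' w) (g κ) :=
        congrArg (fun h : AddMonoid.End A => h κ) (hr.τ E w)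
      rw [h5] at h4
      rw [map_sub, map_add]
      have h6 := sub_eq_zero.2 h4
      apply sub_eq_zero.1
      rw [← h6]
      abel
    have h4 : ∀ w, l w = m' • (∑ z, l z + κ - g κ) - E.τ (φ' w) (m' • (∑ z, l z + κ - g κ)) := by
      intro w
      rw [hmi' (h3 w), smul_sub, map_nsmul]
    refine ⟨m' • (∑ z, l z + κ - g κ), ?_, ?_⟩
    · intro w
      rw [hl, ← h4]
    · intro z w
      have h5 := hE1 z w
      rw [h4 z, h4 w, h4 (z * w), map_mul, hτ, map_sub] at h5
      have h6 := sub_eq_zero.2 h5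
      apply sub_eq_zero.1
      rw [← h6]
      abel
  -- M-maps
  have hM : ∀ y x : Γ, ∃ a : A, E.τ x a = a ∧ c y x = E.τ (y * x) a ∧
      ∀ z, c (z * y) x + E.τ x (c z y) = c (Mm y x z) (y * x) +
        E.τ (y * x) (E.τ z a - a) + c y x := by
    intro y x
    obtain ⟨m, hm1, -⟩ := E.rep_Mm (s y) (s x)
    rw [hs, hs] at hm1
    obtain ⟨t, ht, -⟩ := hℓ _ _ _ hm1
    have hτM : ∀ z a, E.τ (Mm y x z) a = E.τ z a := by
      intro z a
      apply hτinj (y * x)
      rw [← hτ, ← Mm_spec, hτ, hτ, hτ]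
    have hN1 : ∀ z, c (z * y) x + E.τ x (c z y) = c (Mm y x z) (y * x) +
        E.τ (y * x) (t - E.τ z t) + c y x := by
      intro z
      have h1 : (s z * s y) * s x = s ((z * y) * x) * E.ι (c (z * y) x + E.τ x (c z y)) := by
        rw [hc z y, E.mulF, hc (z * y) x, E.assocR, hs, hF, hs]
      have h2 : (s z * s y) * s x = s ((z * y) * x) * E.ι (c (Mm y x z) (y * x) +
          (E.τ (y * x) (t - E.τ z t) + c y x)) := by
        rw [Mm_spec (s y) (s x) (s z), ht, hc y x, hmul, hc, E.assocR, hs, ← Mm_spec, hτM]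
      rw [add_assoc]
      exact E.canc (h1.symm.trans h2)
    have htx : E.τ x t = t := by
      have h1 := ht x
      rw [Mm_self, Mm_self] at h1
      have h2 : s x * E.ι 0 = s x * E.ι (t - E.τ x t) := by
        rw [E.ι_zero, mul_one]; exact h1
      have h3 := E.canc h2
      exact (sub_eq_zero.1 h3.symm).symm
    have hsum : Fintype.card Γ • c y x = Fintype.card Γ • (E.τ (y * x) (-t)) := by
      have h1 : ∑ z, (c (z * y) x + E.τ x (c z y)) = ∑ z, (c (Mm y x z) (y * x) +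
        E.τ (y * x) (t - E.τ z t) + c y x) := Finset.sum_congr rfl (fun z _ => hN1 z)
      rw [Finset.sum_add_distrib, Finset.sum_add_distrib, Finset.sum_add_distrib,
        sum_mul_r (fun z => c z x) y, hh, ← map_sum, hh, sum_aut (fun z => c z (y * x)), hh,
        ← map_sum, Finset.sum_sub_distrib, hsumτ, Finset.sum_const, Finset.card_univ,
        Finset.sum_const, Finset.card_univ, sub_zero, map_sub, hτ, hτ] at h1
      rw [map_neg, hτ, smul_neg, ← map_nsmul, ← map_nsmul]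
      have h6 := sub_eq_zero.2 h1
      apply sub_eq_zero.1
      rw [← neg_eq_zero, ← h6]
      abel
    refine ⟨-t, by rw [map_neg, htx], hmi hsum, ?_⟩
    intro z
    rw [hN1 z, map_neg, sub_neg_eq_add, neg_add_eq_sub]
  choose a ha1 ha2 ha3 using hM
  -- (N2)
  have hN2 : ∀ z y x, a (z * y) x + a z y = a (Mm y x z) (y * x) + a y x := by
    intro z y x
    have h1 := ha3 y x z
    rw [ha2 (z * y) x, ha2 z y, ha2 (Mm y x z) (y * x), ha2 y x, ← hτ, ← Mm_spec, map_sub] at h1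
    have h2 : E.τ (y * x) (E.τ z (a y x)) = E.τ (z * y * x) (a y x) := by
      rw [hτ, hτ, hτ]
    rw [h2] at h1
    apply hτinj (z * y * x)
    rw [map_add, map_add]
    have h6 := sub_eq_zero.2 h1
    apply sub_eq_zero.1
    rw [← h6]
    abel
  -- b
  let b : Γ → A := fun x => m' • ∑ z, a z x
  have hb0 : ∀ x, ∑ z, a z x = Fintype.card Γ • b x := by
    intro x
    change _ = Fintype.card Γ • (m' • ∑ z, a z x)
    rw [smul_comm, hm]
  have hab : ∀ y x, a y x = b x + b y - b (y * x) := by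
    intro y x
    have h1 : ∑ z, (a (z * y) x + a z y) = ∑ z, (a (Mm y x z) (y * x) + a y x) :=
      Finset.sum_congr rfl (fun z _ => hN2 z y x)
    rw [Finset.sum_add_distrib, Finset.sum_add_distrib, sum_mul_r (fun z => a z x),
      sum_aut (fun z => a z (y * x)), hb0, hb0, hb0, Finset.sum_const, Finset.card_univ] at h1
    apply hmi
    rw [smul_sub, smul_add, h1]
    abel
  have hbx : ∀ x, E.τ x (b x) = b x := by
    intro x
    change E.τ x (m' • ∑ z, a z x) = m' • ∑ z, a z x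
    rw [map_nsmul, map_sum]
    simp only [ha1]
  -- B = 0
  have hB : ∑ x, b x = 0 := by
    apply hA
    intro X
    have hr := E.rep_Tm_inv (s X)
    rw [hs] at hr
    obtain ⟨-, -, hcφ⟩ := hℓ _ _ _ hr
    have haφ : ∀ z w, a ((Tm X)⁻¹ z) ((Tm X)⁻¹ w) = E.τ X (a z w) := by
      intro z w
      have h1 := hcφ z w
      rw [ha2, ha2 z w] at h1
      have h2 : E.τ X (E.τ (z * w) (a z w)) = E.τ ((Tm X)⁻¹ (z * w)) (E.τ X (a z w)) :=
        congrArg (fun g : AddMonoid.End A => g (a z w)) (hr.τ E (z * w))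
      rw [h2, map_mul] at h1
      exact hτinj _ h1
    have hbφ : ∀ w, b ((Tm X)⁻¹ w) = E.τ X (b w) := by
      intro w
      change m' • ∑ z, a z ((Tm X)⁻¹ w) = E.τ X (m' • ∑ z, a z w)
      rw [map_nsmul, map_sum, ← sum_aut (fun z => a z ((Tm X)⁻¹ w)) (Tm X)⁻¹]
      simp only [haφ]
    rw [map_sum]
    simp only [← hbφ]
    exact sum_aut b (Tm X)⁻¹
  have hb : ∀ y, b y = 0 := by
    intro y
    have h1 : ∀ x, b y - E.τ (iv x) (b y) = b (y * x) - E.τ y (b (y * x)) := by
      intro x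
      have h2 : ∀ a, E.τ x (E.τ (iv x) a) = a := fun a =>
        congrArg (fun g : AddMonoid.End A => g a) (E.τ_iv' x)
      apply hτinj x
      rw [map_sub, map_sub, h2, ← hτ, hbx]
      have h3 := ha1 y x
      rw [hab, map_sub, map_add, hbx] at h3
      have h6 := sub_eq_zero.2 h3
      apply sub_eq_zero.1
      rw [← h6]
      abel
    have h2 : ∑ x, (b y - E.τ (iv x) (b y)) = ∑ x, (b (y * x) - E.τ y (b (y * x))) :=
      Finset.sum_congr rfl (fun x _ => h1 x)
    have h3 : ∑ x, b (y * x) = 0 := by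
      rw [← hB]
      exact Fintype.sum_equiv (Equiv.ofBijective _ (IsALoop.left_bij y)) _ _ (fun _ => rfl)
    rw [Finset.sum_sub_distrib, Finset.sum_sub_distrib, sum_iv (fun x => E.τ x (b y)), hsumτ,
      ← map_sum, h3, map_zero, Finset.sum_const, Finset.card_univ, sub_zero, sub_zero] at h2
    rw [hmi' h2, smul_zero]
  refine ⟨s, hs, ?_⟩
  intro X Y
  rw [hc, ha2, hab, hb, hb, hb, add_zero, sub_zero, map_zero, E.ι_zero, mul_one]

end Ext

end H13.ALoop
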