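import Mathlib
import Pool.Agent.Hhelper13.ALoop.AssocLemma
import Pool.Agent.Hhelper13.ALoop.Central
import Pool.Agent.Hhelper13.ALoop.Nuclear
import Pool.Agent.Hhelper13.ALoop.Global

set_option autoImplicit false
set_option linter.unusedSectionVars false

namespace H13.ALoop

theorem exists_m' {A : Type} [AddCommGroup A] {p : ℕ} (hp : p.Prime) (hpA : ∀ a : A, p • a = 0)
    {m : ℕ} (hm : Nat.Coprime m p) : ∃ m' : ℕ, ∀ a : A, m' • (m • a) = a := by
  obtain ⟨c, -, hc⟩ := Nat.exists_mul_mod_eq_one_of_coprime hm hp.one_lt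
  refine ⟨c, fun a => ?_⟩
  rw [← mul_nsmul, ← Nat.mod_add_div (m * c) p, hc, add_nsmul, mul_nsmul, hpA, one_nsmul,
    smul_zero, add_zero]

theorem prime_dvd_card_of_exponent {V : Type} [CommGroup V] [Finite V] [Nontrivial V] {q : ℕ}
    (hq : q.Prime) (hexp : ∀ v : V, v ^ q = 1) : q ∣ Nat.card V := by
  obtain ⟨n, hn⟩ := card_eq_pow_of_exponent hq hexp
  rw [hn]
  refine dvd_pow_self q ?_
  rintro rfl
  have : 1 < Nat.card V := Finite.one_lt_card
  rw [hn, pow_zero] at this
  exact lt_irrefl _ this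

/-- Second half: extension data are available. -/
theorem thmB2 {A Q Γ : Type} [AddCommGroup A] [Finite A] [Nontrivial A] [MulOneClass Q]
    [IsALoop Q] [Finite Q] [MulOneClass Γ] [IsALoop Γ] [Finite Γ] (E : Ext A Q Γ)
    (hmin : ∀ W : Submonoid Q, W ≤ MonoidHom.mker E.π → Nrm W → W = ⊥ ∨ W = MonoidHom.mker E.π)
    {p : ℕ} (hp : p.Prime) (hpA : ∀ a : A, p • a = 0) (hsolv : Solv Γ)
    (hcop : Nat.Coprime (Nat.card Γ) p) :
    (∃ S : Submonoid Q, S ≠ ⊤ ∧ ∀ X : Γ, ∃ s ∈ S, E.π s = X) ∨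
    (∃ M₀ : Submonoid Q, M₀ ≠ ⊥ ∧ Nrm M₀ ∧ Nat.Coprime (Nat.card M₀) p) := by
  obtain ⟨a₀, ha₀⟩ := exists_ne (0 : A)
  have ha₀' : E.ι a₀ ≠ 1 := by
    intro h
    exact ha₀ (E.ι_inj (by rw [h, E.ι_zero]))
  rcases subsingleton_or_nontrivial Γ with hΓ | hΓ
  · left
    refine ⟨⊥, ?_, ?_⟩
    · intro h
      have : E.ι a₀ ∈ (⊤ : Submonoid Q) := Submonoid.mem_top _
      rw [← h, Submonoid.mem_bot] at this
      exact ha₀' this
    · intro X
      exact ⟨1, one_mem _, Subsingleton.elim _ _⟩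
  · obtain ⟨V, hV⟩ := exists_minNrm Γ
    obtain ⟨q, hq, V', iV', fV', nV', j, hj, hjV, hexp⟩ := hV.structure hsolv
    obtain ⟨Δ, iΔ, hΔ, fΔ, ϖ, hϖ, hker⟩ := exists_quot hV.2.1
    have hker' : ∀ X, ϖ X = 1 ↔ ∃ v, j v = X := fun X => (hker X).trans (hjV X)
    let D : VD V' Γ Δ :=
      { j := j, j_inj := hj, ϖ := ϖ, ker := hker'
        assoc := fun X v w => assoc_lemma hV j hj hjV hq hexp X v w }
    have hqd : q ∣ Nat.card V' := prime_dvd_card_of_exponent hq hexp
    have hVd : Nat.card V' ∣ Nat.card Γ := by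
      have h1 := card_surj ϖ hϖ
      have h2 : Nat.card (MonoidHom.mker ϖ) = Nat.card V' := by
        symm
        apply Nat.card_congr
        refine Equiv.ofBijective (fun v => ⟨j v, (MonoidHom.mem_mker).2 ((hker' _).2 ⟨v, rfl⟩)⟩)
          ⟨?_, ?_⟩
        · intro v w h
          exact hj (congrArg Subtype.val h)
        · rintro ⟨X, hX⟩
          obtain ⟨v, rfl⟩ := (hker' X).1 ((MonoidHom.mem_mker).1 hX)
          exact ⟨v, rfl⟩
      rw [h2] at h1
      exact ⟨_, h1.symm⟩
    have hcopV : Nat.Coprime (Nat.card V') p := Nat.Coprime.coprime_dvd_left hVd hcop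
    have hpq : p ≠ q := by
      rintro rfl
      have := Nat.Coprime.eq_one_of_dvd hcopV.symm hqd
      exact hp.one_lt.ne' this
    have : Fintype V' := Fintype.ofFinite V'
    have : Fintype Γ := Fintype.ofFinite Γ
    obtain ⟨mV, hmV⟩ := exists_m' hp hpA hcopV
    obtain ⟨mΓ, hmΓ⟩ := exists_m' hp hpA hcop
    rw [Nat.card_eq_fintype_card] at hmV hmΓ
    -- fixed points of V
    let Bx : Submonoid Q :=
      { carrier := {q | ∃ a, E.ι a = q ∧ ∀ v, E.τ (D.j v) a = a}
        one_mem' := ⟨0, E.ι_zero, fun v => map_zero _⟩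
        mul_mem' := by
          rintro _ _ ⟨a, rfl, ha⟩ ⟨b, rfl, hb⟩
          exact ⟨a + b, E.ι_add a b, fun v => by rw [map_add, ha, hb]⟩ }
    have hBle : Bx ≤ MonoidHom.mker E.π := by
      rintro _ ⟨a, rfl, ha⟩
      rw [MonoidHom.mem_mker, E.πι]
    have hBinv : ∀ (φ : MulAut Q) (φ' : MulAut Γ) (g : AddMonoid.End A), E.Rep φ φ' g →
        φ' ∈ stab (MonoidHom.mker ϖ) → ∀ n ∈ Bx, φ n ∈ Bx := by
      rintro φ φ' g hr hφ' _ ⟨a, rfl, ha⟩
      refine ⟨g a, (hr.2 a).symm, ?_⟩
      intro v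
      obtain ⟨w, hw⟩ : ∃ w, j w = φ'⁻¹ (j v) := by
        rw [← hker', ← MonoidHom.mem_mker, inv_mem hφ', MonoidHom.mem_mker]
        exact (hker' _).2 ⟨v, rfl⟩
      have h1 : g (E.τ (j w) a) = E.τ (φ' (j w)) (g a) :=
        congrArg (fun h : AddMonoid.End A => h a) (hr.τ E (j w))
      rw [hw, MulAut.apply_inv_self, ← hw] at h1
      have h2 : E.τ (j w) a = a := ha w
      rw [h2] at h1
      exact h1.symm
    have hBn : Nrm Bx := by
      have hϖn := Nrm.mker ϖ
      apply Nrm.of_finite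
      · intro x y
        exact hBinv _ _ _ (E.rep_Lm x y) (hϖn.1 _ _)
      · intro x y
        obtain ⟨g, hr, -⟩ := E.rep_Mm x y
        exact hBinv _ _ _ hr (hϖn.2.1 _ _)
      · intro x
        obtain ⟨g, hr⟩ := E.exists_rep (Tm x) (Tm (E.π x)) (map_Tm E.π x)
        exact hBinv _ _ _ hr (hϖn.2.2 _)
    rcases hmin Bx hBle hBn with hB | hB
    · -- no fixed points
      left
      have hA : ∀ a : A, (∀ v, E.τ (D.j v) a = a) → a = 0 := by
        intro a ha
        have h1 : E.ι a ∈ Bx := ⟨a, rfl, ha⟩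
        rw [hB, Submonoid.mem_bot] at h1
        exact E.ι_inj (by rw [h1, E.ι_zero])
      have hmain := fun X => D.main_V E hp hpA hq hpq hexp hA X
      have hglob := fun X Y => D.global E hA (fun X v => (hmain X).1 v)
        (fun X v => (hmain X).2 v) X Y
      obtain ⟨s, hs1, hs2⟩ := E.nuclear (fun X Y => (hglob X Y).1) (fun X Y => (hglob X Y).2)
        (fun a ha => hA a (fun v => ha _)) mΓ hmΓ
      have hs0 : s 1 = 1 := by
        apply lc (a := s 1)
        rw [hs2, mul_one, mul_one]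
      refine ⟨{ carrier := Set.range s, one_mem' := ⟨1, hs0⟩, mul_mem' := ?_ }, ?_, ?_⟩
      · rintro _ _ ⟨X, rfl⟩ ⟨Y, rfl⟩
        exact ⟨X * Y, (hs2 X Y).symm⟩
      · intro h
        have h1 : E.ι a₀ ∈ (⊤ : Submonoid Q) := Submonoid.mem_top _
        rw [← h] at h1
        obtain ⟨X, hX⟩ := h1
        have h2 : X = 1 := by
          rw [← hs1 X, hX, E.πι]
        rw [h2, hs0] at hX
        exact ha₀' hX.symm
      · intro X
        exact ⟨s X, ⟨X, rfl⟩, hs1 X⟩
    · -- everything fixed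
      right
      have hτ : ∀ v, E.τ (D.j v) = 1 := by
        intro v
        ext a
        have h1 : E.ι a ∈ MonoidHom.mker E.π := by rw [MonoidHom.mem_mker, E.πι]
        rw [← hB] at h1
        obtain ⟨b, hb, hb'⟩ := h1
        rw [← E.ι_inj hb]
        exact hb' v
      obtain ⟨M₀, h1, h2, h3⟩ := D.central E hτ mV hmV
      exact ⟨M₀, h1, h2, by rw [h3]; exact hcopV⟩

/-- Theorem B. -/
theorem thmB {Q Γ N' : Type} [MulOneClass Q] [IsALoop Q] [Finite Q] [MulOneClass Γ] [IsALoop Γ]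
    [Finite Γ] (π : Q →* Γ) (hπ : Function.Surjective π) (hN : MinNrm (MonoidHom.mker π))
    [CommGroup N'] [Finite N'] [Nontrivial N'] (j₀ : N' →* Q) (hj₀ : Function.Injective j₀)
    (hjN : ∀ q, π q = 1 ↔ ∃ v, j₀ v = q) {p : ℕ} (hp : p.Prime) (hexp : ∀ v : N', v ^ p = 1)
    (hsolv : Solv Γ) (hcop : Nat.Coprime (Nat.card Γ) p) :
    (∃ S : Submonoid Q, S ≠ ⊤ ∧ ∀ X : Γ, ∃ s ∈ S, π s = X) ∨
    (∃ M₀ : Submonoid Q, M₀ ≠ ⊥ ∧ Nrm M₀ ∧ Nat.Coprime (Nat.card M₀) p) := by
  let C : Subgroup (MulAut Q) :=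
    { carrier := {φ | ∀ q, π (φ q) = π q}
      one_mem' := fun q => rfl
      mul_mem' := by
        intro φ ψ h1 h2 q
        rw [MulAut.mul_apply, h1, h2]
      inv_mem' := by
        intro φ h q
        rw [← h (φ⁻¹ q), MulAut.apply_inv_self] }
  have hcardN : ∃ n, Nat.card N' = p ^ n := card_eq_pow_of_exponent hp hexp
  obtain ⟨n, hn⟩ := hcardN
  by_cases hC : ∃ φ ∈ C, ∃ r : ℕ, r.Prime ∧ r ≠ p ∧ orderOf φ = r
  · left
    obtain ⟨φ, hφ, r, hr, hrp, hord⟩ := hC
    let S : Submonoid Q :=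
      { carrier := {q | φ q = q}
        one_mem' := map_one' φ
        mul_mem' := by
          intro a b ha hb
          change φ (a * b) = a * b
          rw [map_mul, ha, hb] }
    refine ⟨S, ?_, ?_⟩
    · intro h
      have h1 : φ = 1 := by
        apply MulEquiv.ext
        intro q
        have : q ∈ (⊤ : Submonoid Q) := Submonoid.mem_top _
        rw [← h] at this
        exact this
      rw [h1, orderOf_one] at hord
      exact hr.one_lt.ne hord
    · intro X
      obtain ⟨x, rfl⟩ := hπ X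
      let f : Subgroup.zpowers φ →* Equiv.Perm Q := (MulAut.toPerm Q).comp (Subgroup.subtype _)
      have hf : ∀ (k : Subgroup.zpowers φ) (y : Q), π (f k y) = π y := by
        intro k y
        have : (k : MulAut Q) ∈ C := by
          have h2 : Subgroup.zpowers φ ≤ C := by
            rw [Subgroup.zpowers_le]; exact hφ
          exact h2 k.2
        exact this y
      obtain ⟨z, hz, hz'⟩ := fixed_pt_of_not_dvd f hr (isPGroup_zpowers hord) {z : Q | π z = π x}
        (by
          intro k y hy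
          change π (f k y) = π x
          rw [hf]; exact hy)
        (by
          rw [card_fiber π j₀ hj₀ hjN, hn]
          intro h
          exact hrp ((Nat.prime_dvd_prime_iff_eq hr hp).1 (hr.dvd_of_dvd_pow h)))
      exact ⟨z, hz' ⟨φ, Subgroup.mem_zpowers φ⟩, hz⟩
  · -- C is a p-group
    have hCp : IsPGroup p C := by
      apply isPGroup_of_prime_orders hp
      intro r hr hrp g hg
      apply hC
      refine ⟨g, g.2, r, hr, hrp, ?_⟩
      rw [← hg]
      exact Subgroup.orderOf_coe g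
    -- fixed points of C in N
    let Fx : Submonoid Q :=
      { carrier := {q | π q = 1 ∧ ∀ φ ∈ C, φ q = q}
        one_mem' := ⟨map_one π, fun φ _ => map_one' φ⟩
        mul_mem' := by
          rintro a b ⟨ha, ha'⟩ ⟨hb, hb'⟩
          refine ⟨by rw [map_mul, ha, hb, one_mul], ?_⟩
          intro φ hφ
          rw [map_mul, ha' φ hφ, hb' φ hφ] }
    have hFle : Fx ≤ MonoidHom.mker π := fun q hq => (MonoidHom.mem_mker).2 hq.1
    have hFn : Nrm Fx := by
      apply Nrm.of_stab (Nrm.mker π)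
      rintro ψ hψ w ⟨hw, hw'⟩
      refine ⟨?_, ?_⟩
      · rw [← MonoidHom.mem_mker, hψ, MonoidHom.mem_mker, hw]
      · intro φ hφ
        have h1 : ψ⁻¹ * φ * ψ ∈ C := by
          intro q
          rw [MulAut.mul_apply, MulAut.mul_apply]
          obtain ⟨n, hn, hn'⟩ := exists_ker_right π (hφ (ψ q))
          rw [hn', map_mul, MulAut.inv_apply_self, map_mul]
          have h2 : π (ψ⁻¹ n) = 1 := by
            rw [← MonoidHom.mem_mker, inv_mem hψ, MonoidHom.mem_mker, hn]
          rw [h2, mul_one]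
        have h2 := hw' _ h1
        rw [MulAut.mul_apply, MulAut.mul_apply] at h2
        have h3 := congrArg ψ h2
        rw [MulAut.apply_inv_self] at h3
        exact h3
    have htriv : ∀ q, π q = 1 → ∀ φ ∈ C, φ q = q := by
      rcases hN.2.2 Fx hFle hFn with h | h
      · exfalso
        let f : C →* Equiv.Perm Q := (MulAut.toPerm Q).comp (Subgroup.subtype _)
        obtain ⟨z, hz, hz1, hz'⟩ := fixed_pt_of_dvd f hp hCp {z : Q | π z = π 1}
          (by
            intro k y hy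
            change π (f k y) = π 1
            have : π (f k y) = π y := k.2 y
            rw [this]; exact hy)
          (by
            rw [card_fiber π j₀ hj₀ hjN]
            exact prime_dvd_card_of_exponent hp hexp)
          (a := 1) rfl (fun g => map_one' (g : MulAut Q))
        have h1 : z ∈ Fx := by
          refine ⟨?_, ?_⟩
          · have : π z = π 1 := hz
            rw [this, map_one]
          · intro φ hφ
            exact hz' ⟨φ, hφ⟩
        rw [h, Submonoid.mem_bot] at h1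
        exact hz1 h1
      · intro q hq φ hφ
        have h1 : q ∈ Fx := by rw [h, MonoidHom.mem_mker]; exact hq
        exact h1.2 φ hφ
    obtain ⟨E, hEι, hEπ⟩ := exists_ext (A := Additive N') (fun a => j₀ a.toMul) π (map_one j₀)
      (fun a b => map_mul j₀ _ _) (fun a b h => hj₀ h) hπ
      (fun q => (hjN q)) (fun φ hφ a => htriv _ ((hjN _).2 ⟨_, rfl⟩) φ hφ)
    subst hEπ
    exact thmB2 E hN.2.2 hp (fun a => hexp a.toMul) hsolv hcop

end H13.ALoop
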