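import Mathlib
import Pool.Agent.Hhelper13.ALoop.ThmB

set_option autoImplicit false
set_option linter.unusedSectionVars false

namespace H13.ALoop

/-- `Q` has a Hall subloop for the set of primes `P`. -/
def HasHall (P : Set ℕ) (Q : Type) [MulOneClass Q] : Prop :=
  ∃ (H : Submonoid Q) (k : ℕ), Nat.card H * k = Nat.card Q ∧
    (∀ r : ℕ, r.Prime → r ∣ Nat.card H → r ∈ P) ∧ (∀ r : ℕ, r.Prime → r ∣ k → r ∉ P)

theorem card_sub_map {Q : Type} [MulOneClass Q] (S : Submonoid Q) (H : Submonoid S) :
    Nat.card (H.map S.subtype) = Nat.card H := by
  symm
  apply Nat.card_congr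
  refine Equiv.ofBijective (fun h => (⟨((h : S) : Q), ⟨h, h.2, rfl⟩⟩ : H.map S.subtype)) ⟨?_, ?_⟩
  · intro a b h
    have h1 : ((a : S) : Q) = ((b : S) : Q) := congrArg (fun z : H.map S.subtype => (z : Q)) h
    exact Subtype.ext (Subtype.ext h1)
  · rintro ⟨_, ⟨x, hx, rfl⟩⟩
    exact ⟨⟨x, hx⟩, rfl⟩

theorem card_lt_of_ne_top {Q : Type} [MulOneClass Q] [Finite Q] {S : Submonoid Q} (h : S ≠ ⊤) :
    Nat.card S < Nat.card Q := by
  have h1 : (S : Set Q) ≠ Set.univ := by
    intro h2
    apply h
    rw [eq_top_iff]
    intro x _
    have : x ∈ (S : Set Q) := by rw [h2]; exact Set.mem_univ x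
    exact this
  have h2 := Set.ncard_lt_card h1
  rw [← Nat.card_coe_set_eq] at h2
  exact h2

theorem hall (P : Set ℕ) : ∀ (n : ℕ) (Q : Type) [MulOneClass Q] [IsALoop Q] [Finite Q],
    Nat.card Q = n → Solv Q → HasHall P Q := by
  intro n
  induction n using Nat.strong_induction_on with
  | _ n ih =>
    intro Q _ _ _ hcard hs
    rcases subsingleton_or_nontrivial Q with hQ | hQ
    · refine ⟨⊥, 1, ?_, ?_, ?_⟩
      · rw [mul_one]
        have h1 : Nat.card (⊥ : Submonoid Q) = 1 := Nat.card_unique
        have h2 : Nat.card Q = 1 := by
          have : Nonempty Q := ⟨1⟩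
          exact Nat.card_eq_one_iff_unique.2 ⟨hQ, this⟩
        rw [h1, h2]
      · intro r hr h
        have h1 : Nat.card (⊥ : Submonoid Q) = 1 := Nat.card_unique
        rw [h1] at h
        exact absurd (Nat.dvd_one.1 h) hr.one_lt.ne'
      · intro r hr h
        exact absurd (Nat.dvd_one.1 h) hr.one_lt.ne'
    · obtain ⟨N, hN⟩ := exists_minNrm Q
      obtain ⟨p, hp, N', iN', fN', nN', j₀, hj₀, hjN, hexp⟩ := hN.structure hs
      obtain ⟨Γ, iΓ, hΓ, fΓ, π, hπ, hker⟩ := exists_quot hN.2.1
      have hmk : MonoidHom.mker π = N := by
        ext q
        rw [MonoidHom.mem_mker, hker]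
      subst hmk
      have hker' : ∀ q, π q = 1 ↔ ∃ v, j₀ v = q := fun q => (hker q).trans (hjN q)
      have hsΓ : Solv Γ := hs.image π hπ
      have hcardN : ∃ a, Nat.card (MonoidHom.mker π) = p ^ a := by
        obtain ⟨a, ha⟩ := card_eq_pow_of_exponent hp hexp
        refine ⟨a, ?_⟩
        rw [← ha]
        symm
        apply Nat.card_congr
        refine Equiv.ofBijective (fun v => ⟨j₀ v, (hjN _).2 ⟨v, rfl⟩⟩) ⟨?_, ?_⟩
        · intro v w h
          exact hj₀ (congrArg Subtype.val h)
        · rintro ⟨X, hX⟩
          obtain ⟨v, rfl⟩ := (hjN X).1 hX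
          exact ⟨v, rfl⟩
      obtain ⟨a, ha⟩ := hcardN
      have hQcard := card_surj π hπ
      have hNgt : 1 < Nat.card (MonoidHom.mker π) := by
        by_contra hcon
        have h1 : Nat.card (MonoidHom.mker π) = 1 := by
          have := Nat.card_pos (α := MonoidHom.mker π)
          omega
        apply hN.1
        rw [eq_bot_iff]
        intro q hq
        rw [Nat.card_eq_one_iff_unique] at h1
        have h2 : (⟨q, hq⟩ : MonoidHom.mker π) = 1 := h1.1.elim _ _
        rw [Submonoid.mem_bot]
        exact congrArg Subtype.val h2
      have hΓlt : Nat.card Γ < n := by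
        rw [← hcard, ← hQcard]
        have : 0 < Nat.card Γ := Nat.card_pos
        nlinarith
      obtain ⟨Hb, k, hk1, hk2, hk3⟩ := ih _ hΓlt Γ rfl hsΓ
      have hH1 := card_comap π hπ Hb
      by_cases hpP : p ∈ P
      · refine ⟨Hb.comap π, k, ?_, ?_, hk3⟩
        · rw [← hH1, mul_assoc, hk1, hQcard]
        · intro r hr h
          rw [← hH1, ha] at h
          rcases (hr.dvd_mul).1 h with h | h
          · rw [(Nat.prime_dvd_prime_iff_eq hr hp).1 (hr.dvd_of_dvd_pow h)]
            exact hpP
          · exact hk2 r hr h
      · by_cases htop : Hb.comap π = ⊤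
        · -- Γ is a P-number
          have hHb : Nat.card Hb = Nat.card Γ := by
            have h1 : Hb = ⊤ := by
              rw [eq_top_iff]
              intro X _
              obtain ⟨x, rfl⟩ := hπ X
              have : x ∈ (⊤ : Submonoid Q) := Submonoid.mem_top _
              rw [← htop] at this
              exact this
            rw [h1]
            exact Nat.card_congr Submonoid.topEquiv.toEquiv
          have hPΓ : ∀ r : ℕ, r.Prime → r ∣ Nat.card Γ → r ∈ P := by
            intro r hr h
            rw [← hHb] at h
            exact hk2 r hr h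
          have hcop : Nat.Coprime (Nat.card Γ) p := by
            rw [Nat.coprime_comm, hp.coprime_iff_not_dvd]
            intro h
            exact hpP (hPΓ p hp h)
          rcases thmB π hπ hN j₀ hj₀ hker' hp hexp hsΓ hcop with ⟨S, hS, hS'⟩ | ⟨M₀, hM1, hM2, hM3⟩
          · -- proper supplement
            have hSlt : Nat.card S < n := by
              rw [← hcard]
              exact card_lt_of_ne_top hS
            obtain ⟨H2, k2, h1, h2, h3⟩ := ih _ hSlt S rfl (hs.sub S)
            have h4 := card_map π S ⊤ (fun s _ => Submonoid.mem_top _) (fun t _ => hS' t)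
            have h5 : Nat.card (⊤ : Submonoid Γ) = Nat.card Γ :=
              Nat.card_congr Submonoid.topEquiv.toEquiv
            rw [h5] at h4
            -- card (S ⊓ mker) divides card mker
            have h6 : Nat.card (S ⊓ MonoidHom.mker π : Submonoid Q) ∣ p ^ a := by
              rw [← ha]
              -- via the group N'
              let K : Subgroup N' :=
                { carrier := {v | j₀ v ∈ S}
                  one_mem' := by
                    change j₀ 1 ∈ S
                    rw [map_one]; exact one_mem _
                  mul_mem' := by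
                    intro v w hv hw
                    change j₀ (v * w) ∈ S
                    rw [map_mul]; exact mul_mem hv hw
                  inv_mem' := by
                    intro v hv
                    have hv' : j₀ v ∈ S := hv
                    change j₀ v⁻¹ ∈ S
                    apply mem_of_mul_mem_left hv'
                    rw [← map_mul, mul_inv_cancel, map_one]
                    exact one_mem _ }
              have h7 : Nat.card (S ⊓ MonoidHom.mker π : Submonoid Q) = Nat.card K := by
                symm
                apply Nat.card_congr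
                refine Equiv.ofBijective (fun v => ⟨j₀ v, ⟨v.2, (hjN _).2 ⟨v, rfl⟩⟩⟩) ⟨?_, ?_⟩
                · intro v w h
                  exact Subtype.ext (hj₀ (congrArg Subtype.val h))
                · rintro ⟨X, hX1, hX2⟩
                  obtain ⟨v, rfl⟩ := (hjN X).1 hX2
                  exact ⟨⟨v, hX1⟩, rfl⟩
              have h8 : Nat.card (MonoidHom.mker π) = Nat.card N' := by
                symm
                apply Nat.card_congr
                refine Equiv.ofBijective (fun v => ⟨j₀ v, (hjN _).2 ⟨v, rfl⟩⟩) ⟨?_, ?_⟩
                · intro v w h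
                  exact hj₀ (congrArg Subtype.val h)
                · rintro ⟨X, hX⟩
                  obtain ⟨v, rfl⟩ := (hjN X).1 hX
                  exact ⟨v, rfl⟩
              rw [h7, h8]
              exact Subgroup.card_subgroup_dvd_card K
            obtain ⟨c, hc⟩ := h6
            refine ⟨H2.map S.subtype, k2 * c, ?_, ?_, ?_⟩
            · rw [card_sub_map, ← mul_assoc, h1, ← h4, ← hQcard, ha, hc]
              ring
            · rw [card_sub_map]
              exact h2
            · intro r hr h
              rcases (hr.dvd_mul).1 h with h | h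
              · exact h3 r hr h
              · have h7 : r ∣ p ^ a := by rw [hc]; exact h.mul_left _
                rw [(Nat.prime_dvd_prime_iff_eq hr hp).1 (hr.dvd_of_dvd_pow h7)]
                exact hpP
          · -- normal p'-subloop
            obtain ⟨Δ, iΔ, hΔ, fΔ, ϖ, hϖ, hkerϖ⟩ := exists_quot hM2
            have hmk : MonoidHom.mker ϖ = M₀ := by
              ext q
              rw [MonoidHom.mem_mker, hkerϖ]
            subst hmk
            have hc2 := card_surj ϖ hϖ
            have hMgt : 1 < Nat.card (MonoidHom.mker ϖ) := by
              by_contra hcon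
              have h1 : Nat.card (MonoidHom.mker ϖ) = 1 := by
                have := Nat.card_pos (α := MonoidHom.mker ϖ)
                omega
              apply hM1
              rw [eq_bot_iff]
              intro q hq
              rw [Nat.card_eq_one_iff_unique] at h1
              have h2 : (⟨q, hq⟩ : MonoidHom.mker ϖ) = 1 := h1.1.elim _ _
              rw [Submonoid.mem_bot]
              exact congrArg Subtype.val h2
            have hΔlt : Nat.card Δ < n := by
              rw [← hcard, ← hc2]
              have : 0 < Nat.card Δ := Nat.card_pos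
              nlinarith
            obtain ⟨H2, k2, h1, h2, h3⟩ := ih _ hΔlt Δ rfl (hs.image ϖ hϖ)
            have h4 := card_comap ϖ hϖ H2
            refine ⟨H2.comap ϖ, k2, ?_, ?_, h3⟩
            · rw [← h4, mul_assoc, h1, hc2]
            · intro r hr h
              rw [← h4] at h
              rcases (hr.dvd_mul).1 h with h | h
              · have h5 : r ∣ Nat.card Q := h.trans ⟨_, hc2.symm⟩
                rw [← hQcard, ha] at h5
                rcases (hr.dvd_mul).1 h5 with h6 | h6
                · exfalso
                  have h7 := (Nat.prime_dvd_prime_iff_eq hr hp).1 (hr.dvd_of_dvd_pow h6)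
                  rw [h7] at h
                  have := Nat.Coprime.eq_one_of_dvd hM3.symm h
                  exact hp.one_lt.ne' this
                · exact hPΓ r hr h6
              · exact h2 r hr h
        · -- proper preimage
          have hlt : Nat.card (Hb.comap π) < n := by
            rw [← hcard]
            exact card_lt_of_ne_top htop
          obtain ⟨H2, k2, h1, h2, h3⟩ := ih _ hlt (Hb.comap π) rfl (hs.sub _)
          refine ⟨H2.map (Hb.comap π).subtype, k2 * k, ?_, ?_, ?_⟩
          · rw [card_sub_map, ← mul_assoc, h1, ← hH1, mul_assoc, hk1, hQcard]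
          · rw [card_sub_map]
            exact h2
          · intro r hr h
            rcases (hr.dvd_mul).1 h with h | h
            · exact h3 r hr h
            · exact hk3 r hr h

end H13.ALoop
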